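import Mathlib
import Pool.Agent.N183.TS.Stm
import Pool.Agent.Y224.TS.Stm

/-!
# Simple abelian varieties with a large element in the image of the Galois group

Let `Y` be a simple abelian variety and let `a` be an endomorphism such that `ℚ[a]` is a maximal
subfield of the division algebra `End(Y) ⊗ ℚ`, of degree `m`. The embeddings of `ℚ[a]` in `ℂ` are
the roots `s` of the minimal polynomial of `a`, and `ℂ ⊗ H_1(Y, ℚ)` is the direct sum of the
eigenspaces `V_s`, of dimension `r = 2 dim(Y) / m`.
-/

namespace Pool.Agent.N183.U5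

open Module Pool.Agent.Y90 Pool.Agent.R915 Polynomial TensorProduct

/-- `ℚ[a]` is a maximal commutative subalgebra of the algebra of endomorphisms of `Y`. -/
def MaxField (Y : AV) (a : Module.End ℚ Y.H) : Prop :=
  IsHom Y Y a ∧ ∀ b : Module.End ℚ Y.H, IsHom Y Y b → b * a = a * b → b ∈ Algebra.adjoin ℚ {a}

/-- Coprime relative signature: for one embedding `s` of `ℚ[a]`, the multiplicity `n(s)` of the
eigenvalue `s` of the action `Ψ` of `a` on the tangent space is prime to `r = 2 dim(Y) / m`, the
dimension of `V_s`. (For `r = 1`, the case of complex multiplication, this is no condition.) -/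
def CopMult (Y : AV) : Prop :=
  ∃ (a : Module.End ℚ Y.H) (Ψ : Module.End ℂ Y.T), MaxField Y a ∧
    (∀ v, Ψ (Y.per v) = Y.per (a v)) ∧ ∃ s : ℂ, aeval s (minpoly ℚ a) = 0 ∧
      Nat.Coprime (finrank ℂ (Ψ.eigenspace s)) (finrank ℚ Y.H / (minpoly ℚ a).natDegree)

section lin

variable {V : Type} [AddCommGroup V] [Module ℂ V]

/-- The operator `t` acts on the subspace `W` as a pseudo-reflection (`t - 1` has rank one), which
is not a reflection of order two. The transvections are included. -/
def IsRefl (t : Module.End ℂ V) (W : Submodule ℂ V) : Prop :=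
  finrank ℂ (W.map (t - 1)) = 1 ∧ ∃ w ∈ W, t (t w) ≠ w

/-- The operator `t` is diagonalizable on the subspace `W`, with eigenvalues `α i`, and for some
homomorphism `v` from the multiplicative group of `ℂ` to an abelian group `A` the `v (α i)` take
just two values `c` and `c'`, where `(c / c') ^ 2 ≠ 1`, and the number of the indices `i` with
`v (α i) = c` is prime to the dimension of `W`.

Examples. `A = ℂˣ` and `v` is the identity: there are just two eigenvalues, with coprime
multiplicities, and their quotient is not `-1`. Or `v` is a `p`-adic valuation (with values in the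
group `A` of real numbers) and `t` is a Frobenius element with two slopes on `W`, with coprime
multiplicities. -/
def TwoClasses (t : Module.End ℂ V) (W : Submodule ℂ V) : Prop :=
  ∃ (n : ℕ) (w : Basis (Fin n) ℂ W) (α : Fin n → ℂˣ) (A : Type) (_ : CommGroup A) (v : ℂˣ →* A)
    (c c' : A),
    (∀ i, t (w i) = (α i : ℂ) • (w i : V)) ∧ (c / c') ^ 2 ≠ 1 ∧
      (∀ i, v (α i) = c ∨ v (α i) = c') ∧ (∃ i, v (α i) = c) ∧ (∃ i, v (α i) = c') ∧
        Nat.Coprime (Nat.card {i // v (α i) = c}) n

end lin

section gal

variable {K : Type} [Field K] [CharZero K] [Algebra K ℂ] {Γ : Type} [Group Γ]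

variable (K) in
/-- The eigenspace `V_s` of `a` in `ℂ ⊗ V(Y)`, where `V(Y) = K ⊗ H_1(Y, ℚ)`. -/
noncomputable def VS (Y : AV) (a : Module.End ℚ Y.H) (s : ℂ) :
    Submodule ℂ (ℂ ⊗[K] (K ⊗[ℚ] Y.H)) :=
  Module.End.eigenspace ((a.baseChange K).baseChange ℂ) s

/-- The element `γ` of the Galois group commutes with the endomorphisms of the abelian variety `X`
with homology `H` (they are defined over the fixed field of `γ`), and it acts as `t` on `V(Y)` for the
abelian subvarieties `Y → X`, where `H'` is the homology of `Y`. -/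
def ActsPer {H T H' T' : Type} [AddCommGroup H] [Module ℚ H] [AddCommGroup T] [Module ℂ T]
    [AddCommGroup H'] [Module ℚ H'] [AddCommGroup T'] [Module ℂ T'] (per : H →+ T)
    (per' : H' →+ T') (ρ : Representation K Γ (K ⊗[ℚ] H)) (γ : Γ)
    (t : Module.End K (K ⊗[ℚ] H')) : Prop :=
  (∀ f : H →ₗ[ℚ] H, St.IsHom per per f → ∀ v, ρ γ (f.baseChange K v) = f.baseChange K (ρ γ v)) ∧
    ∀ i : H' →ₗ[ℚ] H, St.IsHom per' per i → ∀ v, ρ γ (i.baseChange K v) = i.baseChange K (t v)

/-- The element `γ` of the Galois group commutes with the endomorphisms of `X` (they are defined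
over the fixed field of `γ`), and it acts as `t` on `V(Y)` for the abelian subvarieties `Y → X`. -/
def ActsBy (X : AV) (ρ : Representation K Γ (K ⊗[ℚ] X.H)) (Y : AV) (γ : Γ)
    (t : Module.End K (K ⊗[ℚ] Y.H)) : Prop :=
  ActsPer X.per Y.per ρ γ t

/-- For each embedding `s` of `ℚ[a]` some element of the Galois group acts on `V_s` as a
pseudo-reflection or a transvection, or with two classes of eigenvalues of coprime multiplicities.
The element may depend on `s`. -/
def GalMult (X : AV) (ρ : Representation K Γ (K ⊗[ℚ] X.H)) (Y : AV) : Prop :=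
  ∃ a : Module.End ℚ Y.H, MaxField Y a ∧
    ∀ s : ℂ, aeval s (minpoly ℚ a) = 0 → ∃ (γ : Γ) (t : Module.End K (K ⊗[ℚ] Y.H)),
      ActsBy X ρ Y γ t ∧ (IsRefl (t.baseChange ℂ) (VS K Y a s) ∨
        TwoClasses (t.baseChange ℂ) (VS K Y a s))

end gal

end Pool.Agent.N183.U5
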