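import Mathlib
import Pool.Agent.N183.U5.Stm
import Pool.Agent.H204R3.CM.Defs

/-!
# Hodge tensors
-/

namespace Pool.Agent.N183.U5

open Module Pool.Agent.Y90 Pool.Agent.R915 Polynomial TensorProduct

/-- Let `T` be the tangent space of a complex abelian variety `X`, `W = H_1(X, ℚ)`, and
`per : W → T` the inclusion. A multilinear form `f` on `W` with rational values is a *Hodge tensor*
if it extends to a real multilinear form on `T` which is invariant under the multiplication by the
complex numbers of absolute value one. -/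
def IsHodgeTensor {W T : Type*} [AddCommGroup W] [Module ℚ W] [AddCommGroup T] [Module ℂ T]
    (per : W →+ T) {κ : Type*} (f : MultilinearMap ℚ (fun _ : κ => W) ℚ) : Prop :=
  ∃ ψ : MultilinearMap ℝ (fun _ : κ => T) ℝ,
    (∀ v : κ → W, ψ (fun l => per (v l)) = f v) ∧
      ∀ z : ℂ, ‖z‖ = 1 → ∀ u : κ → T, ψ (fun l => z • u l) = ψ u

/-- The endomorphism algebra of `Y` is an imaginary quadratic field, and the two multiplicities of
its action on the tangent space are at most three. There is no condition on the discriminant. -/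
def QuadThree (Y : AV) : Prop :=
  ∃ (d : ℚ) (h : Y.H →ₗ[ℚ] Y.H), EndQuad Y d h ∧
    ∃ Ψ : Y.T →ₗ[ℂ] Y.T, (∀ v, Ψ (Y.per v) = Y.per (h v)) ∧
      ∀ s : ℂ, s * s = -(d : ℂ) → finrank ℂ (LinearMap.ker (Ψ - s • LinearMap.id)) ≤ 3

/-- The endomorphism `φ` generates the centre of the algebra `End(X) ⊗ ℚ`. -/
def CentreGen (X : AV) (φ : Module.End ℚ X.H) : Prop :=
  IsHom X X φ ∧ (∀ f : Module.End ℚ X.H, IsHom X X f → f * φ = φ * f) ∧
    ∀ b : Module.End ℚ X.H, IsHom X X b →
      (∀ f : Module.End ℚ X.H, IsHom X X f → f * b = b * f) → b ∈ Algebra.adjoin ℚ {φ}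

/-- The function `n` is the multiplicity function of the centre `F` of `End(X) ⊗ ℚ`. Here `φ` is a
generator of `F`, so that the homomorphisms `F → ℂ` are given by the roots `s` of the minimal
polynomial of `φ`, and `n(s)` is the multiplicity of the eigenvalue `s` of the action `Ψ` of `φ` on
the tangent space of `X`. -/
def IsCentreMult (X : AV) (n : ℂ → ℕ) : Prop :=
  ∃ (φ : Module.End ℚ X.H) (Ψ : Module.End ℂ X.T), CentreGen X φ ∧
    (∀ v, Ψ (X.per v) = X.per (φ v)) ∧ ∀ s, n s = finrank ℂ (Ψ.eigenspace s)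

/-- The homomorphism `s` is mixed if both `s` and the complex conjugate `s̄` occur in the tangent
space. (The signature of the corresponding Hermitian form is proportional to `(n(s), n(s̄))`.) -/
def IsMixed (n : ℂ → ℕ) (s : ℂ) : Prop := n s ≠ 0 ∧ n (starRingEnd ℂ s) ≠ 0

/-- The multiplicity function is *separated*: if `s` has a mixed conjugate and the signatures of `s`
and `s'` are not proportional for all their conjugates, then they are not proportional for some
conjugates `τ s` and `τ s'` one of which at least is mixed. (There is no condition if all the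
homomorphisms which belong to factors without complex multiplication are mixed.) -/
def IsSeparated (n : ℂ → ℕ) : Prop :=
  ∀ s s' : ℂ, (∃ τ : ℂ ≃+* ℂ, IsMixed n (τ s)) →
    (∃ τ : ℂ ≃+* ℂ, n (τ s) * n (starRingEnd ℂ (τ s')) ≠ n (τ s') * n (starRingEnd ℂ (τ s))) →
      ∃ τ : ℂ ≃+* ℂ,
        n (τ s) * n (starRingEnd ℂ (τ s')) ≠ n (τ s') * n (starRingEnd ℂ (τ s)) ∧
          (IsMixed n (τ s) ∨ IsMixed n (τ s'))

/-- The multiplicity function is *nondegenerate*: a function `c` with `c(s̄) = -c(s)` and
`∑ c(s) n(τ s) = 0` for all automorphisms `τ` of `ℂ` vanishes where `n` does not vanish. (The centre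
of the Hodge group is then as large as possible.) -/
def IsNondegenerate (n : ℂ → ℕ) : Prop :=
  ∀ c : ℂ → ℚ, (∀ s, c (starRingEnd ℂ s) = -c s) →
    (∀ τ : ℂ ≃+* ℂ, ∑ᶠ s, c s * (n (τ s) : ℚ) = 0) → ∀ s, n s ≠ 0 → c s = 0

end Pool.Agent.N183.U5
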