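import Mathlib
import Pool.Agent.N183.TS.Self

/-!
# Maximal subfields of the endomorphism algebra of a simple abelian variety
-/

set_option linter.unusedSectionVars false

namespace Pool.Agent.N183.U5

open Matrix Module Pool.Agent.W437.HC Pool.Agent.W437.HD Pool.Agent.W548.Odd Pool.Agent.W522.U
open Pool.Agent.H204R3.SP Pool.Agent.H204R3.GP Pool.Agent.Y90 Pool.Agent.Y224.TS
open Pool.Agent.W437.HP (cK cK_mul cK_one)
open Pool.Agent.R915 (VE mem_VE VE_cj VE_main VE_stab exists_spec descent_gen aeval_eig commL_of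
  pd_sig eig_conj root_conj)
open Pool.Agent.N183.TS
open Polynomial

noncomputable section

variable {g : ℕ} {Z : Matrix (Fin g) (Fin g) ℂ}

/-- The endomorphism `M` generates a maximal commutative subalgebra. -/
structure MF (Z : Matrix (Fin g) (Fin g) ℂ) (M : Matrix (Fin g ⊕ Fin g) (Fin g ⊕ Fin g) ℚ) :
    Prop where
  comm : qm M * DZ Z = DZ Z * qm M
  max : ∀ R : Matrix (Fin g ⊕ Fin g) (Fin g ⊕ Fin g) ℚ, qm R * DZ Z = DZ Z * qm R →
    R * M = M * R → R ∈ Algebra.adjoin ℚ {M}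

variable {M : Matrix (Fin g ⊕ Fin g) (Fin g ⊕ Fin g) ℚ} (k : MF Z M) (h : PM Z)
  (hs : IsSimpleAV Z)
include k h hs

/-- The eigenspaces are irreducible. -/
theorem MF.irr {θ : ℂ} (hne : VE M θ ≠ ⊥) : IrS (LZ Z) (VE M θ) := by
  obtain ⟨U, hUV, hU⟩ := exists_irS _ (VE M θ) rfl hne (VE_stab k.comm θ)
  obtain ⟨P, hP1, hP2, hP3, hP4⟩ := exists_spec h hs k.comm hne
  obtain ⟨π, hπ1, hπ2, hπ3⟩ := h.cred U hU.2.1
  obtain ⟨Q, hQ⟩ : ∃ Q : Matrix (Fin g ⊕ Fin g) (Fin g ⊕ Fin g) ℂ, ∀ v, Q *ᵥ v = π v :=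
    ⟨LinearMap.toMatrix' π, fun v => by
      rw [← Matrix.toLin'_apply, Matrix.toLin'_toMatrix']⟩
  have hext : ∀ A C : Matrix (Fin g ⊕ Fin g) (Fin g ⊕ Fin g) ℂ, (∀ v, A *ᵥ v = C *ᵥ v) →
      A = C := by
    intro A C hAC
    apply Matrix.toLin'.injective
    exact LinearMap.ext fun v => hAC v
  have hT1 : ∀ X ∈ LZ Z, (Q * P) * X = X * (Q * P) := by
    intro X hX
    refine hext _ _ fun v => ?_
    rw [mul_assoc, ← hP3 X hX, ← mulVec_mulVec, ← mulVec_mulVec, hQ, hπ1 X hX, ← hQ,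
      ← mulVec_mulVec, ← mulVec_mulVec]
  have hT2 : (Q * P) * qm M = qm M * (Q * P) := by
    refine hext _ _ fun v => ?_
    rw [mul_assoc, ← hP4, ← mulVec_mulVec, ← mulVec_mulVec, ← mulVec_mulVec, ← mulVec_mulVec,
      mem_VE.1 (hP1 v), mulVec_smul, hQ, mem_VE.1 (hUV (hπ2 _))]
  obtain ⟨m, c, C, hC1, hC2, hC3⟩ := descent_gen hT1
  have hsc : ∀ j, ∃ z : ℂ, ∀ v ∈ VE M θ, qm (C j) *ᵥ v = z • v := by
    intro j
    have h1 := k.max (C j) (hC1 j) (hC2 M hT2 j)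
    rw [Algebra.adjoin_singleton_eq_range_aeval] at h1
    obtain ⟨p, hp⟩ := h1
    change aeval M p = C j at hp
    refine ⟨aeval θ p, fun v hv => ?_⟩
    rw [← hp, aeval_eig (mem_VE.1 hv)]
  choose z hz using hsc
  have hall : ∀ v ∈ VE M θ, π v = (∑ j, c j * z j) • v := by
    intro v hv
    have h1 : (Q * P) *ᵥ v = π v := by rw [← mulVec_mulVec, hP2 v hv, hQ]
    rw [← h1, hC3, Matrix.sum_mulVec, Finset.sum_smul]
    refine Finset.sum_congr rfl fun j _ => ?_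
    rw [smul_mulVec, hz j v hv, smul_smul]
  obtain ⟨u, hu, hu0⟩ := Submodule.exists_mem_ne_zero_of_ne_bot hU.1
  have h1 : (∑ j, c j * z j) = 1 := by
    have h2 := hall u (hUV hu)
    rw [hπ3 u hu] at h2
    have h3 : ((1 : ℂ) - ∑ j, c j * z j) • u = 0 := by
      rw [sub_smul, one_smul, ← h2, sub_self]
    exact (sub_eq_zero.1 ((smul_eq_zero.1 h3).resolve_right hu0)).symm
  have h2 : VE M θ = U := by
    apply le_antisymm _ hUV
    intro v hv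
    have h3 := hall v hv
    rw [h1, one_smul] at h3
    rw [← h3]
    exact hπ2 v
  rw [h2]
  exact hU

variable (hg : 0 < g)
include hg

/-- The dimension of the eigenspaces. -/
theorem MF.dim {θ : ℂ} (hne : VE M θ ≠ ⊥) :
    (minpoly ℚ M).natDegree * finrank ℂ (VE M θ) = 2 * g := by
  obtain ⟨θ', hθ', hdim, hproj⟩ := VE_main h hs hg k.comm
  refine le_antisymm ?_ (VE_ge h hs k.comm hne)
  have hne' : VE M θ' ≠ ⊥ := by
    obtain ⟨τ, T, hT, hi, hTU⟩ := hproj _ (k.irr h hs hne)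
    intro h1
    apply (R915.irS_map (k.irr h hs hne) hT hi).1
    rw [← le_bot_iff]
    refine hTU.trans ?_
    rw [← VE_cj, h1]
    intro v hv
    rw [mem_cjS, Submodule.mem_bot] at hv
    rw [Submodule.mem_bot]
    funext i
    have h2 := congrFun hv i
    change τ.symm (v i) = 0 at h2
    rw [← τ.apply_symm_apply (v i), h2, map_zero]
    rfl
  obtain ⟨v, hv, hv0⟩ := Submodule.exists_mem_ne_zero_of_ne_bot hne
  obtain ⟨w, hw, hw0⟩ := Submodule.exists_mem_ne_zero_of_ne_bot hne'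
  obtain ⟨σ, hσ⟩ := eig_conj h hs k.comm hw0 (mem_VE.1 hw) hv0 (mem_VE.1 hv)
  rw [← hσ, ← VE_cj, finrank_cjS]
  exact hdim

/-- Each irreducible submodule is isomorphic to an eigenspace. -/
theorem MF.proj {U : Submodule ℂ (Fin g ⊕ Fin g → ℂ)} (hU : IrS (LZ Z) U) :
    ∃ (s : ℂ) (T : (Fin g ⊕ Fin g → ℂ) →ₗ[ℂ] (Fin g ⊕ Fin g → ℂ)),
      aeval s (minpoly ℚ M) = 0 ∧ VE M s ≠ ⊥ ∧
      (∀ X ∈ LZ Z, ∀ u ∈ U, T (X *ᵥ u) = X *ᵥ T u) ∧ (∀ u ∈ U, T u = 0 → u = 0) ∧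
      U.map T = VE M s := by
  obtain ⟨θ, hθ, hdim, hproj⟩ := VE_main h hs hg k.comm
  obtain ⟨σ, T, hT, hi, hTU⟩ := hproj U hU
  have hU' := R915.irS_map hU hT hi
  have hneσ : VE M (σ θ) ≠ ⊥ := fun h1 => hU'.1 (by rwa [h1, le_bot_iff] at hTU)
  have hW := k.irr h hs (θ := σ θ) hneσ
  rcases hW.2.2 _ hTU hU'.2.1 with h1 | h1
  · exact absurd h1 hU'.1
  exact ⟨σ θ, T, root_conj hθ σ, hneσ, hT, hi, h1⟩

omit k h hs hg in
theorem ns_of_pos {W : Submodule ℂ (Fin g ⊕ Fin g → ℂ)} (hp : 0 < pd Z W) (hq : 0 < qd Z W)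
    (c : ℂ) : ∃ u ∈ W, DZ Z *ᵥ u ≠ c • u := by
  by_contra hcon
  push Not at hcon
  obtain ⟨u, hu, hu0⟩ := Submodule.exists_mem_ne_zero_of_ne_bot
    (p := (W ⊓ eig Z 1 : Submodule ℂ (Fin g ⊕ Fin g → ℂ))) (fun h1 => by
      unfold pd at hp
      rw [h1, finrank_bot] at hp
      exact lt_irrefl _ hp)
  obtain ⟨v, hv, hv0⟩ := Submodule.exists_mem_ne_zero_of_ne_bot
    (p := (W ⊓ eig Z (-1) : Submodule ℂ (Fin g ⊕ Fin g → ℂ))) (fun h1 => by
      unfold qd at hq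
      rw [h1, finrank_bot] at hq
      exact lt_irrefl _ hq)
  have e1 : DZ Z *ᵥ u = (1 : ℂ) • u := hu.2
  have e2 : DZ Z *ᵥ v = (-1 : ℂ) • v := hv.2
  rw [hcon u hu.1] at e1
  rw [hcon v hv.1] at e2
  have e3 : c = 1 := by
    have e4 : (c - 1) • u = 0 := by rw [sub_smul, e1, sub_self]
    exact sub_eq_zero.1 ((smul_eq_zero.1 e4).resolve_right hu0)
  have e5 : c = -1 := by
    have e4 : (c - -1) • v = 0 := by rw [sub_smul, e2, sub_self]
    exact sub_eq_zero.1 ((smul_eq_zero.1 e4).resolve_right hv0)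
  rw [e3] at e5
  norm_num at e5

omit k h hs hg in
/-- The complex structures are not scalars. -/
theorem ns_conj {W : Submodule ℂ (Fin g ⊕ Fin g → ℂ)} (σ : ℂ ≃+* ℂ)
    (hp : 0 < pd Z (cjS σ.symm W)) (hq : 0 < qd Z (cjS σ.symm W))
    (c : ℂ) : ∃ u ∈ W, DS Z σ *ᵥ u ≠ c • u := by
  by_contra hcon
  push Not at hcon
  obtain ⟨v, hv, hv'⟩ := ns_of_pos hp hq (σ.symm c)
  apply hv'
  rw [mem_cjS] at hv
  have h1 := congrArg (fun w : Fin g ⊕ Fin g → ℂ => fun i => σ.symm (w i)) (hcon _ hv)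
  beta_reduce at h1
  rw [map_mulVec_aut σ.symm] at h1
  have h2 : (DS Z σ).map σ.symm = DZ Z := by
    ext i j
    change σ.symm (σ (DZ Z i j)) = _
    exact σ.symm_apply_apply _
  have h3 : (fun i => σ.symm ((σ.symm.symm) (v i))) = v := by
    funext i
    simp
  rw [h2] at h1
  change DZ Z *ᵥ (fun i => σ.symm (σ (v i))) = fun i => σ.symm (c * σ (v i)) at h1
  have h4 : (fun i => σ.symm (σ (v i))) = v := by
    funext i
    exact σ.symm_apply_apply _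
  rw [h4] at h1
  rw [h1]
  funext i
  simp

/-- The complex structures are not scalars on the irreducible submodules. -/
theorem MF.ns (hpos : ∀ s : ℂ, aeval s (minpoly ℚ M) = 0 → 0 < pd Z (VE M s) ∧
      0 < qd Z (VE M s)) {U : Submodule ℂ (Fin g ⊕ Fin g → ℂ)} (hU : IrS (LZ Z) U)
    (σ : ℂ ≃+* ℂ) (c : ℂ) : ∃ u ∈ U, DS Z σ *ᵥ u ≠ c • u := by
  obtain ⟨s, T, hs0, hne, hT, hi, hTU⟩ := k.proj h hs hg hU
  obtain ⟨h1, h2⟩ := hpos (σ.symm s) (root_conj hs0 σ.symm)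
  have e1 : cjS σ.symm (VE M s) = VE M (σ.symm s) := VE_cj M s σ.symm
  rw [← e1] at h1 h2
  obtain ⟨v, hv, hv'⟩ := ns_conj σ h1 h2 c
  rw [← hTU] at hv
  obtain ⟨u, hu, rfl⟩ := hv
  refine ⟨u, hu, fun h3 => hv' ?_⟩
  rw [← hT _ (DS_mem σ) u hu, h3, map_smul]

end

end Pool.Agent.N183.U5
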