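import Mathlib
import Pool.Agent.N183.TS.Loc

/-!
# Irreducible Lie algebras which are normalised by a pseudo-reflection
-/

set_option linter.unusedSectionVars false

namespace Pool.Agent.N183.U5

open Module LieAlgebra
open Pool.Agent.W548.Odd (rk)

attribute [local instance 100] LieRing.ofAssociativeRing

noncomputable section

section form

variable {V : Type} [AddCommGroup V] [Module ℂ V] [FiniteDimensional ℂ V]

/-- The trace form of an irreducible Lie algebra of operators is non-degenerate on nilpotent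
elements. -/
theorem trace_nd (𝔥 : LieSubalgebra ℂ (Module.End ℂ V)) [LieModule.IsIrreducible ℂ 𝔥 V]
    (N : 𝔥) (hN : IsNilpotent (N : Module.End ℂ V))
    (h : ∀ X : 𝔥, LinearMap.trace ℂ V ((N : Module.End ℂ V) * (X : Module.End ℂ V)) = 0) :
    (N : Module.End ℂ V) = 0 := by
  have hnt : Nontrivial V := LieModule.nontrivial_of_isIrreducible ℂ 𝔥 V
  let I : LieIdeal ℂ 𝔥 := InvariantForm.orthogonal (LieModule.traceForm ℂ 𝔥 V)
    (LieModule.traceForm_lieInvariant ℂ 𝔥 V) ⊤
  have hI : ∀ Y, Y ∈ I ↔ ∀ X : 𝔥, LieModule.traceForm ℂ 𝔥 V X Y = 0 := by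
    intro Y
    rw [InvariantForm.mem_orthogonal]
    exact ⟨fun h1 X => h1 X trivial, fun h1 X _ => h1 X⟩
  have hNI : N ∈ I := by
    rw [hI]
    intro X
    rw [LieModule.traceForm_comm]
    exact h X
  have htf : LieModule.traceForm ℂ I V = 0 := by
    ext X Y
    have h1 := (hI Y).1 Y.2 X
    exact h1
  have hnil := LieModule.isNilpotent_derivedSeries_of_traceForm_eq_zero (R := ℂ) (L := I)
    (M := V) htf
  have hsol : IsSolvable I := by
    have hD : LieRing.IsNilpotent (derivedSeries ℂ I 1) := by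
      rw [LieAlgebra.isNilpotent_iff_forall (R := ℂ)]
      intro x
      have h1 : IsNilpotent (((x : I) : 𝔥) : Module.End ℂ V) :=
        (LieModule.isNilpotent_iff_forall' (R := ℂ)).mp hnil x
      have h2 := LieAlgebra.isNilpotent_ad_of_isNilpotent (R := ℂ) (L := 𝔥) (x := ((x : I) : 𝔥)) h1
      have h3 := LieSubalgebra.isNilpotent_ad_of_isNilpotent_ad (I : LieSubalgebra ℂ 𝔥)
        (x := (x : I)) h2
      exact LieSubalgebra.isNilpotent_ad_of_isNilpotent_ad
        (derivedSeries ℂ I 1 : LieSubalgebra ℂ I) (x := x) h3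
    obtain ⟨k, hk⟩ := IsSolvable.solvable ℂ (derivedSeries ℂ I 1)
    rw [LieIdeal.derivedSeries_eq_bot_iff, derivedSeries_def, ← derivedSeriesOfIdeal_add] at hk
    exact IsSolvable.mk hk
  have hc := LieAlgebra.hasCentralRadical_and_of_isIrreducible_of_isFaithful ℂ 𝔥 V
  have h1 : N ∈ center ℂ 𝔥 := by
    have h2 := (LieIdeal.solvable_iff_le_radical ℂ 𝔥 I).1 hsol hNI
    rwa [(hasCentralRadical_iff ℂ 𝔥).mp hc.1] at h2
  rw [hc.2] at h1
  obtain ⟨c, hcN⟩ := Submodule.mem_span_singleton.mp h1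
  have h3 : (N : Module.End ℂ V) = c • LinearMap.id := hcN.symm
  obtain ⟨k, hk⟩ := hN
  obtain ⟨v, hv⟩ := exists_ne (0 : V)
  have h4 : ∀ n : ℕ, ((N : Module.End ℂ V) ^ n) v = c ^ n • v := by
    intro n
    induction n with
    | zero => rw [pow_zero, pow_zero, one_smul]; rfl
    | succ n ih =>
      rw [pow_succ', Module.End.mul_apply, ih, map_smul, h3, LinearMap.smul_apply,
        LinearMap.id_apply, smul_smul, pow_succ]
  have h5 := h4 k
  rw [hk, LinearMap.zero_apply] at h5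
  have h6 : c ^ k = 0 := (smul_eq_zero.1 h5.symm).resolve_right hv
  rw [h3, eq_zero_of_pow_eq_zero h6, zero_smul]

/-- Operators of rank one. -/
theorem exists_uφ {N : Module.End ℂ V} (hr : rk N = 1) :
    ∃ (u : V) (φ : V →ₗ[ℂ] ℂ), u ≠ 0 ∧ N = φ.smulRight u := by
  obtain ⟨e⟩ : Nonempty (LinearMap.range N ≃ₗ[ℂ] ℂ) := by
    refine ⟨LinearEquiv.ofFinrankEq _ _ ?_⟩
    rw [finrank_self]
    exact hr
  refine ⟨(e.symm 1 : LinearMap.range N), e.toLinearMap.comp N.rangeRestrict, ?_, ?_⟩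
  · intro h0
    have h1 : e.symm 1 = 0 := Subtype.ext h0
    rw [LinearEquiv.map_eq_zero_iff] at h1
    exact one_ne_zero h1
  · refine LinearMap.ext fun v => ?_
    rw [LinearMap.smulRight_apply, LinearMap.comp_apply, ← Submodule.coe_smul, ← map_smul,
      smul_eq_mul, mul_one]
    change N v = ((e.symm (e (N.rangeRestrict v)) : LinearMap.range N) : V)
    rw [LinearEquiv.symm_apply_apply]
    rfl

theorem rk_smulRight {φ : V →ₗ[ℂ] ℂ} {u : V} (hφ : φ ≠ 0) (hu : u ≠ 0) :
    rk (φ.smulRight u : Module.End ℂ V) = 1 := by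
  unfold rk
  have h1 : LinearMap.range (φ.smulRight u) = Submodule.span ℂ {u} := by
    obtain ⟨v, hv⟩ : ∃ v, φ v ≠ 0 := by
      by_contra hcon
      push Not at hcon
      exact hφ (LinearMap.ext hcon)
    ext x
    rw [Submodule.mem_span_singleton]
    constructor
    · rintro ⟨w, rfl⟩
      exact ⟨φ w, rfl⟩
    · rintro ⟨a, rfl⟩
      refine ⟨(a * (φ v)⁻¹) • v, ?_⟩
      rw [LinearMap.smulRight_apply, map_smul, smul_eq_mul, inv_mul_cancel_right₀ hv]
  rw [h1, finrank_span_singleton hu]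

/-- Irreducible Lie algebras which are normalised by a pseudo-reflection. -/
theorem rk1_of_refl {𝔤 : Submodule ℂ (Module.End ℂ V)}
    (hbr : ∀ X ∈ 𝔤, ∀ Y ∈ 𝔤, X * Y - Y * X ∈ 𝔤)
    (hirr : ∀ W : Submodule ℂ V, (∀ X ∈ 𝔤, ∀ u ∈ W, X u ∈ W) → W = ⊥ ∨ W = ⊤)
    (hV : 2 ≤ finrank ℂ V) {γ γ' : Module.End ℂ V} (h2 : γ' * γ = 1)
    (hn : ∀ X ∈ 𝔤, γ * X * γ' ∈ 𝔤) (hn' : ∀ X ∈ 𝔤, γ' * X * γ ∈ 𝔤)
    (hr : rk (γ - 1) = 1) (h3 : γ * γ ≠ 1) : ∃ x ∈ 𝔤, rk x = 1 := by
  obtain ⟨u, φ, hu, hN⟩ := exists_uφ hr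
  set N : Module.End ℂ V := φ.smulRight u with hNdef
  have hNv : ∀ v, N v = φ v • u := fun v => rfl
  have hγ : γ = 1 + N := by rw [← hN, add_sub_cancel]
  have hφ : φ ≠ 0 := by
    rintro rfl
    have h4 : N = 0 := LinearMap.ext fun v => by rw [hNv, LinearMap.zero_apply, zero_smul]; rfl
    apply h3
    rw [hγ, h4, add_zero, mul_one]
  set c : ℂ := φ u with hc
  have hNXN : ∀ X : Module.End ℂ V, N * X * N = φ (X u) • N := by
    intro X
    refine LinearMap.ext fun v => ?_
    rw [Module.End.mul_apply, Module.End.mul_apply, hNv v, map_smul, map_smul, hNv, smul_smul,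
      LinearMap.smul_apply, hNv, smul_smul, mul_comm]
  have hNN : N * N = c • N := by
    have h4 := hNXN 1
    rwa [mul_one] at h4
  have hζ : 1 + c ≠ 0 := by
    intro h4
    apply hu
    have h5 : γ u = 0 := by
      rw [hγ, LinearMap.add_apply, hNv, Module.End.one_apply]
      nth_rewrite 1 [← one_smul ℂ u]
      rw [← add_smul, h4, zero_smul]
    rw [← Module.End.one_apply (R := ℂ) u, ← h2, Module.End.mul_apply, h5, map_zero]
  have h2c : 2 + c ≠ 0 := by
    intro h4
    apply h3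
    have h5 : γ * γ = 1 + (2 + c) • N := by
      rw [hγ]
      have h6 : (1 + N) * (1 + N) = 1 + (2 : ℂ) • N + N * N := by
        rw [two_smul]
        noncomm_ring
      rw [h6, hNN]
      module
    rw [h5, h4, zero_smul, add_zero]
  have hγ' : γ' = 1 - (1 + c)⁻¹ • N := by
    have h4 : γ * (1 - (1 + c)⁻¹ • N) = 1 := by
      rw [hγ]
      have h5 : (1 + N) * (1 - (1 + c)⁻¹ • N) = 1 + N - (1 + c)⁻¹ • N - (1 + c)⁻¹ • (N * N) := by
        rw [mul_sub, mul_one, mul_smul_comm, add_mul, one_mul, smul_add]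
        abel
      rw [h5, hNN]
      have h6 : N - (1 + c)⁻¹ • N - (1 + c)⁻¹ • (c • N) = (1 - (1 + c)⁻¹ * (1 + c)) • N := by
        module
      have h7 : 1 + N - (1 + c)⁻¹ • N - (1 + c)⁻¹ • (c • N) =
          1 + (N - (1 + c)⁻¹ • N - (1 + c)⁻¹ • (c • N)) := by abel
      rw [h7, h6, inv_mul_cancel₀ hζ, sub_self, zero_smul, add_zero]
    calc γ' = γ' * (γ * (1 - (1 + c)⁻¹ • N)) := by rw [h4, mul_one]
      _ = _ := by rw [← mul_assoc, h2, one_mul]
  have hA : ∀ X : Module.End ℂ V, γ * X * γ' = X + N * X - (1 + c)⁻¹ • (X * N) -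
      ((1 + c)⁻¹ * φ (X u)) • N := by
    intro X
    rw [hγ', hγ]
    have h4 : (1 + N) * X * (1 - (1 + c)⁻¹ • N) = X + N * X - (1 + c)⁻¹ • (X * N) -
        (1 + c)⁻¹ • (N * X * N) := by
      rw [mul_sub, mul_one, mul_smul_comm, add_mul, one_mul, add_mul, smul_add]
      abel
    rw [h4, hNXN, smul_smul]
  have hA' : ∀ X : Module.End ℂ V, γ' * X * γ = X - (1 + c)⁻¹ • (N * X) + X * N -
      ((1 + c)⁻¹ * φ (X u)) • N := by
    intro X
    rw [hγ', hγ]
    have h4 : (1 - (1 + c)⁻¹ • N) * X * (1 + N) = X - (1 + c)⁻¹ • (N * X) + X * N -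
        (1 + c)⁻¹ • (N * X * N) := by
      rw [mul_add, mul_one, sub_mul, one_mul, sub_mul, smul_mul_assoc, smul_mul_assoc]
      abel
    rw [h4, hNXN, smul_smul]
  have hY : ∀ X ∈ 𝔤, c • (X * N) - φ (X u) • N ∈ 𝔤 := by
    intro X hX
    have e1 := 𝔤.sub_mem (hn X hX) hX
    have e2 := 𝔤.smul_mem (1 + c) (𝔤.sub_mem (hn' X hX) hX)
    have e3 := 𝔤.smul_mem ((1 + c) * (2 + c)⁻¹) (𝔤.add_mem e1 e2)
    have e4 : ((1 + c) * (2 + c)⁻¹) • ((γ * X * γ' - X) + (1 + c) • (γ' * X * γ - X)) =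
        c • (X * N) - φ (X u) • N := by
      rw [hA, hA']
      match_scalars <;> field_simp <;> ring
    rwa [e4] at e3
  by_cases hc0 : c = 0
  · -- a transvection
    by_cases hX : ∃ X ∈ 𝔤, φ (X u) ≠ 0
    · obtain ⟨X, hX, hX0⟩ := hX
      have h4 := hY X hX
      rw [hc0, zero_smul, zero_sub] at h4
      have h5 := 𝔤.smul_mem (-(φ (X u))⁻¹) h4
      rw [neg_smul, smul_neg, neg_neg, smul_smul, inv_mul_cancel₀ hX0, one_smul] at h5
      exact ⟨N, h5, rk_smulRight hφ hu⟩
    · exfalso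
      push Not at hX
      have hNX : ∀ X ∈ 𝔤, N * X - X * N ∈ 𝔤 := by
        intro X hX'
        have e1 := 𝔤.smul_mem (1 / 2 : ℂ) (𝔤.sub_mem (hn X hX') (hn' X hX'))
        have e2 : (1 / 2 : ℂ) • (γ * X * γ' - γ' * X * γ) = N * X - X * N := by
          rw [hA, hA', hc0, add_zero, inv_one]
          match_scalars <;> norm_num
        rwa [e2] at e1
      let 𝔥 : LieSubalgebra ℂ (Module.End ℂ V) :=
        { carrier := {Y | ∃ X ∈ 𝔤, ∃ t : ℂ, Y = X + t • N}
          add_mem' := by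
            rintro _ _ ⟨X, hX, t, rfl⟩ ⟨Y, hY, s, rfl⟩
            exact ⟨X + Y, 𝔤.add_mem hX hY, t + s, by module⟩
          zero_mem' := ⟨0, 𝔤.zero_mem, 0, by module⟩
          smul_mem' := by
            rintro a _ ⟨X, hX, t, rfl⟩
            exact ⟨a • X, 𝔤.smul_mem a hX, a * t, by module⟩
          lie_mem' := by
            rintro _ _ ⟨X, hX, t, rfl⟩ ⟨Y, hY, s, rfl⟩
            refine ⟨(X * Y - Y * X) + (t • (N * Y - Y * N) - s • (N * X - X * N)),
              𝔤.add_mem (hbr X hX Y hY) (𝔤.sub_mem (𝔤.smul_mem t (hNX Y hY))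
                (𝔤.smul_mem s (hNX X hX))), 0, ?_⟩
            rw [LieRing.of_associative_ring_bracket]
            simp only [mul_add, add_mul, smul_mul_assoc, mul_smul_comm]
            module }
      have hmem : ∀ X ∈ 𝔤, X ∈ 𝔥 := fun X hX => ⟨X, hX, 0, by rw [zero_smul, add_zero]⟩
      have hNm : N ∈ 𝔥 := ⟨0, 𝔤.zero_mem, 1, by rw [one_smul, zero_add]⟩
      have hntV : Nontrivial V := Module.nontrivial_of_finrank_pos (R := ℂ) (by omega)
      have : LieModule.IsIrreducible ℂ 𝔥 V := by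
        refine LieModule.IsIrreducible.mk (fun W hW => ?_)
        rcases hirr (W : Submodule ℂ V) (fun X hX w hw =>
          W.lie_mem (x := (⟨X, hmem X hX⟩ : 𝔥)) hw) with h4 | h4
        · exact absurd ((LieSubmodule.toSubmodule_eq_bot W).1 h4) hW
        · exact (LieSubmodule.toSubmodule_eq_top W).1 h4
      have h4 := trace_nd 𝔥 ⟨N, hNm⟩ ⟨2, by
        change N ^ 2 = 0
        rw [pow_two, hNN, hc0, zero_smul]⟩ (by
        rintro ⟨_, X, hX', t, rfl⟩
        change LinearMap.trace ℂ V (N * (X + t • N)) = 0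
        rw [mul_add, mul_smul_comm, hNN, hc0, zero_smul, smul_zero, add_zero]
        have h5 : N * X = (φ.comp X).smulRight u := rfl
        rw [h5, LinearMap.trace_smulRight]
        exact hX X hX')
      change N = 0 at h4
      apply hφ
      refine LinearMap.ext fun v => ?_
      have h5 := LinearMap.congr_fun h4 v
      rw [hNv, LinearMap.zero_apply] at h5
      exact (smul_eq_zero.1 h5).resolve_right hu
  · -- a reflection
    obtain ⟨X, hX, hXu⟩ : ∃ X ∈ 𝔤, ¬∃ a : ℂ, X u = a • u := by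
      by_contra hcon
      push Not at hcon
      rcases hirr (Submodule.span ℂ {u}) (by
        intro X hX w hw
        obtain ⟨a, rfl⟩ := Submodule.mem_span_singleton.1 hw
        obtain ⟨b, hb⟩ := hcon X hX
        rw [map_smul, hb]
        exact Submodule.smul_mem _ _ (Submodule.smul_mem _ _ (Submodule.mem_span_singleton_self u)))
        with h4 | h4
      · rw [Submodule.span_singleton_eq_bot] at h4
        exact hu h4
      · have h5 := finrank_span_singleton (K := ℂ) hu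
        rw [h4, finrank_top] at h5
        omega
    refine ⟨_, hY X hX, ?_⟩
    have h4 : c • (X * N) - φ (X u) • N = φ.smulRight (c • X u - φ (X u) • u) := by
      refine LinearMap.ext fun v => ?_
      rw [LinearMap.sub_apply, LinearMap.smul_apply, LinearMap.smul_apply, Module.End.mul_apply,
        hNv, map_smul, LinearMap.smulRight_apply]
      module
    rw [h4]
    refine rk_smulRight hφ fun h5 => hXu ⟨c⁻¹ * φ (X u), ?_⟩
    rw [mul_smul, ← sub_eq_zero.1 h5, smul_smul, inv_mul_cancel₀ hc0, one_smul]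

end form

end

end Pool.Agent.N183.U5
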