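import Mathlib
import Pool.Agent.N183.U5.Nrm
import Pool.Agent.N183.U5.Mf

/-!
# Elements of rank one on the eigenspaces of a maximal subfield
-/

set_option linter.unusedSectionVars false

namespace Pool.Agent.N183.U5

open Matrix Module Pool.Agent.W437.HC Pool.Agent.W437.HD Pool.Agent.W548.Odd Pool.Agent.W522.U
open Pool.Agent.H204R3.SP Pool.Agent.H204R3.GP Pool.Agent.Y90 Pool.Agent.Y224.TS
open Pool.Agent.W437.HP (cK cK_mul cK_one)
open Pool.Agent.R915 (VE mem_VE VE_cj VE_main VE_stab exists_spec descent_gen aeval_eig commL_of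
  pd_sig eig_conj root_conj)
open Pool.Agent.N183.TS
open Polynomial

noncomputable section

variable {G : ℕ} {Z : Matrix (Fin G) (Fin G) ℂ}
  {S : Set (Matrix (Fin G ⊕ Fin G) (Fin G ⊕ Fin G) ℂ)}

/-- Transport of elements of rank one along an isomorphism. -/
theorem Rk1T.of_map (h : TD Z S) (hZ : PM Z) {U : Submodule ℂ (Fin G ⊕ Fin G → ℂ)}
    (hU : IrS (LZ Z) U) {T : (Fin G ⊕ Fin G → ℂ) →ₗ[ℂ] (Fin G ⊕ Fin G → ℂ)}
    (hT : ∀ X ∈ LZ Z, ∀ u ∈ U, T (X *ᵥ u) = X *ᵥ T u) (hi : ∀ u ∈ U, T u = 0 → u = 0)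
    (hr : Rk1T S (U.map T)) : Rk1T S U := by
  obtain ⟨D, hD, ε, hε, N, hN, h1, h2, h3⟩ := hr
  refine ⟨D, hD, ε, hε, N, hN, h1, h2, ?_⟩
  have hT' := (h.eqv_on hZ hU.2.1 T).2 hT
  have hU' := (h.stab hZ).2 hU.2.1
  have h4 : (U.map T).map (mulVecLin N) = (U.map (mulVecLin N)).map T := by
    rw [← Submodule.map_comp, ← Submodule.map_comp]
    ext x
    constructor
    · rintro ⟨u, hu, rfl⟩
      exact ⟨u, hu, hT' N hN u hu⟩
    · rintro ⟨u, hu, rfl⟩
      exact ⟨u, hu, (hT' N hN u hu).symm⟩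
  rw [h4] at h3
  rw [← h3]
  symm
  apply finrank_map_of_inj
  rintro _ ⟨u, hu, rfl⟩ h5
  exact hi _ (hU' N hN u hu) h5

theorem comm_of_zero {V : Type} [AddCommGroup V] [Module ℂ V] {d x : End ℂ V} (hd : d * d = 1)
    (h5 : (1 + d) * x * (1 - d) = 0) (h6 : (1 - d) * x * (1 + d) = 0) : d * x = x * d := by
  have e1 : (1 + d) * x * (1 - d) + (1 - d) * x * (1 + d) = (2 : ℂ) • (x - d * x * d) := by
    rw [two_smul]
    noncomm_ring
  rw [h5, h6, add_zero] at e1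
  have e2 := (smul_eq_zero.1 e1.symm).resolve_left two_ne_zero
  have e3 := sub_eq_zero.1 e2
  calc d * x = d * (d * x * d) := by rw [← e3]
    _ = (d * d) * x * d := by noncomm_ring
    _ = x * d := by rw [hd, one_mul]

/-- The centraliser. -/
def cen {V : Type} [AddCommGroup V] [Module ℂ V] (x : End ℂ V) : Submodule ℂ (End ℂ V) where
  carrier := {A | A * x = x * A}
  add_mem' := fun {A B} hA hB => by
    change (A + B) * x = x * (A + B)
    rw [add_mul, mul_add, show A * x = x * A from hA, show B * x = x * B from hB]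
  zero_mem' := by
    change 0 * x = x * 0
    rw [zero_mul, mul_zero]
  smul_mem' := fun c A hA => by
    change (c • A) * x = x * (c • A)
    rw [smul_mul_assoc, mul_smul_comm, show A * x = x * A from hA]

theorem mem_cen {V : Type} [AddCommGroup V] [Module ℂ V] {x A : End ℂ V} :
    A ∈ cen x ↔ A * x = x * A := Iff.rfl

theorem cen_br {V : Type} [AddCommGroup V] [Module ℂ V] {x A C : End ℂ V} (hA : A ∈ cen x)
    (hC : C ∈ cen x) : A * C - C * A ∈ cen x := by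
  rw [mem_cen] at *
  rw [sub_mul, mul_sub, mul_assoc, hC, ← mul_assoc, hA, mul_assoc C A, hA, ← mul_assoc C,
    hC, mul_assoc, mul_assoc]

/-- An element of rank one of the restriction gives an element of degree one and of rank one. -/
theorem rk1T_of_rk (h : TD Z S) (hZ : PM Z) {U : Submodule ℂ (Fin G ⊕ Fin G → ℂ)}
    (hU : IrS (LZ Z) U) (hn : 2 ≤ finrank ℂ U) {x : End ℂ U} (hx : x ∈ resL (Y224.TS.LT S) U)
    (h1 : rk x = 1) : Rk1T S U := by
  have hU' : IrS (Y224.TS.LT S) U := (h.irS hZ).2 hU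
  have hst : ∀ D (hD : D ∈ S), ∀ u ∈ U, D *ᵥ u ∈ U := fun D hD u hu =>
    hU'.2.1 D (LT_gen hD) u hu
  by_cases hc : ∀ D (hD : D ∈ S), resM D U (hst D hD) * x = x * resM D U (hst D hD)
  · exfalso
    -- `x` is a scalar
    have hW : LinearMap.range x = ⊥ ∨ LinearMap.range x = ⊤ := by
      refine res_irr h.sq hU' (LinearMap.range x) ?_
      rintro X ⟨Y, hY, hXY⟩ - _ ⟨u, rfl⟩
      have h2 : X * x = x * X := by
        have hL : resL (Y224.TS.LT S) U ≤ cen x :=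
          res_ind hU'.2.1 _ (fun D hD => hc D hD) (fun A hA C hC => cen_br hA hC)
        exact mem_cen.1 (hL ⟨Y, hY, hXY⟩)
      refine ⟨X u, ?_⟩
      rw [← Module.End.mul_apply, ← Module.End.mul_apply, h2]
    unfold rk at h1
    rcases hW with hW | hW
    · rw [hW, finrank_bot] at h1
      omega
    · rw [hW, finrank_top] at h1
      omega
  · push Not at hc
    obtain ⟨D, hD, hDx⟩ := hc
    have hdd := res_sq (h.sq D hD) (hst D hD)
    set d := resM D U (hst D hD) with hd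
    by_cases h5 : (1 + d) * x * (1 - d) = 0
    · refine ⟨D, hD, -1, Or.inr rfl, rk_of_up h.sq hD (hst D hD) (Or.inr rfl) hx h1 ?_⟩
      exact neg_eq fun h6 => hDx (comm_of_zero hdd h5 h6)
    · exact ⟨D, hD, 1, Or.inl rfl, rk_of_up h.sq hD (hst D hD) (Or.inl rfl) hx h1 (by
        rw [one_smul]
        exact h5)⟩

/-- Elements of rank one in the presence of a pseudo-reflection. -/
theorem rk1T_refl (h : TD Z S) (hZ : PM Z) {U : Submodule ℂ (Fin G ⊕ Fin G → ℂ)}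
    (hU : IrS (LZ Z) U) (hn : 2 ≤ finrank ℂ U)
    {t t' : Matrix (Fin G ⊕ Fin G) (Fin G ⊕ Fin G) ℂ} (h2 : t' * t = 1)
    (hN : ∀ X ∈ Y224.TS.LT S, t * X * t' ∈ Y224.TS.LT S)
    (hN' : ∀ X ∈ Y224.TS.LT S, t' * X * t ∈ Y224.TS.LT S)
    (htU : ∀ u ∈ U, t *ᵥ u ∈ U) (htU' : ∀ u ∈ U, t' *ᵥ u ∈ U)
    (hr : finrank ℂ (U.map (mulVecLin (t - 1))) = 1) (h3 : ∃ u ∈ U, t *ᵥ (t *ᵥ u) ≠ u) :
    Rk1T S U := by
  have hU' : IrS (Y224.TS.LT S) U := (h.irS hZ).2 hU
  suffices key : ∃ x ∈ resL (Y224.TS.LT S) U, rk x = 1 by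
    obtain ⟨x, hx, hx1⟩ := key
    exact rk1T_of_rk h hZ hU hn hx hx1
  refine rk1_of_refl (𝔤 := resL (Y224.TS.LT S) U)
    (resL_br (fun X hX Y hY => LT_br hX hY) U)
    (fun W hW => res_irr h.sq hU' W fun X hX _ => hW X hX) hn
    (γ := resM t U htU) (γ' := resM t' U htU') (by
      refine LinearMap.ext fun u => Subtype.ext ?_
      rw [Module.End.mul_apply, resM_coe, resM_coe, mulVec_mulVec, h2, one_mulVec]
      rfl) ?_ ?_ ?_ ?_
  · rintro Y ⟨X, hX, hXY⟩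
    refine ⟨_, hN X hX, fun u => ?_⟩
    rw [Module.End.mul_apply, Module.End.mul_apply, resM_coe, hXY, resM_coe, mulVec_mulVec,
      mulVec_mulVec]
  · rintro Y ⟨X, hX, hXY⟩
    refine ⟨_, hN' X hX, fun u => ?_⟩
    rw [Module.End.mul_apply, Module.End.mul_apply, resM_coe, hXY, resM_coe, mulVec_mulVec,
      mulVec_mulVec]
  · rw [← hr]
    symm
    refine finrank_map_res fun u => ?_
    rw [LinearMap.sub_apply, Submodule.coe_sub, resM_coe, sub_mulVec, one_mulVec,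
      Module.End.one_apply]
  · intro h4
    obtain ⟨u, hu, hu'⟩ := h3
    apply hu'
    exact congrArg Subtype.val (LinearMap.congr_fun h4 ⟨u, hu⟩)

/-- Elements of rank one if the multiplicities of one embedding are coprime. -/
theorem rk1T_cop (h : TD Z S) (hZ : PM Z) (hs : IsSimpleAV Z) (hg : 0 < G)
    {M : Matrix (Fin G ⊕ Fin G) (Fin G ⊕ Fin G) ℚ} (k : MF Z M)
    {s0 : ℂ} (hp : 0 < pd Z (VE M s0)) (hq : 0 < qd Z (VE M s0))
    (hc : Nat.Coprime (pd Z (VE M s0)) (qd Z (VE M s0)))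
    {U : Submodule ℂ (Fin G ⊕ Fin G → ℂ)} (hU : IrS (LZ Z) U) : Rk1T S U := by
  obtain ⟨s, T, hs0, hne, hT, hi, hTU⟩ := k.proj hZ hs hg hU
  refine Rk1T.of_map h hZ hU hT hi ?_
  rw [hTU]
  have hne0 : VE M s0 ≠ ⊥ := by
    intro h1
    have h2 : pd Z (VE M s0) ≤ finrank ℂ (VE M s0) := Submodule.finrank_mono inf_le_left
    rw [h1, finrank_bot] at h2
    rw [h1] at hp
    omega
  obtain ⟨v, hv, hv0⟩ := Submodule.exists_mem_ne_zero_of_ne_bot hne
  obtain ⟨w, hw, hw0⟩ := Submodule.exists_mem_ne_zero_of_ne_bot hne0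
  obtain ⟨σ, hσ⟩ := eig_conj hZ hs k.comm hw0 (mem_VE.1 hw) hv0 (mem_VE.1 hv)
  have e1 : cjS σ.symm (VE M s) = VE M s0 := by
    rw [VE_cj, ← hσ]
    congr 1
    exact σ.symm_apply_apply _
  obtain ⟨D, hD, hDσ⟩ := h.ex σ
  exact (rk1_pair h hZ hD (k.irr hZ hs hne) hDσ (by rwa [e1]) (by rwa [e1])
    (Or.inl (by rwa [e1]))).rk1T hD

end

end Pool.Agent.N183.U5
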