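import Mathlib
import Pool.Agent.N183.U5.Loc

/-!
# Irreducible Lie algebras which are normalised by an operator with two slopes
-/

set_option linter.unusedSectionVars false

namespace Pool.Agent.N183.U5

open Module Polynomial
open Pool.Agent.W548.Odd (rk)

noncomputable section

variable {V : Type} [AddCommGroup V] [Module ℂ V] [FiniteDimensional ℂ V]

/-- Irreducible Lie algebras which are normalised by an involution with coprime multiplicities. -/
theorem rk1_of_invol {𝔤 : Submodule ℂ (End ℂ V)} (hbr : ∀ X ∈ 𝔤, ∀ Y ∈ 𝔤, X * Y - Y * X ∈ 𝔤)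
    (hirr : ∀ W : Submodule ℂ V, (∀ X ∈ 𝔤, X * X = (1 / 4 : ℂ) • 1 → ∀ u ∈ W, X u ∈ W) →
      W = ⊥ ∨ W = ⊤)
    (hgen : ∀ L : Submodule ℂ (End ℂ V), (∀ X ∈ 𝔤, X * X = 1 → X ∈ L) →
      (∀ X ∈ L, ∀ Y ∈ L, X * Y - Y * X ∈ L) → 𝔤 ≤ L)
    {D : End ℂ V} (hD2 : D * D = 1) (hD : ∀ X ∈ 𝔤, D * X - X * D ∈ 𝔤) {a b : ℕ}
    (htr : LinearMap.trace ℂ V D = (a : ℂ) - b) (hn : finrank ℂ V = a + b) (ha : 0 < a)
    (hb : 0 < b) (hc : Nat.Coprime a b) : ∃ x ∈ 𝔤, rk x = 1 := by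
  let 𝔥 : Submodule ℂ (End ℂ V) :=
    { carrier := {Y | ∃ X ∈ 𝔤, ∃ t : ℂ, Y = X + t • D}
      add_mem' := by
        rintro _ _ ⟨X, hX, t, rfl⟩ ⟨Y, hY, s, rfl⟩
        exact ⟨X + Y, 𝔤.add_mem hX hY, t + s, by module⟩
      zero_mem' := ⟨0, 𝔤.zero_mem, 0, by module⟩
      smul_mem' := by
        rintro a _ ⟨X, hX, t, rfl⟩
        exact ⟨a • X, 𝔤.smul_mem a hX, a * t, by module⟩ }
  have hle : 𝔤 ≤ 𝔥 := fun X hX => ⟨X, hX, 0, by rw [zero_smul, add_zero]⟩
  have hDm : D ∈ 𝔥 := ⟨0, 𝔤.zero_mem, 1, by rw [one_smul, zero_add]⟩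
  have hbr' : ∀ X ∈ 𝔥, ∀ Y ∈ 𝔥, X * Y - Y * X ∈ 𝔥 := by
    rintro _ ⟨X, hX, t, rfl⟩ _ ⟨Y, hY, s, rfl⟩
    refine ⟨(X * Y - Y * X) + (t • (D * Y - Y * D) - s • (D * X - X * D)),
      𝔤.add_mem (hbr X hX Y hY) (𝔤.sub_mem (𝔤.smul_mem t (hD Y hY))
        (𝔤.smul_mem s (hD X hX))), 0, ?_⟩
    simp only [mul_add, add_mul, smul_mul_assoc, mul_smul_comm]
    module
  obtain ⟨x, ⟨y, hy, c, rfl⟩, h1, h2, h3⟩ := JP.exists_rk1 (𝔤 := 𝔥) hbr'
    (fun W hW => hirr W fun X hX => hW X (hle hX))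
    (fun L hL1 hL2 => by
      have h4 := hgen L (fun X hX => hL1 X (hle hX)) hL2
      rintro _ ⟨X, hX, t, rfl⟩
      exact L.add_mem (h4 hX) (L.smul_mem t (hL1 D hDm hD2)))
    hDm hD2 htr hn ha hb (Or.inl hc)
  refine ⟨y + c • D, ?_, h3⟩
  have h4 : y + c • D = (1 / 2 : ℂ) • (D * y - y * D) := by
    have h5 : D * (y + c • D) - (y + c • D) * D = D * y - y * D := by
      simp only [mul_add, add_mul, smul_mul_assoc, mul_smul_comm]
      module
    rw [← h5, h1, h2]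
    module
  rw [h4]
  exact 𝔤.smul_mem _ (hD y hy)

/-- The adjoint action. -/
def Adj (γ γ' : End ℂ V) : End ℂ (End ℂ V) where
  toFun X := γ * X * γ'
  map_add' X Y := by rw [mul_add, add_mul]
  map_smul' c X := by rw [mul_smul_comm, smul_mul_assoc, RingHom.id_apply]

theorem Adj_apply (γ γ' X : End ℂ V) : Adj γ γ' X = γ * X * γ' := rfl

theorem Adj_pow_mem {𝔤 : Submodule ℂ (End ℂ V)} {γ γ' : End ℂ V}
    (hn : ∀ X ∈ 𝔤, γ * X * γ' ∈ 𝔤) (n : ℕ) {X : End ℂ V} (hX : X ∈ 𝔤) :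
    (Adj γ γ' ^ n) X ∈ 𝔤 := by
  induction n with
  | zero => rwa [pow_zero, Module.End.one_apply]
  | succ n ih =>
    rw [pow_succ', Module.End.mul_apply]
    exact hn _ ih

theorem Adj_aeval_mem {𝔤 : Submodule ℂ (End ℂ V)} {γ γ' : End ℂ V}
    (hn : ∀ X ∈ 𝔤, γ * X * γ' ∈ 𝔤) (P : ℂ[X]) {X : End ℂ V} (hX : X ∈ 𝔤) :
    aeval (Adj γ γ') P X ∈ 𝔤 := by
  rw [aeval_eq_sum_range, LinearMap.sum_apply]
  refine 𝔤.sum_mem fun i _ => ?_
  rw [LinearMap.smul_apply]
  exact 𝔤.smul_mem _ (Adj_pow_mem hn i hX)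

/-- Irreducible Lie algebras which are normalised by an operator with two classes of eigenvalues. -/
theorem rk1_of_slopes {𝔤 : Submodule ℂ (End ℂ V)} (hbr : ∀ X ∈ 𝔤, ∀ Y ∈ 𝔤, X * Y - Y * X ∈ 𝔤)
    (hirr : ∀ W : Submodule ℂ V, (∀ X ∈ 𝔤, X * X = (1 / 4 : ℂ) • 1 → ∀ u ∈ W, X u ∈ W) →
      W = ⊥ ∨ W = ⊤)
    (hgen : ∀ L : Submodule ℂ (End ℂ V), (∀ X ∈ 𝔤, X * X = 1 → X ∈ L) →
      (∀ X ∈ L, ∀ Y ∈ L, X * Y - Y * X ∈ L) → 𝔤 ≤ L)
    {γ γ' : End ℂ V} (h2 : γ' * γ = 1) (hn : ∀ X ∈ 𝔤, γ * X * γ' ∈ 𝔤) {n : ℕ}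
    (w : Basis (Fin n) ℂ V) (α : Fin n → ℂˣ) {A : Type} [CommGroup A] (v : ℂˣ →* A) {c c' : A}
    (hw : ∀ i, γ (w i) = (α i : ℂ) • w i)
    (hcc : (c / c') ^ 2 ≠ 1) (hα : ∀ i, v (α i) = c ∨ v (α i) = c') (h3 : ∃ i, v (α i) = c)
    (h4 : ∃ i, v (α i) = c') (hcop : Nat.Coprime (Nat.card {i // v (α i) = c}) n) :
    ∃ x ∈ 𝔤, rk x = 1 := by
  classical
  have hδ1 : c / c' ≠ 1 := by
    intro h5
    apply hcc
    rw [h5, one_pow]
  have hδ2 : c' / c ≠ 1 := by
    intro h5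
    apply hδ1
    rw [← inv_div, h5, inv_one]
  have hδ3 : c' / c ≠ c / c' := by
    intro h5
    apply hcc
    rw [sq]
    nth_rewrite 1 [← h5]
    rw [div_mul_div_comm, mul_comm c' c, div_self']
  have hne : c' ≠ c := by
    intro h5
    apply hδ1
    rw [h5, div_self']
  have hγ' : ∀ i, γ' (w i) = ((α i)⁻¹ : ℂˣ) • w i := by
    intro i
    have h5 : γ' (γ (w i)) = w i := by
      rw [← Module.End.mul_apply, h2, Module.End.one_apply]
    rw [hw, map_smul] at h5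
    have h6 : ((α i)⁻¹ : ℂˣ) • ((α i : ℂ) • γ' (w i)) = γ' (w i) := by
      rw [Units.smul_def, smul_smul, Units.inv_mul, one_smul]
    rw [h5] at h6
    exact h6.symm
  -- the involution
  let ε : Fin n → ℂ := fun i => if v (α i) = c then 1 else -1
  have hε2 : ∀ i, ε i * ε i = 1 := by
    intro i
    simp only [ε]
    split_ifs <;> norm_num
  let D : End ℂ V := w.constr ℂ fun i => ε i • w i
  have hDw : ∀ i, D (w i) = ε i • w i := fun i => w.constr_basis ℂ _ i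
  have hD2 : D * D = 1 := by
    refine w.ext fun i => ?_
    rw [Module.End.mul_apply, hDw, map_smul, hDw, smul_smul, hε2, one_smul, Module.End.one_apply]
  -- coordinates
  have hco : ∀ (T : End ℂ V) (τ : Fin n → ℂ), (∀ i, T (w i) = τ i • w i) → ∀ y i,
      w.repr (T y) i = τ i * w.repr y i := by
    intro T τ hT y i
    have h5 : (w.coord i).comp T = τ i • w.coord i := by
      refine w.ext fun j => ?_
      rw [LinearMap.comp_apply, hT, LinearMap.smul_apply, map_smul, Basis.coord_apply,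
        w.repr_self, smul_eq_mul, smul_eq_mul, Finsupp.single_apply]
      split_ifs with h6
      · rw [h6]
      · rw [mul_zero, mul_zero]
    exact LinearMap.congr_fun h5 y
  have hAd : ∀ (X : End ℂ V) i j, w.repr (Adj γ γ' X (w j)) i =
      ((α i / α j : ℂˣ) : ℂ) * w.repr (X (w j)) i := by
    intro X i j
    rw [Adj_apply, Module.End.mul_apply, Module.End.mul_apply, hγ', Units.smul_def, map_smul,
      hco γ (fun i => (α i : ℂ)) hw, map_smul, Finsupp.smul_apply, smul_eq_mul,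
      div_eq_mul_inv (α i) (α j), Units.val_mul]
    ring
  have hAdn : ∀ (m : ℕ) (X : End ℂ V) i j, w.repr ((Adj γ γ' ^ m) X (w j)) i =
      ((α i / α j : ℂˣ) : ℂ) ^ m * w.repr (X (w j)) i := by
    intro m
    induction m with
    | zero =>
      intro X i j
      rw [pow_zero, Module.End.one_apply, pow_zero, one_mul]
    | succ m ih =>
      intro X i j
      rw [pow_succ', Module.End.mul_apply, hAd, ih, pow_succ]
      ring
  have hAdP : ∀ (P : ℂ[X]) (X : End ℂ V) i j, w.repr (aeval (Adj γ γ') P X (w j)) i =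
      P.eval ((α i / α j : ℂˣ) : ℂ) * w.repr (X (w j)) i := by
    intro P X i j
    rw [aeval_eq_sum_range, eval_eq_sum_range, LinearMap.sum_apply, LinearMap.sum_apply, map_sum,
      Finsupp.finsetSum_apply, Finset.sum_mul]
    refine Finset.sum_congr rfl fun m _ => ?_
    rw [LinearMap.smul_apply, LinearMap.smul_apply, map_smul, Finsupp.smul_apply, hAdn,
      smul_eq_mul]
    ring
  let s : Finset ℂ := Finset.univ.image fun p : Fin n × Fin n => ((α p.1 / α p.2 : ℂˣ) : ℂ)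
  let f : ℂ → ℂ := fun ρ => if hρ : ρ = 0 then 0 else
    (if v (Units.mk0 ρ hρ) = c / c' then 2 else if v (Units.mk0 ρ hρ) = c' / c then -2 else 0)
  have hf : ∀ u : ℂˣ, f (u : ℂ) =
      if v u = c / c' then 2 else if v u = c' / c then -2 else 0 := by
    intro u
    simp only [f]
    rw [dif_neg u.ne_zero, Units.mk0_val]
  let P : ℂ[X] := Lagrange.interpolate s id f
  have hP : ∀ i j, P.eval ((α i / α j : ℂˣ) : ℂ) = ε i - ε j := by
    intro i j
    have h5 := Lagrange.eval_interpolate_at_node (s := s) (v := (id : ℂ → ℂ))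
      (i := ((α i / α j : ℂˣ) : ℂ)) f Function.injective_id.injOn
      (Finset.mem_image.2 ⟨(i, j), Finset.mem_univ _, rfl⟩)
    change P.eval ((α i / α j : ℂˣ) : ℂ) = f ((α i / α j : ℂˣ) : ℂ) at h5
    rw [h5, hf, _root_.map_div]
    simp only [ε]
    rcases hα i with h6 | h6 <;> rcases hα j with h7 | h7
    · rw [h6, h7, div_self', if_neg hδ1.symm, if_neg hδ2.symm, if_pos rfl]
      ring
    · rw [h6, h7, if_pos rfl, if_pos rfl, if_neg hne]
      norm_num
    · rw [h6, h7, if_neg hδ3, if_pos rfl, if_neg hne, if_pos rfl]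
      norm_num
    · rw [h6, h7, div_self', if_neg hδ1.symm, if_neg hδ2.symm, if_neg hne]
      ring
  have hDX : ∀ X : End ℂ V, D * X - X * D = aeval (Adj γ γ') P X := by
    intro X
    refine w.ext fun j => w.repr.injective ?_
    ext i
    rw [hAdP, hP, LinearMap.sub_apply, Module.End.mul_apply, Module.End.mul_apply, hDw, map_sub,
      Finsupp.sub_apply, hco D ε hDw, map_smul, map_smul, Finsupp.smul_apply, smul_eq_mul]
    ring
  -- the trace
  have hcard : Nat.card {i // v (α i) = c} = (Finset.univ.filter fun i => v (α i) = c).card := by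
    rw [Nat.card_eq_fintype_card, Fintype.card_subtype]
  have hadd : (Finset.univ.filter fun i => v (α i) = c).card +
      (Finset.univ.filter fun i => ¬v (α i) = c).card = n := by
    rw [Finset.card_filter_add_card_filter_not, Finset.card_univ, Fintype.card_fin]
  have hfr : finrank ℂ V = n := by
    rw [finrank_eq_card_basis w, Fintype.card_fin]
  refine rk1_of_invol hbr hirr hgen hD2 (fun X hX => by
    rw [hDX]
    exact Adj_aeval_mem hn P hX) (a := (Finset.univ.filter fun i => v (α i) = c).card)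
    (b := (Finset.univ.filter fun i => ¬v (α i) = c).card) ?_ (by rw [hfr, hadd]) ?_ ?_ ?_
  · rw [LinearMap.trace_eq_matrix_trace ℂ w, Matrix.trace]
    have h5 : ∀ i, Matrix.diag (LinearMap.toMatrix w w D) i = ε i := by
      intro i
      rw [Matrix.diag_apply, LinearMap.toMatrix_apply, hDw, map_smul, Finsupp.smul_apply,
        w.repr_self, Finsupp.single_eq_same, smul_eq_mul, mul_one]
    rw [Finset.sum_congr rfl fun i _ => h5 i]
    simp only [ε]
    rw [Finset.sum_ite]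
    simp
    ring
  · obtain ⟨i, hi⟩ := h3
    exact Finset.card_pos.2 ⟨i, Finset.mem_filter.2 ⟨Finset.mem_univ _, hi⟩⟩
  · obtain ⟨i, hi⟩ := h4
    refine Finset.card_pos.2 ⟨i, Finset.mem_filter.2 ⟨Finset.mem_univ _, ?_⟩⟩
    rw [hi]
    exact hne
  · rw [hcard] at hcop
    refine (Nat.coprime_self_add_right).1 ?_
    rw [hadd]
    exact hcop

end

end Pool.Agent.N183.U5
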