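import Mathlib
import Pool.Agent.N183.TS.Main
import Pool.Agent.N183.U5.Slp
import Pool.Agent.N183.U5.Stm

/-!
# Elements of the Galois group and the Lie algebra of a factor
-/

set_option linter.unusedSectionVars false

namespace Pool.Agent.N183.U5

open Matrix Module Pool.Agent.W437.HC Pool.Agent.W437.HD Pool.Agent.W548.Odd Pool.Agent.W522.U
open Pool.Agent.H204R3.SP Pool.Agent.H204R3.GP Pool.Agent.Y90 Pool.Agent.Y224.TS TensorProduct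
open Pool.Agent.Y224.TS.St (IsHodgeTate IsTateModule)
open Pool.Agent.Y90.St (IsHom)
open Pool.Agent.W437.HP (cK cK_mul cK_one)
open Pool.Agent.R915 (commL_of)
open Pool.Agent.N183.TS

noncomputable section

variable {H : Type} [AddCommGroup H] [Module ℚ H] {K : Type} [Field K] [CharZero K] [Algebra K ℂ]
  {T : Type} [AddCommGroup T] [Module ℂ T] {per : H →+ T} {Γ : Type} [Group Γ]
  {ρ : Representation K Γ (K ⊗[ℚ] H)} {χ : Γ →* K} {G : ℕ} {Z : Matrix (Fin G) (Fin G) ℂ}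
  {E : H → H → ℚ} (b : Basis (Fin G ⊕ Fin G) ℚ H)

/-- The matrix of an element of the Galois group. -/
def Rm (ρ : Representation K Γ (K ⊗[ℚ] H)) (γ : Γ) : Matrix (Fin G ⊕ Fin G) (Fin G ⊕ Fin G) ℂ :=
  mt b (bcr ρ ℂ γ)

theorem Rm_inv (γ : Γ) : Rm b ρ γ⁻¹ * Rm b ρ γ = 1 := by
  unfold Rm
  rw [← mt_mul, ← mt_one (K := K) b]
  congr 1
  exact LinearMap.ext fun v => bcr_inv γ v

theorem Rm_inv' (γ : Γ) : Rm b ρ γ * Rm b ρ γ⁻¹ = 1 := by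
  unfold Rm
  rw [← mt_mul, ← mt_one (K := K) b]
  congr 1
  exact LinearMap.ext fun v => bcr_inv' γ v

/-- The inverse commutes with the endomorphisms. -/
theorem comm_inv {γ : Γ} (hg : ∀ a : H →ₗ[ℚ] H, IsHom per per a → ∀ v, ρ γ (a.baseChange K v) =
      a.baseChange K (ρ γ v)) (a : H →ₗ[ℚ] H) (ha : IsHom per per a) (v : K ⊗[ℚ] H) :
    ρ γ⁻¹ (a.baseChange K v) = a.baseChange K (ρ γ⁻¹ v) := by
  have h1 := hg a ha (ρ γ⁻¹ v)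
  have h2 : ∀ v, ρ γ (ρ γ⁻¹ v) = v := fun v => rho_inv' ρ γ v
  have h3 : ∀ v, ρ γ⁻¹ (ρ γ v) = v := fun v => rho_inv ρ γ v
  rw [h2] at h1
  rw [← h1, h3]

theorem Rm_gen [FiniteDimensional ℚ H] {γ : Γ}
    (hg : ∀ a : H →ₗ[ℚ] H, IsHom per per a → ∀ v, ρ γ (a.baseChange K v) =
      a.baseChange K (ρ γ v)) {X : Matrix (Fin G ⊕ Fin G) (Fin G ⊕ Fin G) ℂ}
    (hX : X ∈ Y224.TS.LT (SH per ρ χ b)) :
    Rm b ρ γ * X * Rm b ρ γ⁻¹ ∈ Y224.TS.LT (SH per ρ χ b) := by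
  obtain ⟨X', hX', h1⟩ := LT_conj (S := SH per ρ χ b) (mulVecLin (Rm b ρ γ)) (by
    rintro _ ⟨σ, h, hh, rfl⟩
    refine ⟨_, ⟨σ, _, ht_conj hh hg, rfl⟩, fun v => ?_⟩
    rw [mulVecLin_apply, mulVecLin_apply, mulVec_mulVec, mulVec_mulVec]
    congr 1
    unfold Rm
    rw [← mt_mul, ← mt_mul]
    congr 1
    rw [sub_mul, mul_sub, mul_one, one_mul, mul_smul_comm, smul_mul_assoc]
    congr 2
    rw [mul_assoc (bcr ρ ℂ γ * h)]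
    have h2 : bcr ρ ℂ γ⁻¹ * bcr ρ ℂ γ = 1 := LinearMap.ext fun v => bcr_inv γ v
    rw [h2, mul_one]) X hX
  have h2 : Rm b ρ γ * X = X' * Rm b ρ γ := by
    apply Matrix.toLin'.injective
    refine LinearMap.ext fun v => ?_
    have h3 := h1 v
    rw [mulVecLin_apply, mulVecLin_apply, mulVec_mulVec, mulVec_mulVec] at h3
    exact h3
  rw [h2, mul_assoc, Rm_inv', mul_one]
  exact hX'

theorem Rm_comm (hC : Cht (per.comp b.equivFun.symm.toLinearMap.toAddMonoidHom) (JR Z)) {γ : Γ}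
    (hg : ∀ a : H →ₗ[ℚ] H, IsHom per per a → ∀ v, ρ γ (a.baseChange K v) =
      a.baseChange K (ρ γ v)) {Q : Matrix (Fin G ⊕ Fin G) (Fin G ⊕ Fin G) ℚ}
    (hQ : ∀ X ∈ LZ Z, qm Q * X = X * qm Q) : qm Q * Rm b ρ γ = Rm b ρ γ * qm Q := by
  obtain ⟨a, rfl⟩ : ∃ a : H →ₗ[ℚ] H, LinearMap.toMatrix b b a = Q :=
    ⟨Matrix.toLin b b Q, LinearMap.toMatrix_toLin _ _ _⟩
  have ha := (hom_iff b hC a).2 hQ
  unfold Rm
  rw [← mt_bc2 (K := K) b a, ← mt_mul, ← mt_mul]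
  congr 1
  exact LinearMap.ext fun v => (bcr_comm (hg a ha) v).symm

section fac

variable {a : ℕ} {Z' : Matrix (Fin a) (Fin a) ℂ}
  {E : Matrix (Fin G ⊕ Fin G) (Fin a ⊕ Fin a) ℚ} {F : Matrix (Fin a ⊕ Fin a) (Fin G ⊕ Fin G) ℚ}
  {b}

theorem qm_eq_cK {n : ℕ} (Q : Matrix (Fin n ⊕ Fin n) (Fin n ⊕ Fin n) ℚ) : qm Q = cK ℂ Q := rfl

/-- Endomorphisms of the factor. -/
theorem fac_end (hf : Fac Z Z' E F) {Q : Matrix (Fin a ⊕ Fin a) (Fin a ⊕ Fin a) ℚ}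
    (hQ : qm Q * DZ Z' = DZ Z' * qm Q) : ∀ X ∈ LZ Z, qm (E * Q * F) * X = X * qm (E * Q * F) := by
  have h1 : qm (E * Q * F) * DZ Z = DZ Z * qm (E * Q * F) := by
    rw [qm_eq_cK, cK_mul, cK_mul]
    calc cK ℂ E * cK ℂ Q * cK ℂ F * DZ Z = cK ℂ E * cK ℂ Q * (cK ℂ F * DZ Z) := by
          rw [Matrix.mul_assoc]
      _ = cK ℂ E * (cK ℂ Q * DZ Z') * cK ℂ F := by rw [hf.fd]; simp only [Matrix.mul_assoc]
      _ = (cK ℂ E * DZ Z') * cK ℂ Q * cK ℂ F := by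
          rw [show cK ℂ Q * DZ Z' = DZ Z' * cK ℂ Q from hQ]
          simp only [Matrix.mul_assoc]
      _ = DZ Z * (cK ℂ E * cK ℂ Q * cK ℂ F) := by
          rw [← hf.de]
          simp only [Matrix.mul_assoc]
  exact fun X hX => (commL_of h1 X hX).symm

/-- The compression of an element of the Galois group. -/
def Rf (b : Basis (Fin G ⊕ Fin G) ℚ H) (E : Matrix (Fin G ⊕ Fin G) (Fin a ⊕ Fin a) ℚ)
    (F : Matrix (Fin a ⊕ Fin a) (Fin G ⊕ Fin G) ℚ)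
    (ρ : Representation K Γ (K ⊗[ℚ] H)) (γ : Γ) : Matrix (Fin a ⊕ Fin a) (Fin a ⊕ Fin a) ℂ :=
  cK ℂ F * Rm b ρ γ * cK ℂ E

variable (hC : Cht (per.comp b.equivFun.symm.toLinearMap.toAddMonoidHom) (JR Z))
  (hf : Fac Z Z' E F) {γ : Γ}
  (hg : ∀ a : H →ₗ[ℚ] H, IsHom per per a → ∀ v, ρ γ (a.baseChange K v) =
      a.baseChange K (ρ γ v))
include hC hf hg

theorem Rm_ef : (cK ℂ E * cK ℂ F) * Rm b ρ γ = Rm b ρ γ * (cK ℂ E * cK ℂ F) := by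
  have h1 := Rm_comm b hC hg (Q := E * 1 * F) (fac_end hf (by
    rw [qm_eq_cK, cK_one, one_mul, mul_one]))
  rw [qm_eq_cK, cK_mul, cK_mul, cK_one, Matrix.mul_one] at h1
  exact h1

theorem Rf_e : Rm b ρ γ * cK ℂ E = cK ℂ E * Rf b E F ρ γ := by
  have h1 := Rm_ef hC hf hg
  unfold Rf
  calc Rm b ρ γ * cK ℂ E = (Rm b ρ γ * (cK ℂ E * cK ℂ F)) * cK ℂ E := by
        rw [Matrix.mul_assoc, Matrix.mul_assoc, hf.fe', Matrix.mul_one]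
    _ = cK ℂ E * (cK ℂ F * Rm b ρ γ * cK ℂ E) := by
        rw [← h1]
        simp only [Matrix.mul_assoc]

theorem Rf_f : cK ℂ F * Rm b ρ γ = Rf b E F ρ γ * cK ℂ F := by
  have h1 := Rm_ef hC hf hg
  unfold Rf
  calc cK ℂ F * Rm b ρ γ = cK ℂ F * ((cK ℂ E * cK ℂ F) * Rm b ρ γ) := by
        rw [← Matrix.mul_assoc, ← Matrix.mul_assoc, hf.fe', Matrix.one_mul]
    _ = cK ℂ F * Rm b ρ γ * cK ℂ E * cK ℂ F := by
        rw [h1]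
        simp only [Matrix.mul_assoc]

theorem Rf_inv : Rf b E F ρ γ⁻¹ * Rf b E F ρ γ = 1 := by
  have h1 := Rf_e hC hf hg
  conv_lhs => rw [Rf]
  rw [Matrix.mul_assoc, ← h1, ← Matrix.mul_assoc, Matrix.mul_assoc (cK ℂ F), Rm_inv,
    Matrix.mul_one, hf.fe']

theorem Rf_comm {Q : Matrix (Fin a ⊕ Fin a) (Fin a ⊕ Fin a) ℚ}
    (hQ : qm Q * DZ Z' = DZ Z' * qm Q) : qm Q * Rf b E F ρ γ = Rf b E F ρ γ * qm Q := by
  have h1 := Rm_comm b hC hg (fac_end hf hQ)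
  rw [qm_eq_cK, cK_mul, cK_mul] at h1
  rw [qm_eq_cK]
  unfold Rf
  calc cK ℂ Q * (cK ℂ F * Rm b ρ γ * cK ℂ E) =
      (cK ℂ F * cK ℂ E) * cK ℂ Q * (cK ℂ F * Rm b ρ γ * cK ℂ E) := by
        rw [hf.fe', Matrix.one_mul]
    _ = cK ℂ F * ((cK ℂ E * cK ℂ Q * cK ℂ F) * Rm b ρ γ) * cK ℂ E := by
        simp only [Matrix.mul_assoc]
    _ = cK ℂ F * Rm b ρ γ * cK ℂ E * cK ℂ Q * (cK ℂ F * cK ℂ E) := by
        rw [h1]
        simp only [Matrix.mul_assoc]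
    _ = _ := by rw [hf.fe', Matrix.mul_one]

variable [FiniteDimensional ℚ H] (h : TD Z (SH per ρ χ b))
include h

theorem Rf_gen {X : Matrix (Fin a ⊕ Fin a) (Fin a ⊕ Fin a) ℂ}
    (hX : X ∈ Y224.TS.LT (SF E F (SH per ρ χ b))) :
    Rf b E F ρ γ * X * Rf b E F ρ γ⁻¹ ∈ Y224.TS.LT (SF E F (SH per ρ χ b)) := by
  obtain ⟨Y, hY, rfl⟩ := liftT hf h hX
  have h1 := compT hf h (Rm_gen b hg hY)
  have h2 := Rf_f hC hf hg
  have h3 := Rf_e hC hf (γ := γ⁻¹) (comm_inv hg)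
  have h4 : cK ℂ F * (Rm b ρ γ * Y * Rm b ρ γ⁻¹) * cK ℂ E =
      Rf b E F ρ γ * (cK ℂ F * Y * cK ℂ E) * Rf b E F ρ γ⁻¹ := by
    calc cK ℂ F * (Rm b ρ γ * Y * Rm b ρ γ⁻¹) * cK ℂ E =
        (cK ℂ F * Rm b ρ γ) * Y * (Rm b ρ γ⁻¹ * cK ℂ E) := by simp only [Matrix.mul_assoc]
      _ = _ := by
        rw [h2, h3]
        simp only [Matrix.mul_assoc]
  rw [← h4]
  exact h1

theorem Rf_gen' {X : Matrix (Fin a ⊕ Fin a) (Fin a ⊕ Fin a) ℂ}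
    (hX : X ∈ Y224.TS.LT (SF E F (SH per ρ χ b))) :
    Rf b E F ρ γ⁻¹ * X * Rf b E F ρ γ ∈ Y224.TS.LT (SF E F (SH per ρ χ b)) := by
  have h1 := Rf_gen hC hf (γ := γ⁻¹) (comm_inv hg) h hX
  rwa [inv_inv] at h1

end fac

end

end Pool.Agent.N183.U5
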