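import Mathlib
import Pool.Agent.N183.U5.Gal

/-!
# The local conditions for simple factors
-/

set_option linter.unusedSectionVars false

namespace Pool.Agent.N183.U5

open Matrix Module Pool.Agent.W437.HC Pool.Agent.W437.HD Pool.Agent.W548.Odd Pool.Agent.W522.U
open Pool.Agent.H204R3.SP Pool.Agent.H204R3.GP Pool.Agent.Y90 Pool.Agent.Y224.TS TensorProduct
open Pool.Agent.Y224.TS.St (IsHodgeTate IsTateModule)
open Pool.Agent.W437.HP (cK cK_mul cK_one)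
open Pool.Agent.R915 (VE mem_VE VE_cj VE_main VE_stab commL_of pd_sig eig_conj root_conj)
open Pool.Agent.N183.TS
open Polynomial

noncomputable section

section slopes

variable {G : ℕ} {Z : Matrix (Fin G) (Fin G) ℂ}
  {S : Set (Matrix (Fin G ⊕ Fin G) (Fin G ⊕ Fin G) ℂ)}

/-- Elements of rank one in the presence of an operator with two classes of eigenvalues. -/
theorem rk1T_slopes (h : TD Z S) (hZ : PM Z) {U : Submodule ℂ (Fin G ⊕ Fin G → ℂ)}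
    (hU : IrS (LZ Z) U) (hn : 2 ≤ finrank ℂ U)
    {t t' : Matrix (Fin G ⊕ Fin G) (Fin G ⊕ Fin G) ℂ} (h2 : t' * t = 1)
    (hN : ∀ X ∈ Y224.TS.LT S, t * X * t' ∈ Y224.TS.LT S)
    (htU : ∀ u ∈ U, t *ᵥ u ∈ U) (htU' : ∀ u ∈ U, t' *ᵥ u ∈ U)
    {n : ℕ} (w : Basis (Fin n) ℂ U) (α : Fin n → ℂˣ) {A : Type} [CommGroup A] (v : ℂˣ →* A)
    {c c' : A}
    (hw : ∀ i, t *ᵥ (w i : Fin G ⊕ Fin G → ℂ) = (α i : ℂ) • (w i : Fin G ⊕ Fin G → ℂ))
    (hcc : (c / c') ^ 2 ≠ 1) (hα : ∀ i, v (α i) = c ∨ v (α i) = c') (h3 : ∃ i, v (α i) = c)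
    (h4 : ∃ i, v (α i) = c') (hcop : Nat.Coprime (Nat.card {i // v (α i) = c}) n) :
    Rk1T S U := by
  have hU' : IrS (Y224.TS.LT S) U := (h.irS hZ).2 hU
  suffices key : ∃ x ∈ resL (Y224.TS.LT S) U, rk x = 1 by
    obtain ⟨x, hx, hx1⟩ := key
    exact rk1T_of_rk h hZ hU hn hx hx1
  refine rk1_of_slopes (𝔤 := resL (Y224.TS.LT S) U)
    (resL_br (fun X hX Y hY => LT_br hX hY) U) (res_irr h.sq hU')
    (fun L hL1 hL2 => res_ind hU'.2.1 L (fun D hD => hL1 _ ⟨D, LT_gen hD, fun u => rfl⟩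
      (res_sq (h.sq D hD) _)) hL2)
    (γ := resM t U htU) (γ' := resM t' U htU') (by
      refine LinearMap.ext fun u => Subtype.ext ?_
      rw [Module.End.mul_apply, resM_coe, resM_coe, mulVec_mulVec, h2, one_mulVec]
      rfl) ?_ w α v (fun i => Subtype.ext ?_) hcc hα h3 h4 hcop
  · rintro Y ⟨X, hX, hXY⟩
    refine ⟨_, hN X hX, fun u => ?_⟩
    rw [Module.End.mul_apply, Module.End.mul_apply, resM_coe, hXY, resM_coe, mulVec_mulVec,
      mulVec_mulVec]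
  · exact hw i

end slopes

section acts

variable {K : Type} [Field K] [CharZero K] [Algebra K ℂ] {Γ : Type} [Group Γ]
  {a : ℕ} {Z' : Matrix (Fin a) (Fin a) ℂ} (h' : PM Z')

/-- The standard basis. -/
def bs (a : ℕ) : Basis (Fin a ⊕ Fin a) ℚ (Fin a ⊕ Fin a → ℚ) := Pi.basisFun ℚ (Fin a ⊕ Fin a)

theorem mem_VS {f : Module.End ℚ (AVZ h').H} {s : ℂ}
    {v : ℂ ⊗[K] (K ⊗[ℚ] (AVZ h').H)} :
    v ∈ VS K (AVZ h') f s ↔ eY K (bs a) v ∈ VE (LinearMap.toMatrix' f) s := by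
  unfold VS
  rw [Module.End.mem_eigenspace_iff, mem_VE]
  have h1 : mt (bs a) ((f.baseChange K).baseChange ℂ) = qm (LinearMap.toMatrix' f) := by
    rw [mt_bc2]
    rfl
  rw [← h1, mt_mulVec, ← map_smul]
  exact (eY K (bs a)).injective.eq_iff.symm

/-- The eigenspaces in coordinates. -/
def eVS (f : Module.End ℚ (AVZ h').H) (s : ℂ) :
    VS K (AVZ h') f s ≃ₗ[ℂ] VE (LinearMap.toMatrix' f) s :=
  (eY K (bs a)).ofSubmodules _ _ (by
    ext v
    rw [Submodule.mem_map]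
    constructor
    · rintro ⟨w, hw, rfl⟩
      exact (mem_VS h').1 hw
    · intro hv
      refine ⟨(eY K (bs a)).symm v, (mem_VS h').2 ?_, ?_⟩
      · rwa [LinearEquiv.apply_symm_apply]
      · exact (eY K (bs a)).apply_symm_apply v)

theorem eVS_coe (f : Module.End ℚ (AVZ h').H) (s : ℂ) (v : VS K (AVZ h') f s) :
    (eVS h' f s v : Fin a ⊕ Fin a → ℂ) = eY K (bs a) (v : ℂ ⊗[K] (K ⊗[ℚ] (AVZ h').H)) := rfl

variable {X : AV} {ρ : Representation K Γ (K ⊗[ℚ] X.H)} {G : ℕ} {Z : Matrix (Fin G) (Fin G) ℂ}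
  {b : Basis (Fin G ⊕ Fin G) ℚ X.H}
  {E : Matrix (Fin G ⊕ Fin G) (Fin a ⊕ Fin a) ℚ} {F : Matrix (Fin a ⊕ Fin a) (Fin G ⊕ Fin G) ℚ}

/-- The inclusion of a factor. -/
def inc (b : Basis (Fin G ⊕ Fin G) ℚ X.H) (E : Matrix (Fin G ⊕ Fin G) (Fin a ⊕ Fin a) ℚ) :
    (AVZ h').H →ₗ[ℚ] X.H :=
  b.equivFun.symm.toLinearMap.comp (Matrix.mulVecLin E)

theorem eY_inc (v : ℂ ⊗[K] (K ⊗[ℚ] (AVZ h').H)) :
    eY K b (((inc h' b E).baseChange K).baseChange ℂ v) = cK ℂ E *ᵥ eY K (bs a) v := by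
  have h1 : (eY K b).toLinearMap.comp (((inc h' b E).baseChange K).baseChange ℂ) =
      (mulVecLin (cK ℂ E)).comp (eY K (bs a)).toLinearMap := by
    refine (bY K (bs a)).ext fun i => ?_
    rw [LinearMap.comp_apply, LinearMap.comp_apply, bY_apply, LinearMap.baseChange_tmul,
      LinearMap.baseChange_tmul]
    change eY K b ((1 : ℂ) ⊗ₜ[K] ((1 : K) ⊗ₜ[ℚ] (b.equivFun.symm (E *ᵥ (bs a i))))) =
      cK ℂ E *ᵥ eY K (bs a) ((1 : ℂ) ⊗ₜ[K] ((1 : K) ⊗ₜ[ℚ] (bs a i)))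
    rw [eY_rat, eY_rat, LinearEquiv.apply_symm_apply]
    have h2 : (bs a).equivFun (bs a i) = bs a i := by
      funext j
      simp [bs]
    rw [h2]
    funext j
    simp [Pool.Agent.Y90.cv, mulVec, dotProduct, cK]
  exact LinearMap.congr_fun h1 v

/-- The action on the factor in coordinates. -/
theorem acts_mat (hf : Fac Z Z' E F) {γ : Γ}
    {t : Module.End K (K ⊗[ℚ] (AVZ h').H)} (hA : ActsBy X ρ (AVZ h') γ t)
    (hi : IsHom (AVZ h') X (inc h' b E)) : mt (bs a) (t.baseChange ℂ) = Rf b E F ρ γ := by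
  have h1 : ∀ v : ℂ ⊗[K] (K ⊗[ℚ] (AVZ h').H),
      bcr ρ ℂ γ (((inc h' b E).baseChange K).baseChange ℂ v) =
        ((inc h' b E).baseChange K).baseChange ℂ (t.baseChange ℂ v) := by
    intro v
    have h2 : (ρ γ).comp ((inc h' b E).baseChange K) = ((inc h' b E).baseChange K).comp t :=
      LinearMap.ext fun v => hA.2 _ hi v
    have h3 := congrArg (fun f : (K ⊗[ℚ] (AVZ h').H) →ₗ[K] (K ⊗[ℚ] X.H) => f.baseChange ℂ) h2
    simp only [LinearMap.baseChange_comp] at h3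
    exact LinearMap.congr_fun h3 v
  apply Matrix.toLin'.injective
  refine LinearMap.ext fun x => ?_
  obtain ⟨v, rfl⟩ := (eY K (bs a)).surjective x
  rw [Matrix.toLin'_apply, Matrix.toLin'_apply, mt_mulVec]
  unfold Rf Rm
  rw [← mulVec_mulVec, ← mulVec_mulVec, ← eY_inc (K := K) h', mt_mulVec, h1, eY_inc,
    mulVec_mulVec, hf.fe', one_mulVec]

end acts

end

end Pool.Agent.N183.U5
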