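import Mathlib
import Pool.Agent.N183.U5.Fct

/-!
# The local conditions for the new classes
-/

set_option linter.unusedSectionVars false

namespace Pool.Agent.N183.U5

open Matrix Module Pool.Agent.W437.HC Pool.Agent.W437.HD Pool.Agent.W548.Odd Pool.Agent.W522.U
open Pool.Agent.H204R3.SP Pool.Agent.H204R3.GP Pool.Agent.Y90 Pool.Agent.Y224.TS TensorProduct
open Pool.Agent.Y224.TS.St (IsHodgeTate IsTateModule)
open Pool.Agent.W437.HP (cK cK_mul cK_one)
open Pool.Agent.R915 (VE mem_VE VE_cj VE_main VE_stab commL_of pd_sig eig_conj root_conj hom_iff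
  hom_iff')
open Pool.Agent.N183.TS
open Polynomial

noncomputable section

section Z

variable {g : ℕ} {Z : Matrix (Fin g) (Fin g) ℂ} (h : PM Z)

theorem minpoly_mat (a : Module.End ℚ (Fin g ⊕ Fin g → ℚ)) :
    minpoly ℚ (LinearMap.toMatrix' a) = minpoly ℚ a := by
  let e : Matrix (Fin g ⊕ Fin g) (Fin g ⊕ Fin g) ℚ ≃ₐ[ℚ] Module.End ℚ (Fin g ⊕ Fin g → ℚ) :=
    Matrix.toLinAlgEquiv'
  have hea : e (LinearMap.toMatrix' a) = a := Matrix.toLin'_toMatrix' a
  have h4 := minpoly.algEquiv_eq e (LinearMap.toMatrix' a)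
  rw [hea] at h4
  exact h4.symm

theorem MaxField.mf {a : Module.End ℚ (Fin g ⊕ Fin g → ℚ)} (k : MaxField (AVZ h) a) :
    MF Z (LinearMap.toMatrix' a) := by
  obtain ⟨h1, h3⟩ := k
  let e : Matrix (Fin g ⊕ Fin g) (Fin g ⊕ Fin g) ℚ ≃ₐ[ℚ] Module.End ℚ (Fin g ⊕ Fin g → ℚ) :=
    Matrix.toLinAlgEquiv'
  have he : ∀ R, e R = Matrix.toLin' R := fun R => rfl
  have hea : e (LinearMap.toMatrix' a) = a := Matrix.toLin'_toMatrix' a
  refine ⟨(hom_iff' h a).1 h1, fun R hR hRM => ?_⟩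
  have h4 := h3 (e R) ((hom_iff h R).2 hR) (by
    have h5 := congrArg e hRM
    rwa [map_mul, map_mul, hea] at h5)
  rw [Algebra.adjoin_singleton_eq_range_aeval] at h4 ⊢
  obtain ⟨p, hp⟩ := h4
  refine ⟨p, e.injective ?_⟩
  change aeval a p = e R at hp
  have h5 : aeval (e (LinearMap.toMatrix' a)) p = e (aeval (LinearMap.toMatrix' a) p) :=
    Polynomial.aeval_algHom_apply e.toAlgHom _ _
  rw [hea] at h5
  change e (aeval (LinearMap.toMatrix' a) p) = e R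
  rw [← h5, hp]

/-- The multiplicities on the tangent space. -/
theorem pd_mult {a : Module.End ℚ (AVZ h).H} {Ψ : Module.End ℂ (AVZ h).T}
    (k : MaxField (AVZ h) a) (hΨ : ∀ v, Ψ ((AVZ h).per v) = (AVZ h).per (a v)) (s : ℂ) :
    pd Z (VE (LinearMap.toMatrix' a) s) = finrank ℂ (Ψ.eigenspace s) := by
  have hΨ' : ∀ v, Ψ (perOne Z v) = perOne Z (LinearMap.toMatrix' a *ᵥ v) := by
    intro v
    have h3 : LinearMap.toMatrix' a *ᵥ v = a v := by
      rw [← Matrix.toLin'_apply, Matrix.toLin'_toMatrix']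
    rw [h3]
    exact hΨ v
  rw [pd_sig h (k.mf h).comm hΨ' s fun v => mem_VE]
  have h1 : LinearMap.ker (Ψ - s • LinearMap.id) = Ψ.eigenspace s := by
    ext v
    rw [LinearMap.mem_ker, Module.End.mem_eigenspace_iff, LinearMap.sub_apply,
      LinearMap.smul_apply, LinearMap.id_apply, sub_eq_zero]
  exact congrArg (fun W : Submodule ℂ (Fin g → ℂ) => finrank ℂ W) h1

theorem ne_bot_of_pd {W : Submodule ℂ (Fin g ⊕ Fin g → ℂ)} (hp : 0 < pd Z W) : W ≠ ⊥ := by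
  rintro rfl
  have h2 : pd Z (⊥ : Submodule ℂ (Fin g ⊕ Fin g → ℂ)) ≤
    finrank ℂ (⊥ : Submodule ℂ (Fin g ⊕ Fin g → ℂ)) := Submodule.finrank_mono inf_le_left
  rw [finrank_bot] at h2
  omega

/-- The roots of the minimal polynomial are eigenvalues. -/
theorem VE_ne_of_root {M : Matrix (Fin g ⊕ Fin g) (Fin g ⊕ Fin g) ℚ} {s : ℂ}
    (hs : aeval s (minpoly ℚ M) = 0) : VE M s ≠ ⊥ := by
  obtain ⟨q, hq⟩ := Matrix.minpoly_dvd_charpoly M
  have h1 : aeval s M.charpoly = 0 := by rw [hq, map_mul, hs, zero_mul]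
  have h2 : (qm M).charpoly = M.charpoly.map (algebraMap ℚ ℂ) := by
    have h3 : qm M = M.map (algebraMap ℚ ℂ) := by
      ext i j
      simp [qm]
    rw [h3, Matrix.charpoly_map]
  have h3 : (qm M).charpoly.eval s = 0 := by
    rw [h2, eval_map, ← aeval_def, h1]
  rw [Matrix.eval_charpoly] at h3
  obtain ⟨v, hv0, hv⟩ := Matrix.exists_mulVec_eq_zero_iff.2 h3
  intro h4
  apply hv0
  have h5 : v ∈ VE M s := by
    rw [mem_VE]
    rw [sub_mulVec, Matrix.scalar_apply, sub_eq_zero] at hv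
    rw [← hv]
    funext i
    rw [mulVec_diagonal, Pi.smul_apply, smul_eq_mul]
  rw [h4, Submodule.mem_bot] at h5
  exact h5

/-- The first class. -/
theorem CopMult.cls {S : Set (Matrix (Fin g ⊕ Fin g) (Fin g ⊕ Fin g) ℂ)} (hT : TD Z S)
    (hs : IsSimpleAV Z) (hg : 0 < g) (k : CopMult (AVZ h))
    {U : Submodule ℂ (Fin g ⊕ Fin g → ℂ)} (hU : IrS (LZ Z) U) (hn : 2 ≤ finrank ℂ U) :
    Rk1T S U := by
  obtain ⟨a, Ψ, k, hΨ, s, hs0, hc⟩ := k
  rw [← minpoly_mat] at hs0 hc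
  rw [← pd_mult h k hΨ s, R915.finrank_AVZ] at hc
  obtain ⟨s1, T, hs1, hne1, hT1, hT2, hTU⟩ := (k.mf h).proj h hs hg hU
  have hne : VE (LinearMap.toMatrix' a) s ≠ ⊥ := VE_ne_of_root hs0
  have h3 := (k.mf h).dim h hs hg hne
  have h3' := (k.mf h).dim h hs hg hne1
  have h4 := pd_add_qd h (VE_stab (k.mf h).comm s)
  have hdeg : 0 < (minpoly ℚ (LinearMap.toMatrix' a)).natDegree := by
    rw [Nat.pos_iff_ne_zero]
    intro h5
    rw [h5, zero_mul] at h3
    omega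
  have hr : finrank ℂ (VE (LinearMap.toMatrix' a) s) = finrank ℂ U := by
    have h6 : finrank ℂ (VE (LinearMap.toMatrix' a) s1) = finrank ℂ U := by
      rw [← hTU]
      exact finrank_map_of_inj hT2
    rw [← h6]
    exact Nat.eq_of_mul_eq_mul_left hdeg (h3.trans h3'.symm)
  rw [← h3, Nat.mul_div_cancel_left _ hdeg, ← h4] at hc
  have hc' := (Nat.coprime_self_add_right).1 hc
  refine rk1T_cop hT h hs hg (k.mf h) (s0 := s) ?_ ?_ hc' hU
  · rw [Nat.pos_iff_ne_zero]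
    intro h7
    rw [h7, Nat.coprime_zero_left] at hc'
    omega
  · rw [Nat.pos_iff_ne_zero]
    intro h7
    rw [h7, Nat.coprime_zero_right] at hc'
    omega

end Z

section gal

variable {K : Type} [Field K] [CharZero K] [Algebra K ℂ] {Γ : Type} [Group Γ] {X : AV}
  {ρ : Representation K Γ (K ⊗[ℚ] X.H)} {χ : Γ →* K} {G : ℕ} {Z : Matrix (Fin G) (Fin G) ℂ}
  {b : Basis (Fin G ⊕ Fin G) ℚ X.H} {a : ℕ} {Z' : Matrix (Fin a) (Fin a) ℂ}
  {E : Matrix (Fin G ⊕ Fin G) (Fin a ⊕ Fin a) ℚ} {F : Matrix (Fin a ⊕ Fin a) (Fin G ⊕ Fin G) ℚ}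

/-- The second class. -/
theorem GalMult.cls (h' : PM Z') (hZ : PM Z)
    (hC : Cht (X.per.comp b.equivFun.symm.toLinearMap.toAddMonoidHom) (JR Z))
    (hT : TD Z (SH X.per ρ χ b)) (hf : Fac Z Z' E F) (hs : IsSimpleAV Z') (ha : 0 < a)
    (hi : IsHom (AVZ h') X (inc h' b E)) (k : GalMult X ρ (AVZ h'))
    {U : Submodule ℂ (Fin a ⊕ Fin a → ℂ)} (hU : IrS (LZ Z') U) (hn : 2 ≤ finrank ℂ U) :
    Rk1T (SF E F (SH X.per ρ χ b)) U := by
  obtain ⟨f, k, hγ⟩ := k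
  obtain ⟨s, T, hs0, hne, hT1, hT2, hTU⟩ := (k.mf h').proj h' hs ha hU
  have hTD := tdF hf hT hZ h'
  refine Rk1T.of_map hTD h' hU hT1 hT2 ?_
  have hn' : 2 ≤ finrank ℂ (VE (LinearMap.toMatrix' f) s) := by
    rw [← hTU, finrank_map_of_inj hT2]
    exact hn
  rw [hTU]
  have hIr := (k.mf h').irr h' hs hne
  obtain ⟨γ, t, hA, hor⟩ := hγ s (by rw [← minpoly_mat]; exact hs0)
  have hg : ∀ a : X.H →ₗ[ℚ] X.H, Pool.Agent.Y90.St.IsHom X.per X.per a → ∀ v,
      ρ γ (a.baseChange K v) = a.baseChange K (ρ γ v) := hA.1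
  have hmt := acts_mat h' hf hA hi
  have e1 : Rf b E F ρ γ⁻¹ * Rf b E F ρ γ = 1 := Rf_inv hC hf hg
  have e2 := fun X hX => Rf_gen (X := X) hC hf hg hT hX
  have e3 := fun X hX => Rf_gen' (X := X) hC hf hg hT hX
  have hst : ∀ γ' : Γ, (∀ a : X.H →ₗ[ℚ] X.H, Pool.Agent.Y90.St.IsHom X.per X.per a → ∀ v,
      ρ γ' (a.baseChange K v) = a.baseChange K (ρ γ' v)) →
      ∀ u ∈ VE (LinearMap.toMatrix' f) s, Rf b E F ρ γ' *ᵥ u ∈ VE (LinearMap.toMatrix' f) s := by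
    intro γ' hγ' u hu
    rw [mem_VE] at hu ⊢
    rw [mulVec_mulVec, Rf_comm hC hf hγ' (k.mf h').comm, ← mulVec_mulVec, hu, mulVec_smul]
  have e4 := hst γ hg
  have e5 := hst γ⁻¹ (comm_inv hg)
  rcases hor with ⟨h1, w, hw, hw'⟩ | ⟨n, w, α, A, iA, v, c, c', h1, h3, h4, h5, h6, h7⟩
  · refine rk1T_refl hTD h' hIr hn' e1 e2 e3 e4 e5 ?_ ?_
    · rw [← h1]
      have h8 : (VE (LinearMap.toMatrix' f) s).map (mulVecLin (Rf b E F ρ γ - 1)) =
          ((VS K (AVZ h') f s).map (t.baseChange ℂ - 1)).map (eY K (bs a)).toLinearMap := by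
        ext x
        simp only [Submodule.mem_map]
        constructor
        · rintro ⟨u, hu, rfl⟩
          refine ⟨(t.baseChange ℂ - 1) ((eY K (bs a)).symm u), ⟨(eY K (bs a)).symm u, ?_, rfl⟩, ?_⟩
          · rw [mem_VS, LinearEquiv.apply_symm_apply]
            exact hu
          · rw [← hmt, LinearMap.sub_apply, map_sub, mulVecLin_apply, sub_mulVec, one_mulVec]
            change eY K (bs a) _ - eY K (bs a) _ = _
            rw [← mt_mulVec, Module.End.one_apply, LinearEquiv.apply_symm_apply]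
        · rintro ⟨_, ⟨u, hu, rfl⟩, rfl⟩
          refine ⟨eY K (bs a) u, (mem_VS h').1 hu, ?_⟩
          rw [← hmt, LinearMap.sub_apply, map_sub, mulVecLin_apply, sub_mulVec, one_mulVec,
            mt_mulVec]
          rfl
      rw [h8]
      exact LinearEquiv.finrank_map_eq (eY K (bs a)) _
    · refine ⟨eY K (bs a) w, (mem_VS h').1 hw, fun h8 => hw' ?_⟩
      rw [← hmt, mt_mulVec, mt_mulVec] at h8
      exact (eY K (bs a)).injective h8
  · refine rk1T_slopes hTD h' hIr hn' e1 e2 e4 e5 (w.map (eVS h' f s)) α v (fun i => ?_) h3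
      h4 h5 h6 h7
    rw [Basis.map_apply, eVS_coe, ← hmt, mt_mulVec, h1, map_smul]

end gal

end

end Pool.Agent.N183.U5
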