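import Mathlib
import Pool.Agent.H977R3.CM.Aut

/-!
# Multiplicity functions of cyclic coverings of the line
-/

set_option linter.unusedSectionVars false

namespace Pool.Agent.N183.U5

open Polynomial

theorem exists_cyc_aux {q : ℕ} [NeZero q] {L : Type} [Field L] [Algebra ℚ L]
    [IsCyclotomicExtension {q} ℚ L] {ζ ζ' : ℂ} (h : IsPrimitiveRoot ζ q)
    (h' : IsPrimitiveRoot ζ' q) : ∃ τ : ℂ ≃+* ℂ, τ ζ = ζ' := by
  have := IsCyclotomicExtension.finiteDimensional {q} ℚ L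
  let j : L →ₐ[ℚ] ℂ := IsAlgClosed.lift
  have hz : IsPrimitiveRoot (IsCyclotomicExtension.zeta q ℚ L) q :=
    IsCyclotomicExtension.zeta_spec q ℚ L
  have hjz : IsPrimitiveRoot (j (IsCyclotomicExtension.zeta q ℚ L)) q :=
    hz.map_of_injective j.injective
  have hirr : Irreducible (cyclotomic q ℚ) := cyclotomic.irreducible_rat (NeZero.pos q)
  have key : ∀ η : ℂ, IsPrimitiveRoot η q → ∃ g : L ≃ₐ[ℚ] L,
      j (g (IsCyclotomicExtension.zeta q ℚ L)) = η := by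
    intro η hη
    obtain ⟨i, hi, rfl⟩ := hjz.eq_pow_of_pow_eq_one hη.pow_eq_one
    rw [← map_pow] at hη
    have h1 : IsPrimitiveRoot (IsCyclotomicExtension.zeta q ℚ L ^ i) q :=
      IsPrimitiveRoot.of_map_of_injective hη j.injective
    refine ⟨IsCyclotomicExtension.fromZetaAut h1 hirr, ?_⟩
    rw [IsCyclotomicExtension.fromZetaAut_spec, map_pow]
  obtain ⟨g1, hg1⟩ := key ζ h
  obtain ⟨g2, hg2⟩ := key ζ' h'
  obtain ⟨σ, hσ⟩ := Pool.Agent.H977R3.CM.exists_aut (j : L →+* ℂ)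
    ((g1.symm.trans g2 : L ≃ₐ[ℚ] L) : L ≃+* L)
  refine ⟨σ, ?_⟩
  have h1 := hσ (g1 (IsCyclotomicExtension.zeta q ℚ L))
  change σ (j _) = j (g2 (g1.symm (g1 _))) at h1
  rw [AlgEquiv.symm_apply_apply, hg1, hg2] at h1
  exact h1

/-- Any two primitive roots of unity are conjugate. -/
theorem exists_cyc {q : ℕ} [NeZero q] {ζ ζ' : ℂ} (h : IsPrimitiveRoot ζ q)
    (h' : IsPrimitiveRoot ζ' q) : ∃ τ : ℂ ≃+* ℂ, τ ζ = ζ' := by
  have : NeZero ((q : ℕ) : ℚ) := ⟨Nat.cast_ne_zero.2 (NeZero.ne q)⟩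
  exact @exists_cyc_aux q _ (CyclotomicField q ℚ) _ (CyclotomicField.algebra q ℚ)
    (CyclotomicField.isCyclotomicExtension q ℚ) _ _ h h'

end Pool.Agent.N183.U5
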