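import Mathlib
import Pool.Agent.N183.U5.Cyc

/-!
# Arithmetic of the multiplicities of cyclic coverings
-/

set_option linter.unusedSectionVars false

namespace Pool.Agent.N183.U5

/-- Two consecutive numbers are not both divisible by the prime. -/
theorem cop_or {q : ℕ} (hq : IsPrimePow q) (m : ℕ) : m.Coprime q ∨ (m + 1).Coprime q := by
  obtain ⟨p, k, hp, hk, rfl⟩ := hq
  have hp' : p.Prime := hp.nat_prime
  by_contra h
  push Not at h
  obtain ⟨h1, h2⟩ := h
  have e1 : p ∣ m := by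
    by_contra h3
    exact h1 (Nat.Coprime.pow_right k ((Nat.Prime.coprime_iff_not_dvd hp').2 h3).symm)
  have e2 : p ∣ m + 1 := by
    by_contra h3
    exact h2 (Nat.Coprime.pow_right k ((Nat.Prime.coprime_iff_not_dvd hp').2 h3).symm)
  have e3 : p ∣ 1 := (Nat.dvd_add_right e1).1 e2
  exact hp'.one_lt.ne' (Nat.dvd_one.1 e3)

/-- The first number prime to `q` beyond a bound. -/
theorem exists_min {q n c : ℕ} (hq : IsPrimePow q) (hc : 0 < c) (hnc : n * c < q) (hn : 1 < n)
    (hnq : n.Coprime q) :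
    ∃ m m' : ℕ, m.Coprime q ∧ m'.Coprime q ∧ q < n * c * m ∧ n * c * m' < q ∧ 0 < m' ∧
      (m = m' + 1 ∨ (m = m' + 2 ∧ ¬(m' + 1).Coprime q)) ∧
        ∀ j : ℕ, j.Coprime q → q < n * c * j → m ≤ j := by
  classical
  have hq1 : 1 < q := hq.one_lt
  have hex : ∃ m : ℕ, m.Coprime q ∧ q < n * c * m := by
    refine ⟨q + 1, by simp, ?_⟩
    have h1 : 1 * (q + 1) ≤ n * c * (q + 1) := Nat.mul_le_mul_right _ (Nat.mul_pos (by omega) hc)
    omega
  obtain ⟨h1, h2⟩ := Nat.find_spec hex
  have h3 : ∀ j : ℕ, j < Nat.find hex → ¬(j.Coprime q ∧ q < n * c * j) := fun j hj =>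
    Nat.find_min hex hj
  set m := Nat.find hex with hm
  have hne : ∀ j : ℕ, n * c * j ≠ q := by
    intro j hj
    have h4 : n ∣ q := ⟨c * j, by rw [← hj, mul_assoc]⟩
    have h5 : n = 1 := Nat.eq_one_of_dvd_coprimes hnq dvd_rfl h4
    omega
  have h4 : ∀ j : ℕ, j < m → j.Coprime q → n * c * j < q := by
    intro j hj hj'
    have h5 : ¬(q < n * c * j) := fun h6 => h3 j hj ⟨hj', h6⟩
    have h6 := hne j
    omega
  have hm2 : 2 ≤ m := by
    by_contra h5
    have h6 : m = 0 ∨ m = 1 := by omega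
    rcases h6 with h6 | h6
    · rw [h6, mul_zero] at h2
      omega
    · rw [h6, mul_one] at h2
      omega
  have hmin : ∀ j : ℕ, j.Coprime q → q < n * c * j → m ≤ j := by
    intro j hj hj'
    by_contra h5
    exact h3 j (by omega) ⟨hj, hj'⟩
  by_cases h5 : (m - 1).Coprime q
  · exact ⟨m, m - 1, h1, h5, h2, h4 _ (by omega) h5, by omega, Or.inl (by omega), hmin⟩
  · have h6 : (m - 2).Coprime q := by
      have h7 := cop_or hq (m - 2)
      rw [show m - 2 + 1 = m - 1 by omega] at h7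
      exact h7.resolve_right h5
    have h7 : m ≠ 2 := by
      intro h7
      rw [h7] at h5
      exact h5 (Nat.coprime_one_left q)
    exact ⟨m, m - 2, h1, h6, h2, h4 _ (by omega) h6, by omega,
      Or.inr ⟨by omega, by rw [show m - 2 + 1 = m - 1 by omega]; exact h5⟩, hmin⟩

end Pool.Agent.N183.U5
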