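import Mathlib
import Pool.Agent.N183.U5.Csep

/-!
# Arithmetic of the multiplicities of cyclic coverings, part two
-/

set_option linter.unusedSectionVars false

namespace Pool.Agent.N183.U5

/-- The integral part of `n a / q`. -/
def Hq (q n : ℕ) (a : ZMod q) : ℕ := n * a.val / q

variable {q n : ℕ}

theorem Hq_nat {m : ℕ} (hm : m < q) : Hq q n (m : ZMod q) = n * m / q := by
  unfold Hq
  rw [ZMod.val_natCast, Nat.mod_eq_of_lt hm]

theorem Hq_neg [NeZero q] (hq : 1 < q) (hnq : n.Coprime q) (a : (ZMod q)ˣ) :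
    Hq q n a + Hq q n (-(a : ZMod q)) + 1 = n := by
  have : Fact (1 < q) := ⟨hq⟩
  have ha0 : (a : ZMod q) ≠ 0 := a.ne_zero
  have h1 : (-(a : ZMod q)).val = q - (a : ZMod q).val := by
    have : NeZero (a : ZMod q) := ⟨ha0⟩
    exact ZMod.val_neg_of_ne_zero _
  have h2 := ZMod.val_lt (a : ZMod q)
  have h3 : (a : ZMod q).val.Coprime q := ZMod.val_coe_unit_coprime a
  have h4 : ¬q ∣ n * (a : ZMod q).val := by
    intro h5
    have h6 := Nat.Coprime.dvd_of_dvd_mul_left hnq.symm h5
    have h7 : q = 1 := Nat.eq_one_of_dvd_coprimes h3.symm dvd_rfl h6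
    omega
  unfold Hq
  rw [h1]
  set v := (a : ZMod q).val with hv
  have h5 := Nat.div_add_mod (n * v) q
  have h6 : 0 < n * v % q := Nat.pos_of_ne_zero fun h7 => h4 (Nat.dvd_of_mod_eq_zero h7)
  have h7 := Nat.mod_lt (n * v) (show 0 < q by omega)
  generalize hx : n * v / q = x at *
  generalize hr : n * v % q = r at *
  have hn0 : 0 < n := by
    rcases Nat.eq_zero_or_pos n with h8 | h8
    · rw [h8, Nat.coprime_zero_left] at hnq
      omega
    · exact h8
  have h8 : n * v < n * q := Nat.mul_lt_mul_of_pos_left h2 hn0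
  have h9 : x < n := by
    by_contra h9
    have h10 : q * n ≤ q * x := Nat.mul_le_mul_left q (by omega)
    rw [mul_comm n q] at h8
    omega
  obtain ⟨y, hy⟩ : ∃ y, n = x + 1 + y := ⟨n - (x + 1), by omega⟩
  have h10 : n * (q - v) = q * y + (q - r) := by
    have h11 : n * (q - v) + n * v = n * q := by
      rw [← mul_add, Nat.sub_add_cancel h2.le]
    have h12 : n * q = q * x + q + q * y := by
      rw [hy]
      ring
    omega
  have h11 : n * (q - v) / q = y := by
    rw [h10, Nat.mul_add_div (by omega), Nat.div_eq_of_lt (by omega), add_zero]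
  rw [h11, hy]
  ring

/-- Mixed places. -/
def Mq (q n : ℕ) (a : ZMod q) : Prop := Hq q n a ≠ 0 ∧ Hq q n (-a) ≠ 0

theorem Hq_ratio [NeZero q] (hq : IsPrimePow q) (hn : 4 ≤ n) (hnq : n.Coprime q) (c : (ZMod q)ˣ)
    (hM : ∃ u : (ZMod q)ˣ, Mq q n u)
    (h : ∀ u : (ZMod q)ˣ, Mq q n u ∨ Mq q n (c * u : ZMod q) → Hq q n u = Hq q n (c * u : ZMod q))
    (u : (ZMod q)ˣ) : Hq q n u = Hq q n (c * u : ZMod q) := by
  have hq1 : 1 < q := hq.one_lt
  have : Fact (1 < q) := ⟨hq1⟩
  rcases Nat.lt_or_ge q n with hlt | hge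
  · refine h u (Or.inl ⟨?_, ?_⟩)
    · have h1 : 0 < (u : ZMod q).val := by
        rw [Nat.pos_iff_ne_zero]
        intro h2
        exact u.ne_zero ((ZMod.val_eq_zero _).1 h2)
      have h2 : 1 ≤ n * (u : ZMod q).val / q := by
        rw [Nat.one_le_div_iff (by omega)]
        calc q ≤ n * 1 := by omega
          _ ≤ n * (u : ZMod q).val := Nat.mul_le_mul_left n h1
      unfold Hq
      omega
    · have h1 : 0 < (-(u : ZMod q)).val := by
        rw [Nat.pos_iff_ne_zero]
        intro h2
        exact u.ne_zero (neg_eq_zero.1 ((ZMod.val_eq_zero _).1 h2))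
      have h2 : 1 ≤ n * (-(u : ZMod q)).val / q := by
        rw [Nat.one_le_div_iff (by omega)]
        calc q ≤ n * 1 := by omega
          _ ≤ n * (-(u : ZMod q)).val := Nat.mul_le_mul_left n h1
      unfold Hq
      omega
  have hnq' : n < q := by
    rcases Nat.lt_or_ge n q with h1 | h1
    · exact h1
    · have h2 : n = q := by omega
      rw [h2, Nat.coprime_self] at hnq
      omega
  -- the element `c`
  have hH1 : Hq q n ((1 : (ZMod q)ˣ) : ZMod q) = 0 := by
    have h1 : ((1 : (ZMod q)ˣ) : ZMod q) = ((1 : ℕ) : ZMod q) := by simp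
    rw [h1, Hq_nat hq1, mul_one]
    exact Nat.div_eq_of_lt hnq'
  have hcM : ¬Mq q n (c : ZMod q) := by
    intro h1
    have h2 := h 1 (Or.inr (by rwa [Units.val_one, mul_one]))
    rw [hH1, Units.val_one, mul_one] at h2
    exact h1.1 h2.symm
  have hdef : ∀ a : (ZMod q)ˣ, Hq q n (a : ZMod q) = 0 → ∃ c0 : ℕ, 0 < c0 ∧ n * c0 < q ∧
      c0.Coprime q ∧ (a : ZMod q) = c0 := by
    intro a ha
    refine ⟨(a : ZMod q).val, ?_, ?_, ZMod.val_coe_unit_coprime a, by rw [ZMod.natCast_zmod_val]⟩
    · rw [Nat.pos_iff_ne_zero]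
      intro h2
      exact a.ne_zero ((ZMod.val_eq_zero _).1 h2)
    · unfold Hq at ha
      exact (Nat.div_eq_zero_iff_lt (by omega)).1 ha
  have hc : ∃ c0 : ℕ, 0 < c0 ∧ n * c0 < q ∧ c0.Coprime q ∧
      ((c : ZMod q) = c0 ∨ (c : ZMod q) = -(c0 : ZMod q)) := by
    by_cases h1 : Hq q n (c : ZMod q) = 0
    · obtain ⟨c0, h2, h3, h4, h5⟩ := hdef c h1
      exact ⟨c0, h2, h3, h4, Or.inl h5⟩
    · have h2 : Hq q n ((-c : (ZMod q)ˣ) : ZMod q) = 0 := by
        by_contra h3
        exact hcM ⟨h1, by rwa [Units.val_neg] at h3⟩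
      obtain ⟨c0, h2, h3, h4, h5⟩ := hdef (-c) h2
      refine ⟨c0, h2, h3, h4, Or.inr ?_⟩
      rw [Units.val_neg] at h5
      rw [← h5, neg_neg]
  obtain ⟨c0, hc0, hnc, hcq, hcc⟩ := hc
  have hval : ∀ j : ℕ, j < q → j.Coprime q → q < n * j → n * j < (n - 1) * q →
      Mq q n (j : ZMod q) ∧ Mq q n (-(j : ZMod q)) ∧ Hq q n (j : ZMod q) = n * j / q := by
    intro j hj hjq h1 h2
    have h3 := Hq_nat (n := n) hj
    have h4 := Hq_neg hq1 hnq (ZMod.unitOfCoprime j hjq)
    rw [ZMod.coe_unitOfCoprime] at h4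
    have h5 : 1 ≤ n * j / q := by
      rw [Nat.one_le_div_iff (by omega)]
      exact h1.le
    have h6 : n * j / q < n - 1 := Nat.div_lt_of_lt_mul (by rw [mul_comm q]; exact h2)
    refine ⟨⟨by omega, by omega⟩, ⟨by omega, by rw [neg_neg]; omega⟩, h3⟩
  rcases Nat.lt_or_ge 1 c0 with hc1 | hc1
  · -- the case `c0 ≥ 2`
    exfalso
    obtain ⟨m, m', e1, e2, e3, e4, e5, e6, e7⟩ := exists_min hq hc0 hnc (by omega) hnq
    have hmq : n * m < q := by
      rcases Nat.lt_or_ge c0 m with h1 | h1
      · rcases e6 with e6 | ⟨e6, e8⟩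
        · calc n * m ≤ n * (c0 * m') := Nat.mul_le_mul_left n (by
                rw [e6]
                calc m' + 1 ≤ 2 * m' := by omega
                  _ ≤ c0 * m' := Nat.mul_le_mul_right _ hc1)
            _ = n * c0 * m' := by ring
            _ < q := e4
        · have h2 : 2 ≤ m' := by
            by_contra h3
            have h4 : m' = 1 := by omega
            rw [h4] at e6 e8
            have h5 : c0 = 2 := by omega
            rw [h5] at hcq
            exact e8 hcq
          calc n * m ≤ n * (c0 * m') := Nat.mul_le_mul_left n (by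
                rw [e6]
                calc m' + 2 ≤ 2 * m' := by omega
                  _ ≤ c0 * m' := Nat.mul_le_mul_right _ hc1)
            _ = n * c0 * m' := by ring
            _ < q := e4
      · calc n * m ≤ n * c0 := Nat.mul_le_mul_left n h1
          _ < q := hnc
    have hup : n * (c0 * m) < (n - 1) * q := by
      have h1 : n * c0 * m ≤ n * c0 * (m' + 2) := Nat.mul_le_mul_left _ (by omega)
      have h2 : n * c0 * (m' + 2) = n * c0 * m' + 2 * (n * c0) := by ring
      have h3 : 3 * q ≤ (n - 1) * q := Nat.mul_le_mul_right q (by omega)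
      calc n * (c0 * m) = n * c0 * m := by ring
        _ < 3 * q := by omega
        _ ≤ (n - 1) * q := h3
    have hlt : c0 * m < q := by
      by_contra h1
      have h2 : n * q ≤ n * (c0 * m) := Nat.mul_le_mul_left n (by omega)
      have h3 : (n - 1) * q ≤ n * q := Nat.mul_le_mul_right q (by omega)
      omega
    have hcm : (c0 * m).Coprime q := Nat.Coprime.mul_left hcq e1
    obtain ⟨f1, f2, f3⟩ := hval (c0 * m) hlt hcm (by rw [← mul_assoc]; exact e3) hup
    have hmq' : m < q := by
      calc m ≤ n * m := Nat.le_mul_of_pos_left m (by omega)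
        _ < q := hmq
    have hHm : Hq q n (m : ZMod q) = 0 := by
      rw [Hq_nat hmq']
      exact Nat.div_eq_of_lt hmq
    have key : Mq q n ((c : ZMod q) * m) := by
      rcases hcc with h1 | h1
      · rw [h1, ← Nat.cast_mul]
        exact f1
      · rw [h1, neg_mul, ← Nat.cast_mul]
        exact f2
    have h2 := h (ZMod.unitOfCoprime m e1) (Or.inr (by
      rw [ZMod.coe_unitOfCoprime]
      exact key))
    rw [ZMod.coe_unitOfCoprime, hHm] at h2
    exact key.1 h2.symm
  · -- the case `c0 = 1`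
    have hc01 : c0 = 1 := by omega
    rw [hc01, Nat.cast_one] at hcc
    rcases hcc with h1 | h1
    · rw [h1, one_mul]
    exfalso
    obtain ⟨m, m', e1, e2, e3, e4, e5, e6, e7⟩ :=
      exists_min hq (c := 1) one_pos (by omega) (by omega) hnq
    rw [mul_one] at e3 e4 e7
    have hm1 : n * m < 3 * q := by
      have h2 : n * m ≤ n * (m' + 2) := Nat.mul_le_mul_left _ (by omega)
      have h3 : n * (m' + 2) = n * m' + 2 * n := by ring
      omega
    have hup : n * m < (n - 1) * q := by
      calc n * m < 3 * q := hm1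
        _ ≤ (n - 1) * q := Nat.mul_le_mul_right q (by omega)
    have hlt : m < q := by
      by_contra h2
      have h3 : n * q ≤ n * m := Nat.mul_le_mul_left n (by omega)
      have h4 : (n - 1) * q ≤ n * q := Nat.mul_le_mul_right q (by omega)
      omega
    obtain ⟨f1, f2, f3⟩ := hval m hlt e1 e3 hup
    have h2 := h (ZMod.unitOfCoprime m e1) (Or.inl (by rw [ZMod.coe_unitOfCoprime]; exact f1))
    rw [ZMod.coe_unitOfCoprime, h1, neg_one_mul] at h2
    have h3 := Hq_neg hq1 hnq (ZMod.unitOfCoprime m e1)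
    rw [ZMod.coe_unitOfCoprime, ← h2, f3] at h3
    have h4 : n * m / q < 3 := Nat.div_lt_of_lt_mul (by rw [mul_comm q]; exact hm1)
    have h5 : 1 ≤ n * m / q := by
      rw [Nat.one_le_div_iff (by omega)]
      exact e3.le
    have h6 : n = 5 := by omega
    have h7 : n * m / q = 2 := by omega
    subst h6
    have h8 : 2 * q ≤ 5 * m := by
      have h9 := Nat.div_mul_le_self (5 * m) q
      rw [h7] at h9
      exact h9
    have h9 : q < 10 := by omega
    have h10 : 5 < q := hnq'
    have h11 : q = 6 ∨ q = 7 ∨ q = 8 ∨ q = 9 := by omega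
    rcases h11 with h11 | h11 | h11 | h11
    · rw [h11] at hq
      exact absurd hq (by
        rw [isPrimePow_nat_iff]
        rintro ⟨p, k, hp, hk, hpk⟩
        have e1 : p ∣ 6 := by rw [← hpk]; exact dvd_pow_self p (by omega)
        have e2 : 2 ∣ p := by
          refine (Nat.Prime.dvd_of_dvd_pow Nat.prime_two (n := k) ?_)
          rw [hpk]
          norm_num
        have e3 : 3 ∣ p := by
          refine (Nat.Prime.dvd_of_dvd_pow Nat.prime_three (n := k) ?_)
          rw [hpk]
          norm_num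
        have e4 := (Nat.prime_dvd_prime_iff_eq Nat.prime_two hp).1 e2
        have e5 := (Nat.prime_dvd_prime_iff_eq Nat.prime_three hp).1 e3
        omega)
    · rw [h11] at e7 h8
      have h12 := e7 2 (by norm_num) (by norm_num)
      omega
    · rw [h11] at e7 h8
      have h12 := e7 3 (by norm_num) (by norm_num)
      omega
    · rw [h11] at e7 h8
      have h12 := e7 2 (by norm_num) (by norm_num)
      omega

end Pool.Agent.N183.U5
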