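import Mathlib
import Pool.Agent.H916R2.Indep
import Pool.Agent.N183.U5.Csep2

/-!
# The centre of a cyclic covering is nondegenerate
-/

set_option linter.unusedSectionVars false

namespace Pool.Agent.N183.U5

open Pool.Agent.H916R2 Finset

/-- Stickelberger sums for prime powers. -/
theorem SS_one_ne {q : ℕ} [NeZero q] (hq : IsPrimePow q) (χ : DirichletCharacter ℂ q)
    (hχ : χ.Odd) : SS χ 1 ≠ 0 := by
  intro h0
  obtain ⟨a, ha⟩ := exists_SS_ne_zero χ hχ
  apply ha
  obtain ⟨p, k, hp, hk, hpk⟩ := hq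
  have hp' : p.Prime := hp.nat_prime
  have hpk0 : (p : ZMod q) ^ k = 0 := by
    rw [← Nat.cast_pow, hpk, ZMod.natCast_self]
  have key : ∀ j : ℕ, j ≤ k → ∀ u : (ZMod q)ˣ, SS χ ((p : ZMod q) ^ j * u) = 0 := by
    intro j
    induction j with
    | zero =>
      intro _ u
      have h1 := SS_unit χ u 1
      rw [mul_one] at h1
      rw [pow_zero, one_mul, h1, h0, mul_zero]
    | succ j ih =>
      intro hj u
      rcases Nat.lt_or_ge (j + 1) k with h1 | h1
      · have hpd : p * p ^ (k - 1) = q := by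
          rw [← pow_succ', Nat.sub_add_cancel (by omega), hpk]
        have h2 := SS_dist χ hpd ((p : ZMod q) ^ j * u)
        rw [← mul_assoc, ← pow_succ'] at h2
        rw [← h2]
        refine Finset.sum_eq_zero fun i _ => ?_
        have h3 : (p : ZMod q) ^ j * (u : ZMod q) + (i : ZMod q) * ((p ^ (k - 1) : ℕ) : ZMod q) =
            (p : ZMod q) ^ j * ((u : ZMod q) + (i : ZMod q) * (p : ZMod q) ^ (k - 1 - j)) := by
          have h4 : (p : ZMod q) ^ (k - 1) = (p : ZMod q) ^ j * (p : ZMod q) ^ (k - 1 - j) := by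
            rw [← pow_add]
            congr 1
            omega
          rw [Nat.cast_pow, h4]
          ring
        rw [h3]
        have h5 : IsUnit ((u : ZMod q) + (i : ZMod q) * (p : ZMod q) ^ (k - 1 - j)) := by
          have h6 : IsNilpotent ((i : ZMod q) * (p : ZMod q) ^ (k - 1 - j)) := by
            refine ⟨k, ?_⟩
            rw [mul_pow, ← pow_mul, mul_comm (k - 1 - j) k, pow_mul, hpk0, zero_pow (by omega),
              mul_zero]
          exact h6.isUnit_add_left_of_commute u.isUnit (Commute.all _ _)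
        obtain ⟨w, hw⟩ := h5
        rw [← hw]
        exact ih (by omega) w
      · have h2 : j + 1 = k := by omega
        rw [h2, ← Nat.cast_pow, hpk, ZMod.natCast_self, zero_mul]
        unfold SS
        refine Finset.sum_eq_zero fun t _ => ?_
        rw [mul_zero, saw_zero, Int.cast_zero, mul_zero]
  by_cases ha0 : a = 0
  · rw [ha0]
    unfold SS
    refine Finset.sum_eq_zero fun t _ => ?_
    rw [mul_zero, saw_zero, Int.cast_zero, mul_zero]
  have hv : a.val ≠ 0 := fun h => ha0 ((ZMod.val_eq_zero a).1 h)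
  obtain ⟨j, m, hm, hjm⟩ := Nat.exists_eq_pow_mul_and_not_dvd hv p hp'.ne_one
  have hmq : m.Coprime q := by
    rw [← hpk]
    exact Nat.Coprime.pow_right k ((Nat.Prime.coprime_iff_not_dvd hp').2 hm).symm
  have hjk : j ≤ k := by
    by_contra h1
    have h2 : a.val < p ^ k := by
      rw [hpk]
      exact ZMod.val_lt a
    have h3 : p ^ k ≤ p ^ j := Nat.pow_le_pow_right hp'.pos (by omega)
    have h4 : 0 < m := Nat.pos_of_ne_zero fun h5 => by
      rw [h5, mul_zero] at hjm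
      exact hv hjm
    have h5 : p ^ j * 1 ≤ p ^ j * m := Nat.mul_le_mul_left _ h4
    omega
  have h1 : a = (p : ZMod q) ^ j * (ZMod.unitOfCoprime m hmq : (ZMod q)ˣ) := by
    rw [ZMod.coe_unitOfCoprime, ← Nat.cast_pow, ← Nat.cast_mul, ← hjm, ZMod.natCast_zmod_val]
  rw [h1]
  exact key j hjk _

/-- The relation between the integral part and the sawtooth. -/
theorem Hq_saw {q n : ℕ} [NeZero q] (hq : 1 < q) (hnq : n.Coprime q) (a : (ZMod q)ˣ) :
    2 * (q : ℤ) * Hq q n a = n * saw (a : ZMod q) - saw ((n : ZMod q) * (a : ZMod q)) + q * (n - 1) := by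
  have : Fact (1 < q) := ⟨hq⟩
  have ha0 : (a : ZMod q) ≠ 0 := a.ne_zero
  have hna0 : (n : ZMod q) * (a : ZMod q) ≠ 0 := by
    have h1 := (ZMod.unitOfCoprime n hnq * a).ne_zero
    rwa [Units.val_mul, ZMod.coe_unitOfCoprime] at h1
  unfold saw Hq
  rw [if_neg ha0, if_neg hna0]
  have h1 : ((n : ZMod q) * (a : ZMod q)).val = n * (a : ZMod q).val % q := by
    rw [ZMod.val_mul, ZMod.val_natCast, Nat.mod_mul_mod]
  rw [h1]
  have h2 := Nat.div_add_mod (n * (a : ZMod q).val) q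
  have h3 : (q : ℤ) * ((n * (a : ZMod q).val / q : ℕ) : ℤ) +
      ((n * (a : ZMod q).val % q : ℕ) : ℤ) = n * ((a : ZMod q).val : ℤ) := by
    exact_mod_cast h2
  linear_combination 2 * h3

/-- An odd function orthogonal to all the translates of the multiplicity function is zero. -/
theorem odd_zero {q n : ℕ} [NeZero q] (hq : IsPrimePow q) (hn : 2 ≤ n) (hnq : n.Coprime q)
    (C : (ZMod q)ˣ → ℂ) (hC : ∀ a, C (-a) = -C a)
    (h : ∀ t : (ZMod q)ˣ, ∑ a, C a * (Hq q n ((t : ZMod q) * (a : ZMod q)) : ℂ) = 0) (b : (ZMod q)ˣ) :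
    C b = 0 := by
  classical
  have hq1 : 1 < q := hq.one_lt
  have hq0 : (q : ℂ) ≠ 0 := Nat.cast_ne_zero.2 (by omega)
  have hsum : ∑ a, C a = 0 := by
    have h1 : ∑ a, C a = ∑ a, C (-a) := (Equiv.sum_comp (Equiv.neg _) _).symm
    rw [Finset.sum_congr rfl fun a _ => hC a, Finset.sum_neg_distrib] at h1
    linear_combination h1 / 2
  have h1 : ∀ t : (ZMod q)ˣ, ∑ a, C a * ((n : ℂ) * (saw ((t : ZMod q) * (a : ZMod q)) : ℂ) -
      (saw ((t : ZMod q) * ((n : ZMod q) * (a : ZMod q))) : ℂ)) = 0 := by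
    intro t
    have h2 : ∀ a : (ZMod q)ˣ, (n : ℂ) * (saw ((t : ZMod q) * (a : ZMod q)) : ℂ) -
        (saw ((t : ZMod q) * ((n : ZMod q) * (a : ZMod q))) : ℂ) =
          2 * q * (Hq q n ((t : ZMod q) * (a : ZMod q)) : ℂ) - q * (n - 1) := by
      intro a
      have h3 := Hq_saw hq1 hnq (t * a)
      rw [Units.val_mul] at h3
      have h4 := congrArg (fun x : ℤ => (x : ℂ)) h3
      push_cast at h4
      rw [show (t : ZMod q) * ((n : ZMod q) * (a : ZMod q)) = n * (t * a) by ring]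
      linear_combination -h4
    rw [Finset.sum_congr rfl fun a _ => by rw [h2 a]]
    have h3 : ∀ a : (ZMod q)ˣ, C a * (2 * q * (Hq q n ((t : ZMod q) * (a : ZMod q)) : ℂ) - q * (n - 1)) =
        2 * q * (C a * (Hq q n ((t : ZMod q) * (a : ZMod q)) : ℂ)) - q * (n - 1) * C a := fun a => by ring
    rw [Finset.sum_congr rfl fun a _ => h3 a, Finset.sum_sub_distrib, ← Finset.mul_sum,
      ← Finset.mul_sum, h t, hsum]
    ring
  have hodd : ∀ χ : DirichletCharacter ℂ q, χ.Odd → ∑ a : (ZMod q)ˣ, C a * (χ a)⁻¹ = 0 := by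
    intro χ hχ
    have h2 : ∑ t : (ZMod q)ˣ, χ t * ∑ a, C a * ((n : ℂ) * (saw ((t : ZMod q) * (a : ZMod q)) : ℂ) -
      (saw ((t : ZMod q) * ((n : ZMod q) * (a : ZMod q))) : ℂ)) = 0 :=
      Finset.sum_eq_zero fun t _ => by rw [h1 t, mul_zero]
    have h3 : ∑ t : (ZMod q)ˣ, χ t * ∑ a, C a * ((n : ℂ) * (saw ((t : ZMod q) * (a : ZMod q)) : ℂ) -
        (saw ((t : ZMod q) * ((n : ZMod q) * (a : ZMod q))) : ℂ)) =
          ∑ a : (ZMod q)ˣ, C a * (n * SS χ a - SS χ ((n : ZMod q) * (a : ZMod q))) := by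
      simp only [Finset.mul_sum]
      rw [Finset.sum_comm]
      refine Finset.sum_congr rfl fun a _ => ?_
      unfold SS
      rw [Finset.mul_sum, ← Finset.sum_sub_distrib, Finset.mul_sum]
      refine Finset.sum_congr rfl fun t _ => by ring
    have h4 : ∀ a : (ZMod q)ˣ, SS χ a = (χ a)⁻¹ * SS χ 1 := by
      intro a
      have h5 := SS_unit χ a 1
      rwa [mul_one] at h5
    have h5 : ∀ a : (ZMod q)ˣ, SS χ ((n : ZMod q) * (a : ZMod q)) = (χ n)⁻¹ * (χ a)⁻¹ * SS χ 1 := by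
      intro a
      have h6 := SS_unit χ (ZMod.unitOfCoprime n hnq) (a : ZMod q)
      rw [ZMod.coe_unitOfCoprime, h4] at h6
      rw [h6]
      ring
    rw [h3, Finset.sum_congr rfl fun a _ => by rw [h4 a, h5 a]] at h2
    have h6 : ∀ a : (ZMod q)ˣ, C a * (n * ((χ a)⁻¹ * SS χ 1) - (χ n)⁻¹ * (χ a)⁻¹ * SS χ 1) =
        ((n - (χ n)⁻¹) * SS χ 1) * (C a * (χ a)⁻¹) := fun a => by ring
    rw [Finset.sum_congr rfl fun a _ => h6 a, ← Finset.mul_sum] at h2
    refine (mul_eq_zero.1 h2).resolve_left (mul_ne_zero ?_ (SS_one_ne hq χ hχ))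
    intro h7
    have h8 : ‖(χ (n : ZMod q))⁻¹‖ = 1 := by
      rw [norm_inv, ← ZMod.coe_unitOfCoprime n hnq, DirichletCharacter.unit_norm_eq_one, inv_one]
    rw [← sub_eq_zero.1 h7, Complex.norm_natCast] at h8
    have h9 : n = 1 := by exact_mod_cast h8
    omega
  have hall : ∀ χ : DirichletCharacter ℂ q, ∑ a : (ZMod q)ˣ, C a * (χ a)⁻¹ = 0 := by
    intro χ
    rcases χ.even_or_odd with he | ho
    · have h2 : ∑ a : (ZMod q)ˣ, C a * (χ a)⁻¹ = ∑ a : (ZMod q)ˣ, C (-a) * (χ (-a : (ZMod q)ˣ))⁻¹ :=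
        (Equiv.sum_comp (Equiv.neg _) (fun a : (ZMod q)ˣ => C a * (χ a)⁻¹)).symm
      have h3 : ∀ a : (ZMod q)ˣ, C (-a) * (χ (-a : (ZMod q)ˣ))⁻¹ = -(C a * (χ a)⁻¹) := by
        intro a
        rw [hC, Units.val_neg, he.eval_neg]
        ring
      rw [Finset.sum_congr rfl fun a _ => h3 a, Finset.sum_neg_distrib] at h2
      linear_combination h2 / 2
    · exact hodd χ ho
  have h2 : ∑ χ : DirichletCharacter ℂ q, χ b * ∑ a : (ZMod q)ˣ, C a * (χ a)⁻¹ = 0 :=
    Finset.sum_eq_zero fun χ _ => by rw [hall χ, mul_zero]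
  have h3 : ∑ χ : DirichletCharacter ℂ q, χ b * ∑ a : (ZMod q)ˣ, C a * (χ a)⁻¹ =
      ∑ a : (ZMod q)ˣ, C a * ∑ χ : DirichletCharacter ℂ q, χ (a : ZMod q)⁻¹ * χ b := by
    simp only [Finset.mul_sum]
    rw [Finset.sum_comm]
    refine Finset.sum_congr rfl fun a _ => Finset.sum_congr rfl fun χ _ => ?_
    have h4 : χ ((a : ZMod q)⁻¹) = (χ a)⁻¹ := by
      have h5 : χ (a : ZMod q) * χ ((a : ZMod q)⁻¹) = 1 := by
        rw [← map_mul, ZMod.mul_inv_of_unit _ a.isUnit, map_one]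
      exact (inv_eq_of_mul_eq_one_right h5).symm
    rw [h4]
    ring
  rw [h3] at h2
  have h4 : ∀ a : (ZMod q)ˣ, C a * ∑ χ : DirichletCharacter ℂ q, χ (a : ZMod q)⁻¹ * χ b =
      if a = b then C a * (q.totient : ℂ) else 0 := by
    intro a
    rw [DirichletCharacter.sum_char_inv_mul_char_eq ℂ a.isUnit (b : ZMod q)]
    by_cases h5 : a = b
    · rw [if_pos h5, if_pos (by rw [h5])]
    · rw [if_neg h5, if_neg (fun h6 => h5 (Units.ext h6)), mul_zero]
  rw [Finset.sum_congr rfl fun a _ => h4 a, Finset.sum_ite_eq' Finset.univ b,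
    if_pos (Finset.mem_univ b)] at h2
  have h5 : (q.totient : ℂ) ≠ 0 := Nat.cast_ne_zero.2 (Nat.totient_pos.2 (by omega)).ne'
  exact (mul_eq_zero.1 h2).resolve_right h5

end Pool.Agent.N183.U5
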