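import Mathlib
import Pool.Agent.N183.U5.Csaw
import Pool.Agent.N183.U5.Stm2

/-!
# The multiplicity functions of cyclic coverings are separated and nondegenerate
-/

set_option linter.unusedSectionVars false

namespace Pool.Agent.N183.U5

/-- The multiplicity function of a product of factors of *superelliptic type*, of orders `q` in the
set `P`, and of factors with totally real centres. For `q` in `P` the homomorphisms `ℚ(ζ) → ℂ` are
given by the primitive roots of unity of order `q`, and the multiplicity of `ζ ^ i` (for `i` prime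
to `q`, `i < q`) is `k q` times the integral part of `n q * i / q`, as for the new part of the
Jacobian of the curve `y ^ q = f (x)`, where `f` is a separable polynomial of degree `n q`. The
others occurring in the tangent space are totally real. -/
def IsSuperelliptic (P : Finset ℕ) (n k : ℕ → ℕ) (N : ℂ → ℕ) : Prop :=
  (∀ q ∈ P, ∃ ζ : ℂ, IsPrimitiveRoot ζ q ∧
    ∀ i < q, i.Coprime q → N (ζ ^ i) = k q * (n q * i / q)) ∧
  ∀ s, N s ≠ 0 → (∃ q ∈ P, IsPrimitiveRoot s q) ∨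
    ∀ τ : ℂ ≃+* ℂ, starRingEnd ℂ (τ s) = τ s

/-- The multiplicity function is of superelliptic type for finitely many prime powers `q` which are
pairwise prime, with degrees `n q ≥ 4` prime to `q`. -/
def Superelliptic (N : ℂ → ℕ) : Prop :=
  ∃ (P : Finset ℕ) (n k : ℕ → ℕ), IsSuperelliptic P n k N ∧
    (∀ q ∈ P, IsPrimePow q ∧ 4 ≤ n q ∧ (n q).Coprime q) ∧
      ∀ q ∈ P, ∀ q' ∈ P, q ≠ q' → q.Coprime q'

section

variable {q : ℕ} [NeZero q] {ζ : ℂ} (hζ : IsPrimitiveRoot ζ q)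
include hζ

theorem pr_pow (a b : ZMod q) : (ζ ^ a.val) ^ b.val = ζ ^ (a * b).val := by
  rw [← pow_mul, ZMod.val_mul, pow_eq_pow_mod _ hζ.pow_eq_one]

theorem pr_unit (a : (ZMod q)ˣ) : IsPrimitiveRoot (ζ ^ (a : ZMod q).val) q :=
  hζ.pow_of_coprime _ (ZMod.val_coe_unit_coprime a)

theorem pr_ex {s : ℂ} (hs : IsPrimitiveRoot s q) : ∃ a : (ZMod q)ˣ, s = ζ ^ (a : ZMod q).val := by
  obtain ⟨i, hi, hiq, rfl⟩ := hζ.isPrimitiveRoot_iff.1 hs
  refine ⟨ZMod.unitOfCoprime i hiq, ?_⟩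
  rw [ZMod.coe_unitOfCoprime, ZMod.val_natCast, Nat.mod_eq_of_lt hi]

theorem pr_conj (a : ZMod q) : starRingEnd ℂ (ζ ^ a.val) = ζ ^ (-a).val := by
  have h1 : starRingEnd ℂ ζ = ζ⁻¹ := by
    rw [Complex.inv_eq_conj]
    exact hζ.norm'_eq_one (NeZero.ne q)
  have h2 : ζ ^ a.val * ζ ^ (-a).val = 1 := by
    rw [← pow_add, pow_eq_pow_mod _ hζ.pow_eq_one, ← ZMod.val_add, add_neg_cancel, ZMod.val_zero,
      pow_zero]
  rw [map_pow, h1, inv_pow]
  exact inv_eq_of_mul_eq_one_right h2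

theorem pr_aut (τ : ℂ ≃+* ℂ) : ∃ t : (ZMod q)ˣ, ∀ a : ZMod q,
    τ (ζ ^ a.val) = ζ ^ ((t : ZMod q) * a).val := by
  obtain ⟨t, ht⟩ := pr_ex hζ (hζ.map_of_injective τ.injective)
  exact ⟨t, fun a => by rw [map_pow, ht, pr_pow hζ]⟩

/-- An automorphism with given action on the roots of unity of order `q`, and trivial on the roots
of unity of an order prime to `q`. -/
theorem pr_aut' {Q : ℕ} (hQ : Q ≠ 0) (hqQ : q.Coprime Q) (t : (ZMod q)ˣ) :
    ∃ τ : ℂ ≃+* ℂ, (∀ a : ZMod q, τ (ζ ^ a.val) = ζ ^ ((t : ZMod q) * a).val) ∧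
      ∀ z : ℂ, z ^ Q = 1 → τ z = z := by
  have hqQ0 : q * Q ≠ 0 := mul_ne_zero (NeZero.ne q) hQ
  have : NeZero (q * Q) := ⟨hqQ0⟩
  let ω : ℂ := Complex.exp (2 * Real.pi * Complex.I / ((q * Q : ℕ) : ℂ))
  have hω : IsPrimitiveRoot ω (q * Q) := Complex.isPrimitiveRoot_exp _ hqQ0
  obtain ⟨x, hx1, hx2⟩ := Nat.chineseRemainder hqQ (t : ZMod q).val 1
  have hxq : x.Coprime q := by
    have h1 := ZMod.val_coe_unit_coprime t
    unfold Nat.Coprime at *
    rw [Nat.ModEq.gcd_eq hx1, h1]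
  have hxQ : x.Coprime Q := by
    unfold Nat.Coprime
    rw [Nat.ModEq.gcd_eq hx2, Nat.gcd_one_left]
  obtain ⟨τ, hτ⟩ := exists_cyc hω (hω.pow_of_coprime x (Nat.Coprime.mul_right hxq hxQ))
  have hroot : ∀ z : ℂ, z ^ (q * Q) = 1 → τ z = z ^ x := by
    intro z hz
    obtain ⟨i, -, rfl⟩ := hω.eq_pow_of_pow_eq_one hz
    rw [map_pow, hτ, ← pow_mul, ← pow_mul, mul_comm]
  refine ⟨τ, fun a => ?_, fun z hz => ?_⟩
  · rw [hroot _ (by rw [← pow_mul, mul_comm, mul_assoc, pow_mul, hζ.pow_eq_one, one_pow]),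
      ← pow_mul]
    have h1 : (((t : ZMod q) * a).val) ≡ a.val * x [MOD q] := by
      rw [ZMod.val_mul]
      refine (Nat.mod_modEq _ _).trans ?_
      rw [mul_comm]
      exact Nat.ModEq.mul_left _ hx1.symm
    exact (pow_eq_pow_of_modEq h1.symm hζ.pow_eq_one)
  · rw [hroot z (by rw [mul_comm, pow_mul, hz, one_pow])]
    have h1 := pow_eq_pow_of_modEq hx2 hz
    rwa [pow_one] at h1

end

/-- The case of one order. -/
theorem sep_same {q n k : ℕ} [NeZero q] {N : ℂ → ℕ} (hq : IsPrimePow q) (hn : 4 ≤ n)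
    (hnq : n.Coprime q) {ζ : ℂ} (hζ : IsPrimitiveRoot ζ q)
    (hN : ∀ a : (ZMod q)ˣ, N (ζ ^ (a : ZMod q).val) = k * Hq q n a) (a b : (ZMod q)ˣ)
    (hs : ∃ τ : ℂ ≃+* ℂ, IsMixed N (τ (ζ ^ (a : ZMod q).val)))
    (hs' : ∃ τ : ℂ ≃+* ℂ, N (τ (ζ ^ (a : ZMod q).val)) *
      N (starRingEnd ℂ (τ (ζ ^ (b : ZMod q).val))) ≠
        N (τ (ζ ^ (b : ZMod q).val)) * N (starRingEnd ℂ (τ (ζ ^ (a : ZMod q).val)))) :
    ∃ τ : ℂ ≃+* ℂ, N (τ (ζ ^ (a : ZMod q).val)) *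
      N (starRingEnd ℂ (τ (ζ ^ (b : ZMod q).val))) ≠
        N (τ (ζ ^ (b : ZMod q).val)) * N (starRingEnd ℂ (τ (ζ ^ (a : ZMod q).val))) ∧
          (IsMixed N (τ (ζ ^ (a : ZMod q).val)) ∨ IsMixed N (τ (ζ ^ (b : ZMod q).val))) := by
  have hq1 : 1 < q := hq.one_lt
  have : Fact (1 < q) := ⟨hq1⟩
  have hτ : ∀ (τ : ℂ ≃+* ℂ) (t : (ZMod q)ˣ), (∀ a : ZMod q,
      τ (ζ ^ a.val) = ζ ^ ((t : ZMod q) * a).val) → ∀ a : (ZMod q)ˣ,
        N (τ (ζ ^ (a : ZMod q).val)) = k * Hq q n (t * a : (ZMod q)ˣ) ∧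
          N (starRingEnd ℂ (τ (ζ ^ (a : ZMod q).val))) =
            k * Hq q n (-((t * a : (ZMod q)ˣ) : ZMod q)) := by
    intro τ t ht a
    rw [ht, ← Units.val_mul, pr_conj hζ, ← Units.val_neg, hN, hN]
    exact ⟨rfl, rfl⟩
  by_contra hcon
  push Not at hcon
  obtain ⟨τ0, hm⟩ := hs
  obtain ⟨t0, ht0⟩ := pr_aut hζ τ0
  obtain ⟨f1, f2⟩ := hτ τ0 t0 ht0 a
  have hk : k ≠ 0 := by
    intro hk
    apply hm.1
    rw [f1, hk, zero_mul]
  have hM : ∃ u : (ZMod q)ˣ, Mq q n u := by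
    refine ⟨t0 * a, ?_, ?_⟩
    · intro h3
      exact hm.1 (by rw [f1, h3, mul_zero])
    · intro h3
      exact hm.2 (by rw [f2, h3, mul_zero])
  have hmix : ∀ (τ : ℂ ≃+* ℂ) (t : (ZMod q)ˣ), (∀ a : ZMod q,
      τ (ζ ^ a.val) = ζ ^ ((t : ZMod q) * a).val) → ∀ a : (ZMod q)ˣ,
        Mq q n ((t * a : (ZMod q)ˣ) : ZMod q) → IsMixed N (τ (ζ ^ (a : ZMod q).val)) := by
    intro τ t ht a h3
    obtain ⟨g1, g2⟩ := hτ τ t ht a
    refine ⟨?_, ?_⟩
    · rw [g1]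
      exact mul_ne_zero hk h3.1
    · rw [g2]
      exact mul_ne_zero hk h3.2
  have hn1 : 0 < n - 1 := by omega
  have key := Hq_ratio hq hn hnq (b * a⁻¹) hM (fun u h3 => by
    obtain ⟨τ, ht, -⟩ := pr_aut' hζ one_ne_zero (Nat.coprime_one_right q) (u * a⁻¹)
    obtain ⟨g1, g2⟩ := hτ τ _ ht a
    obtain ⟨g3, g4⟩ := hτ τ _ ht b
    have e3 : u * a⁻¹ * a = u := by group
    have e4 : u * a⁻¹ * b = b * a⁻¹ * u := by
      rw [mul_assoc, mul_comm a⁻¹ b, mul_comm]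
    by_contra h4
    have h5 : N (τ (ζ ^ (a : ZMod q).val)) * N (starRingEnd ℂ (τ (ζ ^ (b : ZMod q).val))) ≠
        N (τ (ζ ^ (b : ZMod q).val)) * N (starRingEnd ℂ (τ (ζ ^ (a : ZMod q).val))) := by
      rw [g1, g2, g3, g4, e3, e4]
      intro h6
      apply h4
      have h7 := Hq_neg hq1 hnq u
      have h8 := Hq_neg hq1 hnq (b * a⁻¹ * u)
      have h9 : k * k * (Hq q n u * Hq q n (-((b * a⁻¹ * u : (ZMod q)ˣ) : ZMod q))) =
          k * k * (Hq q n ((b * a⁻¹ * u : (ZMod q)ˣ) : ZMod q) * Hq q n (-(u : ZMod q))) := by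
        calc _ = k * Hq q n u * (k * Hq q n (-((b * a⁻¹ * u : (ZMod q)ˣ) : ZMod q))) := by ring
          _ = _ := h6
          _ = _ := by ring
      have h10 := Nat.eq_of_mul_eq_mul_left (Nat.mul_pos (Nat.pos_of_ne_zero hk)
        (Nat.pos_of_ne_zero hk)) h9
      rw [← Units.val_mul]
      set x := Hq q n (u : ZMod q) with hx
      set y := Hq q n ((b * a⁻¹ * u : (ZMod q)ˣ) : ZMod q) with hy
      have h11 : Hq q n (-(u : ZMod q)) = n - 1 - x := by omega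
      have h12 : Hq q n (-((b * a⁻¹ * u : (ZMod q)ˣ) : ZMod q)) = n - 1 - y := by omega
      rw [h11, h12] at h10
      have h13 : x * (n - 1 - y) + x * y = x * (n - 1) := by
        rw [← mul_add]
        congr 1
        omega
      have h14 : y * (n - 1 - x) + x * y = y * (n - 1) := by
        rw [mul_comm x y, ← mul_add]
        congr 1
        omega
      have h15 : x * (n - 1) = y * (n - 1) := by omega
      exact Nat.eq_of_mul_eq_mul_right hn1 h15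
    obtain ⟨h6, h7⟩ := hcon τ h5
    rcases h3 with h3 | h3
    · exact h6 (hmix τ _ ht a (by rw [e3]; exact h3))
    · exact h7 (hmix τ _ ht b (by rw [e4, Units.val_mul]; exact h3)))
  obtain ⟨τ, h3⟩ := hs'
  obtain ⟨t, ht⟩ := pr_aut hζ τ
  obtain ⟨g1, g2⟩ := hτ τ t ht a
  obtain ⟨g3, g4⟩ := hτ τ t ht b
  apply h3
  have h4 := key (t * a)
  have h5 : ((b * a⁻¹ : (ZMod q)ˣ) : ZMod q) * ((t * a : (ZMod q)ˣ) : ZMod q) =
      ((t * b : (ZMod q)ˣ) : ZMod q) := by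
    rw [← Units.val_mul]
    congr 1
    rw [mul_comm t a, mul_assoc, inv_mul_cancel_left, mul_comm]
  rw [h5] at h4
  have h6 := Hq_neg hq1 hnq (t * a)
  have h7 := Hq_neg hq1 hnq (t * b)
  have h8 : Hq q n (-((t * a : (ZMod q)ˣ) : ZMod q)) = Hq q n (-((t * b : (ZMod q)ˣ) : ZMod q)) := by
    omega
  rw [g1, g2, g3, g4, h4, h8]

/-- The case of two orders. -/
theorem sep_two {q q' n n' k k' : ℕ} [NeZero q] [NeZero q'] {N : ℂ → ℕ} (hq : IsPrimePow q)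
    (hq' : IsPrimePow q') (hqq : q'.Coprime q) (h3 : 3 ≤ q') (hn' : 4 ≤ n') (hnq' : n'.Coprime q')
    {ζ ζ' : ℂ} (hζ : IsPrimitiveRoot ζ q) (hζ' : IsPrimitiveRoot ζ' q')
    (hN : ∀ a : (ZMod q)ˣ, N (ζ ^ (a : ZMod q).val) = k * Hq q n a)
    (hN' : ∀ a : (ZMod q')ˣ, N (ζ' ^ (a : ZMod q').val) = k' * Hq q' n' a)
    (a : (ZMod q)ˣ) (b : (ZMod q')ˣ)
    (hs : ∃ τ : ℂ ≃+* ℂ, IsMixed N (τ (ζ ^ (a : ZMod q).val)))
    (hs' : ∃ τ : ℂ ≃+* ℂ, N (τ (ζ ^ (a : ZMod q).val)) *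
      N (starRingEnd ℂ (τ (ζ' ^ (b : ZMod q').val))) ≠
        N (τ (ζ' ^ (b : ZMod q').val)) * N (starRingEnd ℂ (τ (ζ ^ (a : ZMod q).val)))) :
    ∃ τ : ℂ ≃+* ℂ, N (τ (ζ ^ (a : ZMod q).val)) *
      N (starRingEnd ℂ (τ (ζ' ^ (b : ZMod q').val))) ≠
        N (τ (ζ' ^ (b : ZMod q').val)) * N (starRingEnd ℂ (τ (ζ ^ (a : ZMod q).val))) ∧
          (IsMixed N (τ (ζ ^ (a : ZMod q).val)) ∨ IsMixed N (τ (ζ' ^ (b : ZMod q').val))) := by
  have hq1 : 1 < q := hq.one_lt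
  have hq1' : 1 < q' := hq'.one_lt
  have : Fact (1 < q) := ⟨hq1⟩
  have : Fact (1 < q') := ⟨hq1'⟩
  by_contra hcon
  push Not at hcon
  have hk' : k' ≠ 0 := by
    intro hk
    obtain ⟨τ, h4⟩ := hs'
    obtain ⟨t, ht⟩ := pr_aut hζ' τ
    apply h4
    rw [ht, ← Units.val_mul, pr_conj hζ', ← Units.val_neg, hN', hN', hk, zero_mul, zero_mul,
      mul_zero, zero_mul]
  obtain ⟨τ0, hm⟩ := hs
  obtain ⟨t0, ht0⟩ := pr_aut hζ τ0
  obtain ⟨t0', ht0'⟩ := pr_aut hζ' τ0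
  have f0 := ht0 a
  have f1 : N (τ0 (ζ ^ (a : ZMod q).val)) = k * Hq q n (t0 * a : (ZMod q)ˣ) := by
    rw [ht0, ← Units.val_mul, hN]
  have f2 : N (starRingEnd ℂ (τ0 (ζ ^ (a : ZMod q).val))) =
      k * Hq q n (-((t0 * a : (ZMod q)ˣ) : ZMod q)) := by
    rw [ht0, ← Units.val_mul, pr_conj hζ, ← Units.val_neg, hN]
  have hm' := hm
  obtain ⟨hm1, hm2⟩ := hm
  rw [f1] at hm1
  rw [f2] at hm2
  set x := Hq q n ((t0 * a : (ZMod q)ˣ) : ZMod q) with hx
  set y := Hq q n (-((t0 * a : (ZMod q)ˣ) : ZMod q)) with hy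
  have hk : k ≠ 0 := left_ne_zero_of_mul hm1
  have key : ∀ v : (ZMod q')ˣ, x * Hq q' n' (-(v : ZMod q')) = Hq q' n' (v : ZMod q') * y := by
    intro v
    obtain ⟨τ, ht, ht'⟩ := pr_aut' hζ' (NeZero.ne q) hqq (v * (t0' * b)⁻¹)
    have g1 : (τ0.trans τ) (ζ ^ (a : ZMod q).val) = τ0 (ζ ^ (a : ZMod q).val) := by
      rw [RingEquiv.trans_apply]
      apply ht'
      rw [← map_pow, ← pow_mul, mul_comm, pow_mul, hζ.pow_eq_one, one_pow, map_one]
    have g2 : (τ0.trans τ) (ζ' ^ (b : ZMod q').val) = ζ' ^ (v : ZMod q').val := by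
      rw [RingEquiv.trans_apply, ht0', ht, ← Units.val_mul, ← Units.val_mul]
      congr 2
      rw [inv_mul_cancel_right]
    by_contra h4
    have h5 := hcon (τ0.trans τ) (by
      rw [g1, g2, f1, f2, pr_conj hζ', ← Units.val_neg, hN', hN']
      intro h6
      apply h4
      have h7 : k * k' * (x * Hq q' n' (-(v : ZMod q'))) =
          k * k' * (Hq q' n' (v : ZMod q') * y) := by
        rw [← Units.val_neg]
        calc _ = k * x * (k' * Hq q' n' ((-v : (ZMod q')ˣ) : ZMod q')) := by ring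
          _ = _ := h6
          _ = _ := by ring
      exact Nat.eq_of_mul_eq_mul_left (Nat.mul_pos (Nat.pos_of_ne_zero hk)
        (Nat.pos_of_ne_zero hk')) h7)
    rw [g1] at h5
    exact h5.1 hm'
  have h4 := key 1
  have h5 := key (-1)
  rw [Units.val_neg, neg_neg] at h5
  have h6 := Hq_neg hq1' hnq' 1
  rw [Units.val_one] at h4 h5 h6
  set u := Hq q' n' (1 : ZMod q') with hu
  set w := Hq q' n' (-1 : ZMod q') with hw
  have h7 : x = y := by
    have h8 : (u + w) * x = (u + w) * y := by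
      calc (u + w) * x = x * w + x * u := by ring
        _ = u * y + w * y := by rw [h4, h5]
        _ = (u + w) * y := by ring
    exact Nat.eq_of_mul_eq_mul_left (by omega) h8
  have hx0 : 0 < x := Nat.pos_of_ne_zero (right_ne_zero_of_mul hm1)
  rw [← h7, mul_comm u x] at h4
  have h8 : w = u := Nat.eq_of_mul_eq_mul_left hx0 h4
  have h9 : u = n' / q' := by
    rw [hu]
    unfold Hq
    rw [ZMod.val_one, mul_one]
  have h10 : n' / q' ≤ n' / 3 := Nat.div_le_div_left h3 (by norm_num)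
  omega

/-- Separation. -/
theorem IsSuperelliptic.sep {P : Finset ℕ} {n k : ℕ → ℕ} {N : ℂ → ℕ} (h : IsSuperelliptic P n k N)
    (hP : ∀ q ∈ P, IsPrimePow q ∧ 4 ≤ n q ∧ (n q).Coprime q)
    (hcop : ∀ q ∈ P, ∀ q' ∈ P, q ≠ q' → q.Coprime q') : IsSeparated N := by
  classical
  obtain ⟨h1, h2⟩ := h
  intro s s' hs hs'
  let R : ℂ → Prop := fun s => ∀ τ : ℂ ≃+* ℂ, starRingEnd ℂ (τ s) = τ s
  have hcase : ∀ s (τ : ℂ ≃+* ℂ), N (τ s) ≠ 0 → (∃ q ∈ P, 3 ≤ q ∧ IsPrimitiveRoot s q) ∨ R s := by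
    intro s τ h3
    rcases h2 _ h3 with ⟨q, hq, h4⟩ | h4
    · have h5 : IsPrimitiveRoot s q := IsPrimitiveRoot.of_map_of_injective h4 τ.injective
      rcases Nat.lt_or_ge q 3 with h6 | h6
      · right
        have h7 : q = 2 := by
          have h8 := (hP q hq).1.one_lt
          omega
        rw [h7] at h5
        have h8 : s = -1 := h5.eq_neg_one_of_two_right
        intro σ
        rw [h8, map_neg, map_one, map_neg, map_one]
      · exact Or.inl ⟨q, hq, h6, h5⟩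
    · right
      intro σ
      have h5 := h4 (τ.symm.trans σ)
      rwa [RingEquiv.trans_apply, RingEquiv.symm_apply_apply] at h5
  have hcase' : ∀ s (τ : ℂ ≃+* ℂ), N (starRingEnd ℂ (τ s)) ≠ 0 →
      (∃ q ∈ P, 3 ≤ q ∧ IsPrimitiveRoot s q) ∨ R s := fun s τ h3 =>
    hcase s (τ.trans Complex.conjAe.toRingEquiv) h3
  have e1 : (∃ q ∈ P, 3 ≤ q ∧ IsPrimitiveRoot s q) ∨ R s := by
    obtain ⟨τ, h3, -⟩ := hs
    exact hcase s τ h3
  have e2 : (∃ q ∈ P, 3 ≤ q ∧ IsPrimitiveRoot s' q) ∨ R s' := by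
    obtain ⟨τ, h3⟩ := hs'
    by_contra h4
    apply h3
    have h5 : N (τ s') = 0 := by
      by_contra h5
      exact h4 (hcase s' τ h5)
    have h6 : N (starRingEnd ℂ (τ s')) = 0 := by
      by_contra h6
      exact h4 (hcase' s' τ h6)
    rw [h5, h6, zero_mul, mul_zero]
  rcases e2 with ⟨q', hq', h3', hs1'⟩ | hR'
  · rcases e1 with ⟨q, hq, h3, hs1⟩ | hR
    · obtain ⟨hp, hn, hnq⟩ := hP q hq
      obtain ⟨hp', hn', hnq'⟩ := hP q' hq'
      have : NeZero q := ⟨by omega⟩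
      have : NeZero q' := ⟨by omega⟩
      obtain ⟨ζ, hζ, g1⟩ := h1 q hq
      obtain ⟨ζ', hζ', g1'⟩ := h1 q' hq'
      have hN : ∀ a : (ZMod q)ˣ, N (ζ ^ (a : ZMod q).val) = k q * Hq q (n q) a := fun a =>
        g1 _ (ZMod.val_lt _) (ZMod.val_coe_unit_coprime a)
      have hN' : ∀ a : (ZMod q')ˣ, N (ζ' ^ (a : ZMod q').val) = k q' * Hq q' (n q') a := fun a =>
        g1' _ (ZMod.val_lt _) (ZMod.val_coe_unit_coprime a)
      obtain ⟨a, rfl⟩ := pr_ex hζ hs1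
      by_cases hqq : q = q'
      · subst hqq
        obtain ⟨b, rfl⟩ := pr_ex hζ hs1'
        exact sep_same hp hn hnq hζ hN a b hs hs'
      · obtain ⟨b, rfl⟩ := pr_ex hζ' hs1'
        exact sep_two hp hp' (hcop q' hq' q hq (Ne.symm hqq)) h3' hn' hnq' hζ hζ' hN hN' a b
          hs hs'
    · obtain ⟨τ, h4⟩ := hs'
      refine ⟨τ, h4, Or.inl ?_⟩
      have h5 := hR τ
      have h6 : N (τ s) ≠ 0 := by
        intro h6
        apply h4
        rw [h5, h6, zero_mul, mul_zero]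
      exact ⟨h6, by rwa [h5]⟩
  · obtain ⟨τ, h4⟩ := hs'
    refine ⟨τ, h4, Or.inr ?_⟩
    have h5 := hR' τ
    have h6 : N (τ s') ≠ 0 := by
      intro h6
      apply h4
      rw [h5, h6, zero_mul, mul_zero]
    exact ⟨h6, by rwa [h5]⟩

/-- Nondegeneracy. -/
theorem IsSuperelliptic.nd {P : Finset ℕ} {n k : ℕ → ℕ} {N : ℂ → ℕ} (h : IsSuperelliptic P n k N)
    (hP : ∀ q ∈ P, IsPrimePow q ∧ 2 ≤ n q ∧ (n q).Coprime q)
    (hcop : ∀ q ∈ P, ∀ q' ∈ P, q ≠ q' → q.Coprime q') : IsNondegenerate N := by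
  classical
  obtain ⟨h1, h2⟩ := h
  intro c hc hsum s hs
  have hreal : ∀ s : ℂ, (∀ τ : ℂ ≃+* ℂ, starRingEnd ℂ (τ s) = τ s) → c s = 0 := by
    intro s hs
    have h3 := hc s
    have h4 : starRingEnd ℂ s = s := hs (RingEquiv.refl ℂ)
    rw [h4] at h3
    linarith
  have hsum' : ∀ τ : ℂ ≃+* ℂ, ∑ q ∈ P, ∑ s ∈ primitiveRoots q ℂ, c s * (N (τ s) : ℚ) = 0 := by
    intro τ
    have h3 := hsum τ
    have h4 : Function.support (fun s => c s * (N (τ s) : ℚ)) ⊆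
        ↑(P.biUnion fun q => primitiveRoots q ℂ) := by
      intro s hs
      rw [Function.mem_support] at hs
      have h5 : N (τ s) ≠ 0 := fun h5 => hs (by rw [h5, Nat.cast_zero, mul_zero])
      rcases h2 _ h5 with ⟨q, hq, h6⟩ | h6
      · rw [Finset.coe_biUnion, Set.mem_iUnion₂]
        exact ⟨q, hq, (mem_primitiveRoots (hP q hq).1.pos).2
          (IsPrimitiveRoot.of_map_of_injective h6 τ.injective)⟩
      · exfalso
        apply hs
        rw [hreal s fun σ => by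
          have h7 := h6 (τ.symm.trans σ)
          rwa [RingEquiv.trans_apply, RingEquiv.symm_apply_apply] at h7, zero_mul]
    rw [finsum_eq_sum_of_support_subset _ h4, Finset.sum_biUnion] at h3
    · exact h3
    · intro q _ q' _ hqq
      exact IsPrimitiveRoot.disjoint hqq
  rcases h2 s hs with ⟨q, hq, hsq⟩ | h3
  swap
  · exact hreal s h3
  obtain ⟨hp, hn, hnq⟩ := hP q hq
  have hq1 : 1 < q := hp.one_lt
  have : NeZero q := ⟨by omega⟩
  have : Fact (1 < q) := ⟨hq1⟩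
  obtain ⟨ζ, hζ, g1⟩ := h1 q hq
  have hN : ∀ a : (ZMod q)ˣ, N (ζ ^ (a : ZMod q).val) = k q * Hq q (n q) a := fun a =>
    g1 _ (ZMod.val_lt _) (ZMod.val_coe_unit_coprime a)
  obtain ⟨b, rfl⟩ := pr_ex hζ hsq
  have hk : k q ≠ 0 := by
    intro hk
    apply hs
    rw [hN, hk, zero_mul]
  let C : (ZMod q)ˣ → ℂ := fun a => ((c (ζ ^ (a : ZMod q).val) : ℚ) : ℂ)
  have hC : ∀ a, C (-a) = -C a := by
    intro a
    change ((c (ζ ^ ((-a : (ZMod q)ˣ) : ZMod q).val) : ℚ) : ℂ) =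
      -((c (ζ ^ (a : ZMod q).val) : ℚ) : ℂ)
    rw [Units.val_neg, ← pr_conj hζ, hc]
    push_cast
    rfl
  have hinj : Function.Injective fun a : (ZMod q)ˣ => ζ ^ (a : ZMod q).val := by
    intro a b hab
    have h3 := hζ.pow_inj (ZMod.val_lt (a : ZMod q)) (ZMod.val_lt (b : ZMod q)) hab
    exact Units.ext (ZMod.val_injective q h3)
  have himg : primitiveRoots q ℂ = Finset.univ.image fun a : (ZMod q)ˣ => ζ ^ (a : ZMod q).val := by
    ext z
    rw [mem_primitiveRoots (by omega), Finset.mem_image]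
    constructor
    · intro hz
      obtain ⟨a, rfl⟩ := pr_ex hζ hz
      exact ⟨a, Finset.mem_univ _, rfl⟩
    · rintro ⟨a, -, rfl⟩
      exact pr_unit hζ a
  -- the part of order `q` does not depend on the automorphism
  set D : ℚ := -∑ q' ∈ P.erase q, ∑ s ∈ primitiveRoots q' ℂ, c s * (N s : ℚ) with hD
  have hconst : ∀ t : (ZMod q)ˣ, ∑ a : (ZMod q)ˣ, c (ζ ^ (a : ZMod q).val) *
      ((k q * Hq q (n q) ((t : ZMod q) * (a : ZMod q)) : ℕ) : ℚ) = D := by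
    intro t
    have hQ : q.Coprime (∏ q' ∈ P.erase q, q') := by
      refine Nat.Coprime.prod_right fun q' hq' => ?_
      rw [Finset.mem_erase] at hq'
      exact hcop q hq q' hq'.2 (Ne.symm hq'.1)
    have hQ0 : (∏ q' ∈ P.erase q, q') ≠ 0 := by
      rw [Finset.prod_ne_zero_iff]
      intro q' hq'
      rw [Finset.mem_erase] at hq'
      have h3 := (hP q' hq'.2).1.pos
      omega
    obtain ⟨τ, ht, ht'⟩ := pr_aut' hζ hQ0 hQ t
    have h3 := hsum' τ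
    rw [← Finset.add_sum_erase P _ hq] at h3
    have h4 : ∑ q' ∈ P.erase q, ∑ s ∈ primitiveRoots q' ℂ, c s * (N (τ s) : ℚ) =
        ∑ q' ∈ P.erase q, ∑ s ∈ primitiveRoots q' ℂ, c s * (N s : ℚ) := by
      refine Finset.sum_congr rfl fun q' hq' => Finset.sum_congr rfl fun s hs => ?_
      have hq'' := hq'
      rw [Finset.mem_erase] at hq''
      rw [mem_primitiveRoots (hP q' hq''.2).1.pos] at hs
      rw [ht' s]
      obtain ⟨r, hr⟩ := Finset.dvd_prod_of_mem (fun x : ℕ => x) hq'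
      rw [hr, pow_mul, hs.pow_eq_one, one_pow]
    rw [h4, himg, Finset.sum_image fun a _ b _ hab => hinj hab] at h3
    have h5 : ∀ a : (ZMod q)ˣ, c (ζ ^ (a : ZMod q).val) * (N (τ (ζ ^ (a : ZMod q).val)) : ℚ) =
        c (ζ ^ (a : ZMod q).val) *
          ((k q * Hq q (n q) ((t : ZMod q) * (a : ZMod q)) : ℕ) : ℚ) := by
      intro a
      rw [ht, ← Units.val_mul, hN]
    rw [Finset.sum_congr rfl fun a _ => h5 a] at h3
    rw [hD]
    linarith
  have hCsum : ∑ a : (ZMod q)ˣ, c (ζ ^ (a : ZMod q).val) = 0 := by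
    have h3 : ∑ a : (ZMod q)ˣ, c (ζ ^ (a : ZMod q).val) =
        ∑ a : (ZMod q)ˣ, c (ζ ^ ((-a : (ZMod q)ˣ) : ZMod q).val) :=
      (Equiv.sum_comp (Equiv.neg _) (fun a : (ZMod q)ˣ => c (ζ ^ (a : ZMod q).val))).symm
    have h4 : ∀ a : (ZMod q)ˣ, c (ζ ^ ((-a : (ZMod q)ˣ) : ZMod q).val) =
        -c (ζ ^ (a : ZMod q).val) := by
      intro a
      rw [Units.val_neg, ← pr_conj hζ, hc]
    rw [Finset.sum_congr rfl fun a _ => h4 a, Finset.sum_neg_distrib] at h3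
    linarith
  have hD0 : D = 0 := by
    have h3 := hconst 1
    have h4 := hconst (-1)
    have h5 : ∀ a : (ZMod q)ˣ, c (ζ ^ (a : ZMod q).val) *
        ((k q * Hq q (n q) (((-1 : (ZMod q)ˣ) : ZMod q) * (a : ZMod q)) : ℕ) : ℚ) =
        (k q * (n q - 1) : ℚ) * c (ζ ^ (a : ZMod q).val) - c (ζ ^ (a : ZMod q).val) *
        ((k q * Hq q (n q) (((1 : (ZMod q)ˣ) : ZMod q) * (a : ZMod q)) : ℕ) : ℚ) := by
      intro a
      have h6 := Hq_neg hq1 hnq a
      rw [Units.val_neg, Units.val_one, neg_one_mul, one_mul]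
      have h7 : (Hq q (n q) (a : ZMod q) : ℚ) + (Hq q (n q) (-(a : ZMod q)) : ℚ) + 1 = n q := by
        exact_mod_cast h6
      push_cast
      linear_combination (c (ζ ^ (a : ZMod q).val) * k q) * h7
    rw [Finset.sum_congr rfl fun a _ => h5 a, Finset.sum_sub_distrib, ← Finset.mul_sum, hCsum,
      h3] at h4
    linarith
  have h0 : ∀ t : (ZMod q)ˣ,
      ∑ a, C a * (Hq q (n q) ((t : ZMod q) * (a : ZMod q)) : ℂ) = 0 := by
    intro t
    have h3 := hconst t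
    rw [hD0] at h3
    have h5 : ∀ a : (ZMod q)ˣ, c (ζ ^ (a : ZMod q).val) *
        ((k q * Hq q (n q) ((t : ZMod q) * (a : ZMod q)) : ℕ) : ℚ) =
        k q * (c (ζ ^ (a : ZMod q).val) * (Hq q (n q) ((t : ZMod q) * (a : ZMod q)) : ℚ)) := by
      intro a
      push_cast
      ring
    rw [Finset.sum_congr rfl fun a _ => h5 a, ← Finset.mul_sum] at h3
    have h6 := (mul_eq_zero.1 h3).resolve_left (Nat.cast_ne_zero.2 hk)
    have h7 := congrArg (fun x : ℚ => (x : ℂ)) h6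
    push_cast at h7
    exact h7
  have h3 : ((c (ζ ^ (b : ZMod q).val) : ℚ) : ℂ) = 0 := odd_zero hp hn hnq C hC h0 b
  exact_mod_cast h3

/-- Separation and nondegeneracy. -/
theorem Superelliptic.both {N : ℂ → ℕ} (h : Superelliptic N) : IsSeparated N ∧ IsNondegenerate N := by
  obtain ⟨P, n, k, h, hP, hcop⟩ := h
  refine ⟨h.sep hP hcop, h.nd (fun q hq => ?_) hcop⟩
  obtain ⟨h1, h2, h3⟩ := hP q hq
  exact ⟨h1, by omega, h3⟩

end Pool.Agent.N183.U5
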