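import Mathlib
import Pool.Agent.N183.U5.Stm2
import Pool.Agent.N183.U5.Cls
import Pool.Agent.N183.TS.Glob
import Pool.Agent.Y224.TS.D8

/-!
# Tate tensors and Hodge tensors
-/

set_option linter.unusedSectionVars false

namespace Pool.Agent.N183.U5

open Matrix Module Pool.Agent.W437.HC Pool.Agent.W437.HD Pool.Agent.W548.Odd Pool.Agent.W522.U
open Pool.Agent.H204R3.SP Pool.Agent.H204R3.GP Pool.Agent.Y90 Pool.Agent.Y224.TS TensorProduct
open Pool.Agent.Y224.TS.St (IsHodgeTate IsTateModule)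
open Pool.Agent.W437.HP (cK cK_mul cK_one)
open Pool.Agent.TH504.CB
open Pool.Agent.N183.TS

noncomputable section

section ten

variable {B : Type*} [Fintype B] [DecidableEq B] {κ : Type*} [Fintype κ] [DecidableEq κ]
  {T : Type*} [AddCommGroup T] [Module ℂ T] {per : (B → ℚ) →+ T} {J : Matrix B B ℝ}

/-- The rational forms killed by the complex structure are Hodge tensors. -/
theorem hodge_ten (h : Cht per J) {c : (κ → B) → ℚ} (hc : IsH (DJ J) c) :
    IsHodgeTensor per (evalM c) := by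
  obtain ⟨P, I, hP1, hP2, hI1, hI2⟩ := h.ex
  refine ⟨(evalM (cst ℝ c)).compLinearMap (fun _ => I), fun v => ?_, fun z hz u => ?_⟩
  · rw [MultilinearMap.compLinearMap_apply, evalM_apply, evalM_apply, evalF_castK]
    congr 1
    funext k
    rw [← hP1, hI1]
  · rw [MultilinearMap.compLinearMap_apply, MultilinearMap.compLinearMap_apply, evalM_apply,
      evalM_apply]
    have h1 : z.re = Real.cos z.arg ∧ z.im = Real.sin z.arg := by
      have h2 := Complex.norm_mul_cos_arg z
      have h3 := Complex.norm_mul_sin_arg z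
      rw [hz, one_mul] at h2 h3
      exact ⟨h2.symm, h3.symm⟩
    have h2 : (fun k => I (z • u k)) = fun k => Real.cos z.arg • I (u k) +
        Real.sin z.arg • (J *ᵥ I (u k)) := by
      funext k
      rw [← hI1 (Real.cos z.arg • I (u k) + Real.sin z.arg • (J *ᵥ I (u k))), map_add P,
        map_smul P, map_smul P, hP2, hI2, smul_rot, ← h1.1, ← h1.2, Complex.re_add_im]
    rw [h2]
    exact rot_of_act h.sq ((act_real (J := J) (D := DJ J) rfl).1 hc) z.arg _

/-- The rational parts of an invariant form are Hodge tensors. -/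
theorem hodge_tenrat (h : Cht per J) {L : Submodule ℂ (Matrix B B ℂ)} (hL : Gal L)
    (hJ : DJ J ∈ L) {F : MultilinearMap ℂ (fun _ : κ => B → ℂ) ℂ}
    (hF : ∀ X ∈ L, act X (CF F) = 0) (l : ℂ →ₗ[ℚ] ℚ) :
    IsHodgeTensor per (evalM (fun I => l (CF F I)) : MultilinearMap ℚ (fun _ : κ => B → ℚ) ℚ) :=
  hodge_ten h (kill_lam hL hF l _ hJ)

/-- Expansion of an invariant form. -/
theorem expand_ten (h : Cht per J) {L : Submodule ℂ (Matrix B B ℂ)} (hL : Gal L)
    (hJ : DJ J ∈ L) {F : MultilinearMap ℂ (fun _ : κ => B → ℂ) ℂ}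
    (hF : ∀ X ∈ L, act X (CF F) = 0) :
    (fun v : κ → B → ℚ => F (fun k => cv (v k))) ∈ Submodule.span ℂ {g : (κ → B → ℚ) → ℂ |
      ∃ r : MultilinearMap ℚ (fun _ : κ => B → ℚ) ℚ, IsHodgeTensor per r ∧
        g = fun v => ((r v : ℚ) : ℂ)} := by
  obtain ⟨m, c, l, hl⟩ := rat_expand F
  have h1 : (fun v : κ → B → ℚ => F (fun k => cv (v k))) = ∑ j, c j • fun v : κ → B → ℚ =>
      (((evalM (fun I => l j (CF F I)) : MultilinearMap ℚ (fun _ : κ => B → ℚ) ℚ) v : ℚ) : ℂ) := by
    funext v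
    rw [hl, Finset.sum_apply]
    refine Finset.sum_congr rfl fun j _ => ?_
    rw [Pi.smul_apply, smul_eq_mul, evalM_apply, ← lam_eval]
  rw [h1]
  exact Submodule.sum_mem _ fun j _ => Submodule.smul_mem _ _ (Submodule.subset_span
    ⟨_, hodge_tenrat h hL hJ hF (l j), rfl⟩)

/-- Hodge tensors and homomorphisms. -/
theorem isHodgeTensor_comp {W W' T T' : Type*} [AddCommGroup W] [Module ℚ W] [AddCommGroup T]
    [Module ℂ T] {per : W →+ T} [AddCommGroup W'] [Module ℚ W'] [AddCommGroup T'] [Module ℂ T']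
    {per' : W' →+ T'} (a : W →ₗ[ℚ] W') (Ψ : T →ₗ[ℂ] T') (e : ∀ v, Ψ (per v) = per' (a v))
    {κ : Type*} {f : MultilinearMap ℚ (fun _ : κ => W') ℚ} (hf : IsHodgeTensor per' f) :
    IsHodgeTensor per (f.compLinearMap fun _ => a) := by
  obtain ⟨ψ, h1, h2⟩ := hf
  refine ⟨ψ.compLinearMap fun _ => (Ψ.restrictScalars ℝ), fun v => ?_, fun z hz u => ?_⟩
  · rw [MultilinearMap.compLinearMap_apply, MultilinearMap.compLinearMap_apply, ← h1]
    congr 1
    funext k
    exact e _
  · rw [MultilinearMap.compLinearMap_apply, MultilinearMap.compLinearMap_apply]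
    have h3 : (fun l => (Ψ.restrictScalars ℝ) (z • u l)) =
        fun l => z • (Ψ.restrictScalars ℝ) (u l) := by
      funext l
      exact Ψ.map_smul z (u l)
    rw [h3]
    exact h2 z hz _

end ten

end

end Pool.Agent.N183.U5
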