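import Mathlib
import Pool.Agent.N183.U5.Mf
import Pool.Agent.N183.TS.Glob

/-!
# The centre of the algebra of endomorphisms
-/

set_option linter.unusedSectionVars false

namespace Pool.Agent.N183.U5

open Matrix Module Pool.Agent.W437.HC Pool.Agent.W437.HD Pool.Agent.TH504.CB Pool.Agent.Y90
open Pool.Agent.W548.Odd hiding cv
open Pool.Agent.W522.U hiding Du
open Pool.Agent.H204R3.SP Pool.Agent.H204R3.GP Pool.Agent.Y224.TS
open Pool.Agent.W437.HP (cK cK_mul cK_one)
open Pool.Agent.R915 (CentM cent_descent commL_of schur_scalar VE mem_VE VE_cj VE_stab exists_S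
  exists_projU stab_of_proj aeval_eig)
open Polynomial

noncomputable section

variable {g : ℕ} {Z : Matrix (Fin g) (Fin g) ℂ}

/-- Central rational endomorphisms commute with the whole commutant. -/
theorem cent_comm {C : Matrix (Fin g ⊕ Fin g) (Fin g ⊕ Fin g) ℚ} (hC : CentM Z C)
    (A : Matrix (Fin g ⊕ Fin g) (Fin g ⊕ Fin g) ℂ) (hA : ∀ X ∈ LZ Z, X * A = A * X) :
    qm C * A = A * qm C := by
  have h3 : A ∈ Submodule.span ℂ (TT Z Z : Set (Matrix (Fin g ⊕ Fin g) (Fin g ⊕ Fin g) ℂ)) :=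
    exp_mem fun σ => (hA _ (DS_mem σ)).symm
  clear hA
  induction h3 using Submodule.span_induction with
  | mem A hA =>
    obtain ⟨R, rfl, hR⟩ := hA
    have h4 := hC.2 R hR
    have h5 := congrArg qm h4
    rw [qm_mul, qm_mul] at h5
    exact h5
  | zero => rw [Matrix.mul_zero, Matrix.zero_mul]
  | add x y _ _ hx hy => rw [Matrix.mul_add, Matrix.add_mul, hx, hy]
  | smul a x _ hx => rw [Matrix.mul_smul, Matrix.smul_mul, hx]

/-- Central endomorphisms are scalars on the irreducible submodules. -/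
theorem cent_scalar (h : PM Z) {C : Matrix (Fin g ⊕ Fin g) (Fin g ⊕ Fin g) ℚ} (hC : CentM Z C)
    {U : Submodule ℂ (Fin g ⊕ Fin g → ℂ)} (hU : IrS (LZ Z) U) :
    ∃ z : ℂ, ∀ u ∈ U, qm C *ᵥ u = z • u := by
  obtain ⟨S, Si, hSSi, hSiS, -, had⟩ := exists_S h
  obtain ⟨eU, hU1, hU2, -, hUc⟩ := exists_projU h hU.2.1 hSSi hSiS had
  refine schur_scalar hU (commL_of hC.1) fun u hu => ?_
  have h1 : qm C *ᵥ u = eU *ᵥ (qm C *ᵥ u) := by
    rw [mulVec_mulVec, ← cent_comm hC eU hUc, ← mulVec_mulVec, hU2 u hu]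
  rw [h1]
  exact hU1 _

/-- Two irreducible submodules on which the centre acts in the same way are isomorphic. -/
theorem iso_of_cent (h : PM Z) {U U' : Submodule ℂ (Fin g ⊕ Fin g → ℂ)} (hU : IrS (LZ Z) U)
    (hU' : IrS (LZ Z) U')
    (hc : ∀ C, CentM Z C → ∀ z : ℂ, (∀ u ∈ U, qm C *ᵥ u = z • u) → ∀ u ∈ U', qm C *ᵥ u = z • u) :
    ∃ T : Matrix (Fin g ⊕ Fin g) (Fin g ⊕ Fin g) ℂ, (∀ X ∈ LZ Z, X * T = T * X) ∧
      (∃ u ∈ U, T *ᵥ u ≠ 0) ∧ (∀ u, T *ᵥ u ∈ U') := by
  obtain ⟨S, Si, hSSi, hSiS, -, had⟩ := exists_S h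
  -- the span of the images of `U`
  obtain ⟨I, hIdef⟩ : ∃ I : Submodule ℂ (Fin g ⊕ Fin g → ℂ), I = Submodule.span ℂ
      {w | ∃ T : Matrix (Fin g ⊕ Fin g) (Fin g ⊕ Fin g) ℂ, (∀ X ∈ LZ Z, X * T = T * X) ∧
        ∃ u ∈ U, w = T *ᵥ u} := ⟨_, rfl⟩
  have hIm : ∀ T : Matrix (Fin g ⊕ Fin g) (Fin g ⊕ Fin g) ℂ, (∀ X ∈ LZ Z, X * T = T * X) →
      ∀ u ∈ U, T *ᵥ u ∈ I := by
    intro T hT u hu
    rw [hIdef]
    exact Submodule.subset_span ⟨T, hT, u, hu, rfl⟩
  have hIs : Stab (LZ Z) I := by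
    intro X hX w hw
    rw [hIdef] at hw
    induction hw using Submodule.span_induction with
    | mem w hw =>
      obtain ⟨T, hT, u, hu, rfl⟩ := hw
      rw [mulVec_mulVec, hT X hX, ← mulVec_mulVec]
      exact hIm T hT _ (hU.2.1 X hX u hu)
    | zero =>
      rw [mulVec_zero]
      exact Submodule.zero_mem _
    | add x y _ _ hx hy =>
      rw [mulVec_add]
      exact Submodule.add_mem _ hx hy
    | smul c x _ hx =>
      rw [mulVec_smul]
      exact Submodule.smul_mem _ _ hx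
  have hIA : ∀ T : Matrix (Fin g ⊕ Fin g) (Fin g ⊕ Fin g) ℂ, (∀ X ∈ LZ Z, X * T = T * X) →
      ∀ w ∈ I, T *ᵥ w ∈ I := by
    intro A hA w hw
    rw [hIdef] at hw
    induction hw using Submodule.span_induction with
    | mem w hw =>
      obtain ⟨T, hT, u, hu, rfl⟩ := hw
      rw [mulVec_mulVec]
      refine hIm _ (fun X hX => ?_) u hu
      rw [← mul_assoc, hA X hX, mul_assoc, hT X hX, mul_assoc]
    | zero =>
      rw [mulVec_zero]
      exact Submodule.zero_mem _
    | add x y _ _ hx hy =>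
      rw [mulVec_add]
      exact Submodule.add_mem _ hx hy
    | smul c x _ hx =>
      rw [mulVec_smul]
      exact Submodule.smul_mem _ _ hx
  -- the projector
  obtain ⟨e, he1, he2, heh, hec⟩ := exists_projU h hIs hSSi hSiS had
  have heA : ∀ A : Matrix (Fin g ⊕ Fin g) (Fin g ⊕ Fin g) ℂ, (∀ X ∈ LZ Z, X * A = A * X) →
      e * A = A * e := by
    have h0 : ∀ A : Matrix (Fin g ⊕ Fin g) (Fin g ⊕ Fin g) ℂ, (∀ X ∈ LZ Z, X * A = A * X) →
        e * A * e = A * e := fun A hA => stab_of_proj he1 he2 (hIA A hA)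
    intro A hA
    obtain ⟨A', hA'⟩ : ∃ A', A' = Si * (S * A * Si)ᴴ * S := ⟨_, rfl⟩
    have hA'S : S * A' * Si = (S * A * Si)ᴴ := by
      rw [hA']
      calc S * (Si * (S * A * Si)ᴴ * S) * Si = (S * Si) * (S * A * Si)ᴴ * (S * Si) := by
            noncomm_ring
      _ = _ := by rw [hSSi, one_mul, mul_one]
    have hcj : ∀ M N : Matrix (Fin g ⊕ Fin g) (Fin g ⊕ Fin g) ℂ,
        S * (M * N) * Si = (S * M * Si) * (S * N * Si) := by
      intro M N
      calc S * (M * N) * Si = S * M * 1 * N * Si := by noncomm_ring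
      _ = S * M * (Si * S) * N * Si := by rw [hSiS]
      _ = _ := by noncomm_ring
    have hinj : ∀ M N : Matrix (Fin g ⊕ Fin g) (Fin g ⊕ Fin g) ℂ,
        S * M * Si = S * N * Si → M = N := by
      intro M N hMN
      have h1 := congrArg (fun X => Si * X * S) hMN
      beta_reduce at h1
      have h2 : ∀ M : Matrix (Fin g ⊕ Fin g) (Fin g ⊕ Fin g) ℂ, Si * (S * M * Si) * S = M := by
        intro M
        calc Si * (S * M * Si) * S = (Si * S) * M * (Si * S) := by noncomm_ring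
        _ = M := by rw [hSiS, one_mul, mul_one]
      rwa [h2, h2] at h1
    have hA'c : ∀ X ∈ LZ Z, X * A' = A' * X := by
      intro X hX
      obtain ⟨Y, hY, hYX⟩ := had X hX
      apply hinj
      rw [hcj, hcj, hA'S]
      have h1 := congrArg (fun M => S * M * Si) (hA Y hY)
      beta_reduce at h1
      rw [hcj, hcj, hYX] at h1
      generalize S * X * Si = x at h1 ⊢
      generalize S * A * Si = a at h1 ⊢
      have h2 := congrArg conjTranspose h1
      rw [conjTranspose_mul, conjTranspose_mul, conjTranspose_conjTranspose] at h2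
      exact h2.symm
    have h1 := h0 A' hA'c
    have h2 := congrArg (fun M => S * M * Si) h1
    beta_reduce at h2
    rw [hcj, hcj, hcj, hA'S] at h2
    have h3 : e * A * e = e * A := by
      apply hinj
      rw [hcj, hcj]
      generalize S * e * Si = f at h2 heh ⊢
      generalize S * A * Si = a at h2 ⊢
      have h4 := congrArg conjTranspose h2
      rw [conjTranspose_mul, conjTranspose_mul, conjTranspose_mul, conjTranspose_conjTranspose,
        heh, ← mul_assoc] at h4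
      exact h4
    rw [← h3, h0 A hA]
  obtain ⟨m, c, C, hC, heC⟩ := cent_descent (Z := Z) (T := e) (fun X hX => (hec X hX).symm) heA
  -- the scalars
  obtain ⟨eU, hU1, hU2, -, hUc⟩ := exists_projU h hU.2.1 hSSi hSiS had
  have hCA : ∀ j, ∀ A : Matrix (Fin g ⊕ Fin g) (Fin g ⊕ Fin g) ℂ, (∀ X ∈ LZ Z, X * A = A * X) →
      qm (C j) * A = A * qm (C j) := by
    intro j A hA
    have h3 : A ∈ Submodule.span ℂ (TT Z Z : Set (Matrix (Fin g ⊕ Fin g) (Fin g ⊕ Fin g) ℂ)) :=
      exp_mem fun σ => (hA _ (DS_mem σ)).symm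
    clear hA
    induction h3 using Submodule.span_induction with
    | mem A hA =>
      obtain ⟨R, rfl, hR⟩ := hA
      have h4 := (hC j).2 R hR
      have h5 := congrArg qm h4
      rw [qm_mul, qm_mul] at h5
      exact h5
    | zero => rw [Matrix.mul_zero, Matrix.zero_mul]
    | add x y _ _ hx hy => rw [Matrix.mul_add, Matrix.add_mul, hx, hy]
    | smul a x _ hx => rw [Matrix.mul_smul, Matrix.smul_mul, hx]
  have hCc : ∀ j, ∀ X ∈ LZ Z, X * qm (C j) = qm (C j) * X := fun j => commL_of (hC j).1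
  have hsc : ∀ j, ∃ z : ℂ, ∀ u ∈ U, qm (C j) *ᵥ u = z • u := by
    intro j
    refine schur_scalar hU (hCc j) fun u hu => ?_
    have h1 : qm (C j) *ᵥ u = eU *ᵥ (qm (C j) *ᵥ u) := by
      rw [mulVec_mulVec, ← hCA j eU hUc, ← mulVec_mulVec, hU2 u hu]
    rw [h1]
    exact hU1 _
  choose z hz using hsc
  obtain ⟨u0, hu0, hu00⟩ := Submodule.exists_mem_ne_zero_of_ne_bot hU.1
  have hev : ∀ v, e *ᵥ v = ∑ j, c j • (qm (C j) *ᵥ v) := by
    intro v
    rw [heC, sum_mulVec]
    exact Finset.sum_congr rfl fun j _ => smul_mulVec _ _ _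
  have hsum : ∑ j, c j * z j = 1 := by
    have hUI : u0 ∈ I := by
      have h1 := hIm 1 (fun X _ => by rw [Matrix.mul_one, Matrix.one_mul]) u0 hu0
      rwa [one_mulVec] at h1
    have h1 := he2 u0 hUI
    rw [hev, Finset.sum_congr rfl fun j _ => by rw [hz j u0 hu0, smul_smul], ← Finset.sum_smul] at h1
    have h2 : (∑ j, c j * z j - 1) • u0 = 0 := by rw [sub_smul, h1, one_smul, sub_self]
    exact sub_eq_zero.1 ((smul_eq_zero.1 h2).resolve_right hu00)
  have hUbI : U' ≤ I := by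
    intro v hv
    have h2 : ∀ j, qm (C j) *ᵥ v = z j • v := fun j => hc (C j) (hC j) (z j) (hz j) v hv
    have h3 : e *ᵥ v = v := by
      rw [hev, Finset.sum_congr rfl fun j _ => by rw [h2 j, smul_smul], ← Finset.sum_smul, hsum,
        one_smul]
    rw [← h3]
    exact he1 v
  obtain ⟨eb, hb1, hb2, -, hbc⟩ := exists_projU h hU'.2.1 hSSi hSiS had
  by_contra hcon
  push Not at hcon
  have h1 : ∀ w ∈ I, eb *ᵥ w = 0 := by
    intro w hw
    rw [hIdef] at hw
    induction hw using Submodule.span_induction with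
    | mem w hw =>
      obtain ⟨T, hT, u, hu, rfl⟩ := hw
      rw [mulVec_mulVec]
      by_contra h9
      obtain ⟨u9, hu9⟩ := hcon (eb * T) (fun X hX => by
        rw [← mul_assoc, hbc X hX, mul_assoc, hT X hX, mul_assoc]) ⟨u, hu, h9⟩
      apply hu9
      rw [← mulVec_mulVec]
      exact hb1 _
    | zero => rw [mulVec_zero]
    | add x y _ _ hx hy => rw [mulVec_add, hx, hy, add_zero]
    | smul c x _ hx => rw [mulVec_smul, hx, smul_zero]
  apply hU'.1
  rw [eq_bot_iff]
  intro w hw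
  rw [Submodule.mem_bot, ← hb2 w hw]
  exact h1 w (hUbI hw)

end

end Pool.Agent.N183.U5
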