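import Mathlib
import Pool.Agent.N183.U5.Nc

/-!
# Labels of the irreducible submodules
-/

set_option linter.unusedSectionVars false

namespace Pool.Agent.N183.U5

open Matrix Module Pool.Agent.W437.HC Pool.Agent.W437.HD Pool.Agent.W548.Odd Pool.Agent.W522.U
open Pool.Agent.H204R3.SP Pool.Agent.H204R3.GP Pool.Agent.Y90 Pool.Agent.Y224.TS
open Pool.Agent.W437.HP (cK cK_mul cK_one)
open Pool.Agent.R915 (CentM commL_of VE mem_VE VE_cj VE_stab aeval_eig)
open Pool.Agent.N183.TS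
open Polynomial

open scoped ComplexOrder

noncomputable section

variable {g : ℕ} {Z : Matrix (Fin g) (Fin g) ℂ}

/-- The rational matrix `M` generates the centre of the algebra of endomorphisms. -/
structure CG (Z : Matrix (Fin g) (Fin g) ℂ) (M : Matrix (Fin g ⊕ Fin g) (Fin g ⊕ Fin g) ℚ) :
    Prop where
  cent : CentM Z M
  gen : ∀ C, CentM Z C → C ∈ Algebra.adjoin ℚ {M}

variable {M : Matrix (Fin g ⊕ Fin g) (Fin g ⊕ Fin g) ℚ} (k : CG Z M) (h : PM Z)
include k h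

theorem CG.label {U : Submodule ℂ (Fin g ⊕ Fin g → ℂ)} (hU : IrS (LZ Z) U) :
    ∃ θ : ℂ, U ≤ VE M θ := by
  obtain ⟨z, hz⟩ := cent_scalar h k.cent hU
  exact ⟨z, fun u hu => mem_VE.2 (hz u hu)⟩

/-- Isomorphisms of irreducible submodules with the same label. -/
theorem CG.iso {U U' : Submodule ℂ (Fin g ⊕ Fin g → ℂ)} (hU : IrS (LZ Z) U)
    (hU' : IrS (LZ Z) U') {θ : ℂ} (h1 : U ≤ VE M θ) (h2 : U' ≤ VE M θ) :
    ∃ T : (Fin g ⊕ Fin g → ℂ) →ₗ[ℂ] (Fin g ⊕ Fin g → ℂ),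
      (∀ X ∈ LZ Z, ∀ u, T (X *ᵥ u) = X *ᵥ T u) ∧ (∀ u ∈ U, T u = 0 → u = 0) ∧
        U.map T = U' := by
  obtain ⟨T, hT, h0, hTU⟩ := iso_of_cent h hU hU' (fun C hC z hz => by
    have h3 := k.gen C hC
    rw [Algebra.adjoin_singleton_eq_range_aeval] at h3
    obtain ⟨p, hp⟩ := h3
    change aeval M p = C at hp
    obtain ⟨u0, hu0, hu00⟩ := Submodule.exists_mem_ne_zero_of_ne_bot hU.1
    have h4 := hz u0 hu0
    rw [← hp, aeval_eig (mem_VE.1 (h1 hu0))] at h4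
    have h5 : aeval θ p = z := by
      have h6 : (aeval θ p - z) • u0 = 0 := by rw [sub_smul, h4, sub_self]
      exact sub_eq_zero.1 ((smul_eq_zero.1 h6).resolve_right hu00)
    intro u hu
    rw [← hp, aeval_eig (mem_VE.1 (h2 hu)), h5])
  have hTc : ∀ X ∈ LZ Z, ∀ u, mulVecLin T (X *ᵥ u) = X *ᵥ mulVecLin T u := by
    intro X hX u
    rw [mulVecLin_apply, mulVecLin_apply, mulVec_mulVec, mulVec_mulVec, hT X hX]
  have hmap := hU.map_eq hU' (T := mulVecLin T) (fun X hX u _ => hTc X hX u) h0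
    (fun u _ => hTU u)
  refine ⟨mulVecLin T, hTc, fun u hu h3 => ?_, hmap⟩
  have h4 : Stab (LZ Z) (U ⊓ LinearMap.ker (mulVecLin T)) := by
    intro X hX v hv
    refine ⟨hU.2.1 X hX v hv.1, ?_⟩
    change mulVecLin T (X *ᵥ v) = 0
    rw [hTc X hX, LinearMap.mem_ker.1 hv.2, mulVec_zero]
  rcases hU.2.2 _ inf_le_left h4 with h5 | h5
  · have h6 : u ∈ U ⊓ LinearMap.ker (mulVecLin T) := ⟨hu, h3⟩
    rwa [h5, Submodule.mem_bot] at h6
  · obtain ⟨v, hv, hv0⟩ := h0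
    rw [← h5] at hv
    exact absurd hv.2 hv0

omit k in
/-- The dimensions in a direct sum of stable subspaces. -/
theorem pd_split {U V W : Submodule ℂ (Fin g ⊕ Fin g → ℂ)} (hU : Stab (LZ Z) U)
    (hV : Stab (LZ Z) V) (hW : Stab (LZ Z) W) (h1 : U ⊓ V = ⊥) (h2 : U ⊔ V = W) :
    pd Z W = pd Z U + pd Z V := by
  have hp : ∀ (c : ℂ), finrank ℂ (U ⊓ eig Z c : Submodule ℂ (Fin g ⊕ Fin g → ℂ)) +
      finrank ℂ (V ⊓ eig Z c : Submodule ℂ (Fin g ⊕ Fin g → ℂ)) ≤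
        finrank ℂ (W ⊓ eig Z c : Submodule ℂ (Fin g ⊕ Fin g → ℂ)) := by
    intro c
    have e1 : (U ⊓ eig Z c) ⊓ (V ⊓ eig Z c) = ⊥ := by
      rw [eq_bot_iff, ← h1]
      exact inf_le_inf inf_le_left inf_le_left
    have e2 := Submodule.finrank_sup_add_finrank_inf_eq (U ⊓ eig Z c) (V ⊓ eig Z c)
    rw [e1, finrank_bot, add_zero] at e2
    rw [← e2]
    refine Submodule.finrank_mono (sup_le ?_ ?_)
    · exact inf_le_inf (h2 ▸ le_sup_left) le_rfl
    · exact inf_le_inf (h2 ▸ le_sup_right) le_rfl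
  have e3 := hp 1
  have e4 := hp (-1)
  have e5 := pd_add_qd h hU
  have e6 := pd_add_qd h hV
  have e7 := pd_add_qd h hW
  have e8 : finrank ℂ U + finrank ℂ V = finrank ℂ W := by
    have e9 := Submodule.finrank_sup_add_finrank_inf_eq U V
    rw [h1, finrank_bot, add_zero, h2] at e9
    exact e9.symm
  unfold pd qd at *
  omega

/-- The dimensions are proportional. -/
theorem CG.prop {U : Submodule ℂ (Fin g ⊕ Fin g → ℂ)} (hU : IrS (LZ Z) U) {θ : ℂ}
    (h1 : U ≤ VE M θ) (n : ℕ) : ∀ V : Submodule ℂ (Fin g ⊕ Fin g → ℂ), finrank ℂ V = n →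
      V ≤ VE M θ → Stab (LZ Z) V → pd Z V * finrank ℂ U = pd Z U * finrank ℂ V := by
  induction n using Nat.strong_induction_on with
  | _ n ih =>
    intro V hn hV hs
    by_cases hV0 : V = ⊥
    · have h2 : pd Z V = 0 := by
        unfold pd
        rw [hV0, bot_inf_eq, finrank_bot]
      rw [h2, hV0, finrank_bot, zero_mul, mul_zero]
    obtain ⟨W, hWV, hW⟩ := exists_irS _ V rfl hV0 hs
    obtain ⟨T, hT, hT0, hTW⟩ := k.iso h hU hW h1 (hWV.trans hV)
    obtain ⟨π, hπ1, hπ2, hπ3⟩ := h.cred W hW.2.1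
    let V1 : Submodule ℂ (Fin g ⊕ Fin g → ℂ) := V ⊓ LinearMap.ker π
    have hV1 : Stab (LZ Z) V1 := by
      intro X hX v hv
      refine ⟨hs X hX v hv.1, ?_⟩
      change π (X *ᵥ v) = 0
      rw [hπ1 X hX, LinearMap.mem_ker.1 hv.2, mulVec_zero]
    have h2 : W ⊓ V1 = ⊥ := by
      rw [eq_bot_iff]
      rintro v ⟨hv1, hv2, hv3⟩
      rw [Submodule.mem_bot, ← hπ3 v hv1]
      exact hv3
    have h3 : W ⊔ V1 = V := by
      apply le_antisymm (sup_le hWV inf_le_left)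
      intro v hv
      have h4 : v = π v + (v - π v) := by abel
      rw [h4]
      refine Submodule.add_mem_sup (hπ2 v) ⟨V.sub_mem hv (hWV (hπ2 v)), ?_⟩
      change π (v - π v) = 0
      rw [map_sub, hπ3 _ (hπ2 v), sub_self]
    have h4 := pd_split h hW.2.1 hV1 hs h2 h3
    have h5 : finrank ℂ W + finrank ℂ V1 = finrank ℂ V := by
      have e9 := Submodule.finrank_sup_add_finrank_inf_eq W V1
      rw [h2, finrank_bot, add_zero, h3] at e9
      exact e9.symm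
    have h6 : 0 < finrank ℂ W := by
      rw [Nat.pos_iff_ne_zero]
      intro h7
      exact hW.1 (Submodule.finrank_eq_zero.1 h7)
    have h7 := ih (finrank ℂ V1) (by omega) V1 rfl (inf_le_left.trans hV) hV1
    have h8 : pd Z W = pd Z U := pd_iso (fun X hX u _ => hT X hX u) hT0 hU.2.1 hTW
    have h9 : finrank ℂ W = finrank ℂ U := by
      rw [← hTW]
      exact finrank_map_of_inj hT0
    rw [h4, add_mul, h7, ← h5, mul_add, h8, h9]

end

end Pool.Agent.N183.U5
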