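import Mathlib
import Pool.Agent.N183.U5.Lab

/-!
# Nondegenerate centres: there are no characters
-/

set_option linter.unusedSectionVars false

namespace Pool.Agent.N183.U5

open Matrix Module Pool.Agent.W437.HC Pool.Agent.W437.HD Pool.Agent.W548.Odd Pool.Agent.W522.U
open Pool.Agent.H204R3.SP Pool.Agent.H204R3.GP Pool.Agent.Y90 Pool.Agent.Y224.TS
open Pool.Agent.W437.HP (cK cK_mul cK_one)
open Pool.Agent.R915 (CentM commL_of VE mem_VE VE_cj VE_stab aeval_eig exists_S exists_projU)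
open Pool.Agent.N183.TS
open Polynomial

open scoped ComplexOrder

noncomputable section

variable {g : ℕ} {Z : Matrix (Fin g) (Fin g) ℂ}

/-- Central endomorphisms and isomorphisms. -/
theorem label_iso (h : PM Z) {C : Matrix (Fin g ⊕ Fin g) (Fin g ⊕ Fin g) ℚ} (hC : CentM Z C)
    {U : Submodule ℂ (Fin g ⊕ Fin g → ℂ)} (hU : Stab (LZ Z) U)
    {T : (Fin g ⊕ Fin g → ℂ) →ₗ[ℂ] (Fin g ⊕ Fin g → ℂ)}
    (hT : ∀ X ∈ LZ Z, ∀ u ∈ U, T (X *ᵥ u) = X *ᵥ T u) {z : ℂ}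
    (hz : ∀ u ∈ U, qm C *ᵥ u = z • u) : ∀ u ∈ U, qm C *ᵥ (T u) = z • T u := by
  obtain ⟨S, Si, hSSi, hSiS, -, had⟩ := exists_S h
  obtain ⟨e, he1, he2, -, hec⟩ := exists_projU h hU hSSi hSiS had
  let Q : Matrix (Fin g ⊕ Fin g) (Fin g ⊕ Fin g) ℂ := LinearMap.toMatrix' T
  have hQ : ∀ v, Q *ᵥ v = T v := fun v => by
    rw [← Matrix.toLin'_apply, Matrix.toLin'_toMatrix']
  have hext : ∀ A C : Matrix (Fin g ⊕ Fin g) (Fin g ⊕ Fin g) ℂ, (∀ v, A *ᵥ v = C *ᵥ v) →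
      A = C := by
    intro A C hAC
    apply Matrix.toLin'.injective
    exact LinearMap.ext fun v => hAC v
  have h1 : ∀ X ∈ LZ Z, X * (Q * e) = (Q * e) * X := by
    intro X hX
    refine hext _ _ fun v => ?_
    rw [mul_assoc Q e X, ← hec X hX, ← mulVec_mulVec, ← mulVec_mulVec, ← mulVec_mulVec,
      ← mulVec_mulVec, hQ, hQ, hT X hX _ (he1 v)]
  have h2 := cent_comm hC (Q * e) h1
  intro u hu
  have h3 : (Q * e) *ᵥ u = T u := by rw [← mulVec_mulVec, he2 u hu, hQ]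
  rw [← h3, mulVec_mulVec, h2, ← mulVec_mulVec, hz u hu, mulVec_smul]

theorem cc_cc (z : ℂ) : cc (cc z) = z := by
  change (starRingEnd ℂ) ((starRingEnd ℂ) z) = z
  exact Complex.conj_conj z

/-- The conjugate of an irreducible submodule is dual to it. -/
theorem du_cc (h : PM Z) {U : Submodule ℂ (Fin g ⊕ Fin g → ℂ)} (hU : IrS (LZ Z) U) :
    Du (RZ Z) 1 U (cjS cc U) := by
  have hUb : IrS (LZ Z) (cjS cc U) := hU.cj gal_LZ cc
  rw [rz_du h hU.2.1 hUb.2.1]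
  obtain ⟨u0, hu0, hu00⟩ := Submodule.exists_mem_ne_zero_of_ne_bot hU.1
  refine ⟨om g, ⟨u0, hu0, DZ Z *ᵥ cnj u0, ?_, fun h0 => ?_⟩, fun X hX u _ v _ => h.om_sp hX u v⟩
  · refine hUb.2.1 _ DZ_mem _ ?_
    change cnj (cnj u0) ∈ U
    rwa [cnj_cnj]
  · have h2 : cnj u0 ≠ 0 := by
      intro h3
      apply hu00
      rw [← cnj_cnj u0, h3]
      funext i
      simp [cnj]
    have h3 := h.herm_pos h2
    rw [cnj_cnj, h0, mul_zero] at h3
    exact lt_irrefl _ h3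

section main

variable {M : Matrix (Fin g ⊕ Fin g) (Fin g ⊕ Fin g) ℚ} (k : CG Z M) (h : PM Z)
include k h

/-- The label of the dual. -/
theorem CG.du {U U' : Submodule ℂ (Fin g ⊕ Fin g → ℂ)} (hU : IrS (LZ Z) U)
    (hU' : IrS (LZ Z) U') (hd : Du (RZ Z) 1 U U') {θ : ℂ} (h1 : U ≤ VE M θ) :
    U' ≤ VE M (cc θ) ∧ finrank ℂ U' = finrank ℂ U := by
  have hUb : IrS (LZ Z) (cjS cc U) := hU.cj gal_LZ cc
  have hSI : ∀ {V}, IrS (LZ Z) V → SI (RZ Z) V := fun {V} hV => (si_iff h.genI).2 hV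
  have h2 : Tw (RZ Z) (fun _ => 1) (cjS cc U) U' :=
    Du.tw (hSI hU) (hSI hUb) (hSI hU') (du_cc h hU) hd
  obtain ⟨Δ, hΔ, T, hT1, hT0, hT2⟩ := h2
  obtain rfl := fi_top Δ hΔ
  have hT3 : ∀ X ∈ LZ Z, ∀ u ∈ cjS cc U, T (X *ᵥ u) = X *ᵥ T u := by
    refine (rz_equiv h hUb.2.1 T).1 fun g u hu => ?_
    rw [hT2 g (Subgroup.mem_top g) u hu, one_smul]
  have hmap := hUb.map_eq hU' hT3 hT0 hT1
  have h3 : cjS cc U ≤ VE M (cc θ) := by
    rw [← VE_cj]
    exact cjS_mono h1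
  have h4 := label_iso h k.cent hUb.2.1 hT3 (z := cc θ) fun u hu => mem_VE.1 (h3 hu)
  constructor
  · intro v hv
    rw [← hmap] at hv
    obtain ⟨u, hu, rfl⟩ := hv
    exact mem_VE.2 (h4 u hu)
  · rw [← hmap, ← finrank_cjS cc U]
    refine finrank_map_of_inj fun u hu hTu => ?_
    have h5 := tw_inj (hSI hUb) inferInstance hT0 hT2
    exact h5 u hu hTu

/-- There are no characters if the centre is nondegenerate. -/
theorem CG.zero
    (nd : ∀ c : ℂ → ℚ, (∀ s, c (cc s) = -c s) →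
      (∀ τ : ℂ ≃+* ℂ, ∑ᶠ s, c s * (pd Z (VE M (τ s)) : ℚ) = 0) →
        ∀ s, pd Z (VE M s) ≠ 0 → c s = 0)
    {s : ℕ} (W : Fin s → Submodule ℂ (Fin g ⊕ Fin g → ℂ)) (hW : ∀ i, IrS (LZ Z) (W i))
    (hWW : ∀ i j, Tw (RZ Z) (fun _ => 1) (W i) (W j) → i = j)
    (st : Fin s → Fin s) (hst : ∀ i, st (st i) = i)
    (hDu : ∀ i, Du (RZ Z) 1 (W i) (W (st i))) (a : Fin s → ℤ) (ha : ∀ i, a (st i) = -a i)
    (htr : ∀ τ : ℂ ≃+* ℂ, ∑ i, a i * Pool.Agent.Y90.tr Z (cjS τ (W i)) = 0) (i : Fin s) :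
    a i = 0 := by
  classical
  choose θ hθ using fun i => k.label h (hW i)
  have hne : ∀ i, ∃ u ∈ W i, u ≠ 0 := fun i =>
    Submodule.exists_mem_ne_zero_of_ne_bot (hW i).1
  have hinj : ∀ i j, θ i = θ j → i = j := by
    intro i j hij
    apply hWW
    obtain ⟨T, hT, hT0, hTW⟩ := k.iso h (hW i) (hW j) (hθ i) (hij ▸ hθ j)
    refine ⟨⊤, inferInstance, T, fun u hu => ?_, ?_, fun g _ u hu => ?_⟩
    · rw [← hTW]
      exact ⟨u, hu, rfl⟩
    · obtain ⟨u, hu, hu0⟩ := hne i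
      exact ⟨u, hu, fun h1 => hu0 (hT0 u hu h1)⟩
    · rw [one_smul]
      exact (rz_equiv h (hW i).2.1 T).2 (fun X hX u _ => hT X hX u) g u hu
  have hlab : ∀ i, θ (st i) = cc (θ i) ∧ finrank ℂ (W (st i)) = finrank ℂ (W i) := by
    intro i
    obtain ⟨h1, h2⟩ := k.du h (hW i) (hW (st i)) (hDu i) (hθ i)
    refine ⟨?_, h2⟩
    obtain ⟨u, hu, hu0⟩ := hne (st i)
    have h3 := mem_VE.1 (hθ (st i) hu)
    rw [mem_VE.1 (h1 hu)] at h3
    have h4 : (cc (θ i) - θ (st i)) • u = 0 := by rw [sub_smul, h3, sub_self]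
    exact (sub_eq_zero.1 ((smul_eq_zero.1 h4).resolve_right hu0)).symm
  -- the dimensions
  let d : Fin s → ℚ := fun i => (finrank ℂ (W i) : ℚ)
  let D : Fin s → ℚ := fun i => (finrank ℂ (VE M (θ i)) : ℚ)
  have hd0 : ∀ i, d i ≠ 0 := by
    intro i h1
    have h1' : (finrank ℂ (W i) : ℚ) = 0 := h1
    have h2 : finrank ℂ (W i) = 0 := by exact_mod_cast h1'
    exact (hW i).1 (Submodule.finrank_eq_zero.1 h2)
  have hD0 : ∀ i, D i ≠ 0 := by
    intro i h1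
    have h1' : (finrank ℂ (VE M (θ i)) : ℚ) = 0 := h1
    have h2 : finrank ℂ (VE M (θ i)) = 0 := by exact_mod_cast h1'
    have h3 := Submodule.finrank_eq_zero.1 h2
    obtain ⟨u, hu, hu0⟩ := hne i
    have h4 := hθ i hu
    rw [h3] at h4
    exact hu0 ((Submodule.mem_bot _).1 h4)
  have hDst : ∀ i, D (st i) = D i := by
    intro i
    change ((finrank ℂ (VE M (θ (st i))) : ℕ) : ℚ) = ((finrank ℂ (VE M (θ i)) : ℕ) : ℚ)
    rw [(hlab i).1, ← VE_cj, finrank_cjS]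
  have hdst : ∀ i, d (st i) = d i := by
    intro i
    change ((finrank ℂ (W (st i)) : ℕ) : ℚ) = ((finrank ℂ (W i) : ℕ) : ℚ)
    rw [(hlab i).2]
  let stE : Equiv.Perm (Fin s) := ⟨st, st, hst, hst⟩
  let w : Fin s → ℚ := fun i => (a i : ℚ) * d i / D i
  have hwst : ∀ i, w (st i) = -w i := by
    intro i
    change (a (st i) : ℚ) * d (st i) / D (st i) = -((a i : ℚ) * d i / D i)
    rw [ha, hdst, hDst]
    push_cast
    ring
  let c : ℂ → ℚ := fun z => ∑ i, if θ i = z then w i else 0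
  have hcθ : ∀ i, c (θ i) = w i := by
    intro i
    change ∑ j, (if θ j = θ i then w j else 0) = w i
    rw [Finset.sum_eq_single i]
    · rw [if_pos rfl]
    · intro j _ hj
      exact if_neg fun h1 => hj (hinj j i h1)
    · intro h1
      exact absurd (Finset.mem_univ i) h1
  have hc1 : ∀ z, c (cc z) = -c z := by
    intro z
    change ∑ i, (if θ i = cc z then w i else 0) = -∑ i, (if θ i = z then w i else 0)
    rw [← Equiv.sum_comp stE, ← Finset.sum_neg_distrib]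
    refine Finset.sum_congr rfl fun i _ => ?_
    change (if θ (st i) = cc z then w (st i) else 0) = -(if θ i = z then w i else 0)
    rw [(hlab i).1, hwst]
    by_cases h1 : θ i = z
    · rw [if_pos h1, if_pos (by rw [h1])]
    · rw [if_neg h1, if_neg (fun h2 => h1 (cc.injective h2)), neg_zero]
  -- the traces
  have htr' : ∀ (τ : ℂ ≃+* ℂ) (i : Fin s), (Pool.Agent.Y90.tr Z (cjS τ (W i)) : ℚ) =
      d i / D i * (2 * (pd Z (VE M (τ (θ i))) : ℚ)) - d i := by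
    intro τ i
    have e1 : IrS (LZ Z) (cjS τ (W i)) := (hW i).cj gal_LZ τ
    have e2 : cjS τ (W i) ≤ VE M (τ (θ i)) := by
      rw [← VE_cj]
      exact cjS_mono (hθ i)
    have e3 := k.prop h e1 e2 _ (VE M (τ (θ i))) rfl le_rfl (VE_stab k.cent.1 _)
    have e4 := pd_add_qd h e1.2.1
    rw [finrank_cjS] at e3 e4
    have e5 : finrank ℂ (VE M (τ (θ i))) = finrank ℂ (VE M (θ i)) := by
      rw [← VE_cj, finrank_cjS]
    rw [e5] at e3
    have e6 : (pd Z (VE M (τ (θ i))) : ℚ) * d i = (pd Z (cjS τ (W i)) : ℚ) * D i := by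
      change (pd Z (VE M (τ (θ i))) : ℚ) * (finrank ℂ (W i) : ℚ) =
        (pd Z (cjS τ (W i)) : ℚ) * (finrank ℂ (VE M (θ i)) : ℚ)
      exact_mod_cast e3
    have e7 : (pd Z (cjS τ (W i)) : ℚ) + (qd Z (cjS τ (W i)) : ℚ) = d i := by
      change (pd Z (cjS τ (W i)) : ℚ) + (qd Z (cjS τ (W i)) : ℚ) = (finrank ℂ (W i) : ℚ)
      exact_mod_cast e4
    have e8 : (Pool.Agent.Y90.tr Z (cjS τ (W i)) : ℚ) =
        (pd Z (cjS τ (W i)) : ℚ) - (qd Z (cjS τ (W i)) : ℚ) := by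
      unfold Pool.Agent.Y90.tr
      push_cast
      ring
    rw [e8]
    have e9 : (pd Z (cjS τ (W i)) : ℚ) = (pd Z (VE M (τ (θ i))) : ℚ) * d i / D i := by
      rw [e6, mul_div_assoc, div_self (hD0 i), mul_one]
    have e10 : (qd Z (cjS τ (W i)) : ℚ) = d i - (pd Z (cjS τ (W i)) : ℚ) := by linarith
    rw [e10, e9]
    ring
  have hsum0 : ∑ i, (a i : ℚ) * d i = 0 := by
    have h1 : ∑ i, (a i : ℚ) * d i = -∑ i, (a i : ℚ) * d i := by
      conv_lhs => rw [← Equiv.sum_comp stE]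
      rw [← Finset.sum_neg_distrib]
      refine Finset.sum_congr rfl fun i _ => ?_
      change (a (st i) : ℚ) * d (st i) = _
      rw [ha, hdst]
      push_cast
      ring
    linarith
  have hmain : ∀ τ : ℂ ≃+* ℂ, ∑ i, w i * (pd Z (VE M (τ (θ i))) : ℚ) = 0 := by
    intro τ
    have h1 : ∑ i, (a i : ℚ) * (Pool.Agent.Y90.tr Z (cjS τ (W i)) : ℚ) = 0 := by
      exact_mod_cast htr τ
    have h2 : ∀ i, (a i : ℚ) * (Pool.Agent.Y90.tr Z (cjS τ (W i)) : ℚ) =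
        2 * (w i * (pd Z (VE M (τ (θ i))) : ℚ)) - (a i : ℚ) * d i := by
      intro i
      rw [htr']
      change _ = 2 * ((a i : ℚ) * d i / D i * (pd Z (VE M (τ (θ i))) : ℚ)) - (a i : ℚ) * d i
      ring
    rw [Finset.sum_congr rfl fun i _ => h2 i, Finset.sum_sub_distrib, hsum0, sub_zero,
      ← Finset.mul_sum] at h1
    linarith
  have hc2 : ∀ τ : ℂ ≃+* ℂ, ∑ᶠ z, c z * (pd Z (VE M (τ z)) : ℚ) = 0 := by
    intro τ
    rw [finsum_eq_sum_of_support_subset (s := Finset.univ.image θ)]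
    · rw [← hmain τ, Finset.sum_image fun i _ j _ hij => hinj i j hij]
      exact Finset.sum_congr rfl fun i _ => by rw [hcθ]
    · intro z hz
      rw [Function.mem_support] at hz
      rw [Finset.coe_image, Finset.coe_univ, Set.image_univ]
      by_contra h1
      apply hz
      have h2 : c z = 0 := by
        change ∑ i, (if θ i = z then w i else 0) = 0
        exact Finset.sum_eq_zero fun i _ => if_neg fun h2 => h1 ⟨i, h2⟩
      rw [h2, zero_mul]
  have hfin := nd c hc1 hc2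
  have hw0 : w i = 0 := by
    by_cases h1 : pd Z (VE M (θ i)) = 0
    · have h2 : pd Z (VE M (cc (θ i))) ≠ 0 := by
        rw [← VE_cj, pd_cc]
        intro h3
        have h4 := pd_add_qd h (VE_stab k.cent.1 (θ i))
        rw [h1, h3] at h4
        apply hD0 i
        change ((finrank ℂ (VE M (θ i)) : ℕ) : ℚ) = 0
        rw [← h4]
        norm_num
      have h3 := hfin _ h2
      rw [hc1, hcθ, neg_eq_zero] at h3
      exact h3
    · have h3 := hfin _ h1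
      rwa [hcθ] at h3
  change (a i : ℚ) * d i / D i = 0 at hw0
  rw [div_eq_zero_iff, mul_eq_zero] at hw0
  rcases hw0 with (h1 | h1) | h1
  · exact_mod_cast h1
  · exact absurd h1 (hd0 i)
  · exact absurd h1 (hD0 i)

end main

end

end Pool.Agent.N183.U5
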