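import Mathlib
import Pool.Agent.N183.U5.Zer
import Pool.Agent.N183.U5.Ten
import Pool.Agent.N183.U5.Stm2

/-!
# The centre and its multiplicities
-/

set_option linter.unusedSectionVars false

namespace Pool.Agent.N183.U5

open Matrix Module Pool.Agent.W437.HC Pool.Agent.W437.HD Pool.Agent.W548.Odd
open Pool.Agent.H204R3.SP Pool.Agent.H204R3.GP Pool.Agent.Y90 Pool.Agent.Y224.TS TensorProduct
open Pool.Agent.Y224.TS.St (IsHodgeTate IsTateModule)
open Pool.Agent.H204R3.CM (IsHodge)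
open Pool.Agent.W437.HP (cK cK_mul cK_one)
open Pool.Agent.R915 (RealMax QuadMult HasCMult IsFactor EndQuad VE mem_VE VE_cj VE_stab pd_sig
  CentM commL_of)
open Pool.Agent.N183.TS

noncomputable section

section per

variable {B : Type} [Fintype B] [DecidableEq B] {T T' : Type} [AddCommGroup T] [Module ℂ T]
  [AddCommGroup T'] [Module ℂ T'] {per : (B → ℚ) →+ T} {J : Matrix B B ℝ}

/-- The periods span the tangent space. -/
theorem ext_per (h : Cht per J) {f f' : T →ₗ[ℂ] T'} (he : ∀ v, f (per v) = f' (per v)) :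
    f = f' := by
  obtain ⟨P, I, hP1, hP2, hI1, hI2⟩ := h.ex
  have h1 : (f.restrictScalars ℝ).comp P = (f'.restrictScalars ℝ).comp P := by
    refine (Pi.basisFun ℝ B).ext fun i => ?_
    rw [Pi.basisFun_apply, LinearMap.comp_apply, LinearMap.comp_apply, ← single_castR, hP1]
    exact he _
  refine LinearMap.ext fun t => ?_
  have h2 := congrArg (fun g => g (I t)) h1
  change f (P (I t)) = f' (P (I t)) at h2
  rwa [hI2] at h2

end per

section cen

variable {G : ℕ} {Z : Matrix (Fin G) (Fin G) ℂ} {X : AV} {b : Basis (Fin G ⊕ Fin G) ℚ X.H}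
  (hZ : PM Z) (hC : Cht (X.per.comp b.equivFun.symm.toLinearMap.toAddMonoidHom) (JR Z))
include hZ hC

omit hZ in
theorem CentreGen.cg {φ : Module.End ℚ X.H} (k : CentreGen X φ) :
    CG Z (LinearMap.toMatrix b b φ) := by
  obtain ⟨k1, k2, k3⟩ := k
  have hh : ∀ a : Module.End ℚ X.H, IsHom X X a ↔
      ∀ Y ∈ LZ Z, qm (LinearMap.toMatrix b b a) * Y = Y * qm (LinearMap.toMatrix b b a) :=
    fun a => hom_iff b hC a
  have hh' : ∀ R : Matrix (Fin G ⊕ Fin G) (Fin G ⊕ Fin G) ℚ, qm R * DZ Z = DZ Z * qm R →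
      IsHom X X (Matrix.toLin b b R) := fun R hR => (hh _).2 (by
    rw [LinearMap.toMatrix_toLin]
    exact fun Y hY => (commL_of hR Y hY).symm)
  refine ⟨⟨(hh φ).1 k1 _ DZ_mem, fun R hR => ?_⟩, fun C hC => ?_⟩
  · have h1 := k2 _ (hh' R hR)
    have h2 := congrArg (LinearMap.toMatrix b b) h1
    rw [LinearMap.toMatrix_mul, LinearMap.toMatrix_mul, LinearMap.toMatrix_toLin] at h2
    exact h2.symm
  · have h1 := k3 (Matrix.toLin b b C) (hh' C hC.1) (fun f hf => by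
      have h2 := hC.2 (LinearMap.toMatrix b b f) ((hh f).1 hf _ DZ_mem)
      have h3 := congrArg (Matrix.toLin b b) h2
      rw [Matrix.toLin_mul b b b, Matrix.toLin_mul b b b, Matrix.toLin_toMatrix] at h3
      exact h3.symm)
    rw [Algebra.adjoin_singleton_eq_range_aeval] at h1 ⊢
    obtain ⟨p, hp⟩ := h1
    refine ⟨p, ?_⟩
    change Polynomial.aeval φ p = _ at hp
    change Polynomial.aeval (LinearMap.toMatrix b b φ) p = C
    have h2 := Polynomial.aeval_algHom_apply (LinearMap.toMatrixAlgEquiv b).toAlgHom φ p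
    change Polynomial.aeval (LinearMap.toMatrix b b φ) p =
      LinearMap.toMatrix b b (Polynomial.aeval φ p) at h2
    rw [h2, hp, LinearMap.toMatrix_toLin]

theorem pd_eig {φ : Module.End ℚ X.H} (k : IsHom X X φ) {Ψ : Module.End ℂ X.T}
    (hΨ : ∀ v, Ψ (X.per v) = X.per (φ v)) (s : ℂ) :
    pd Z (VE (LinearMap.toMatrix b b φ) s) = finrank ℂ (Ψ.eigenspace s) := by
  obtain ⟨Ψ₂, h₂⟩ := hC.hom hZ.cht (R := 1) (by rw [cK_one, Matrix.one_mul, Matrix.mul_one])
  obtain ⟨Ψ₃, h₃⟩ := hZ.cht.hom hC (R := 1) (by rw [cK_one, Matrix.one_mul, Matrix.mul_one])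
  have e₂ : ∀ v, Ψ₂ (X.per v) = perOne Z (b.equivFun v) := fun v => by
    have h3 := h₂ (b.equivFun v)
    have h4 : (X.per.comp b.equivFun.symm.toLinearMap.toAddMonoidHom) (b.equivFun v) = X.per v := by
      change X.per (b.equivFun.symm (b.equivFun v)) = X.per v
      rw [LinearEquiv.symm_apply_apply]
    rwa [h4, one_mulVec] at h3
  have e₃ : ∀ w, Ψ₃ (perOne Z w) = X.per (b.equivFun.symm w) := fun w => by
    rw [h₃, one_mulVec]
    rfl
  have h32 : Ψ₃.comp Ψ₂ = LinearMap.id := by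
    refine ext_per hC fun v => ?_
    change Ψ₃ (Ψ₂ (X.per (b.equivFun.symm v))) = X.per (b.equivFun.symm v)
    rw [e₂, e₃, LinearEquiv.apply_symm_apply]
  have h23 : Ψ₂.comp Ψ₃ = LinearMap.id := by
    refine ext_per hZ.cht fun v => ?_
    change Ψ₂ (Ψ₃ (perOne Z v)) = perOne Z v
    rw [e₃, e₂, LinearEquiv.apply_symm_apply]
  let e : X.T ≃ₗ[ℂ] (Fin G → ℂ) := LinearEquiv.ofLinearMap Ψ₂ Ψ₃ h23 h32
  let Ψ' : (Fin G → ℂ) →ₗ[ℂ] (Fin G → ℂ) := Ψ₂.comp (Ψ.comp Ψ₃)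
  have hΨ' : ∀ v, Ψ' (perOne Z v) = perOne Z (LinearMap.toMatrix b b φ *ᵥ v) := by
    intro v
    change Ψ₂ (Ψ (Ψ₃ (perOne Z v))) = _
    rw [e₃, hΨ, e₂]
    congr 1
    have h5 := LinearMap.toMatrix_mulVec_repr b b φ (b.equivFun.symm v)
    have h6 : b.repr (b.equivFun.symm v) = (v : Fin G ⊕ Fin G → ℚ) := by
      have h7 := b.equivFun.apply_symm_apply v
      exact h7
    rw [h6] at h5
    exact h5.symm
  have hk : qm (LinearMap.toMatrix b b φ) * DZ Z = DZ Z * qm (LinearMap.toMatrix b b φ) :=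
    (hom_iff b hC φ).1 k _ DZ_mem
  rw [pd_sig hZ hk hΨ' s fun v => mem_VE]
  have h1 : LinearMap.ker (Ψ' - s • LinearMap.id) = (Ψ.eigenspace s).map e.toLinearMap := by
    ext t
    rw [LinearMap.mem_ker, LinearMap.sub_apply, sub_eq_zero, Submodule.mem_map]
    constructor
    · intro ht
      refine ⟨Ψ₃ t, ?_, ?_⟩
      · rw [Module.End.mem_eigenspace_iff]
        have h5 := congrArg Ψ₃ ht
        change Ψ₃ (Ψ₂ (Ψ (Ψ₃ t))) = Ψ₃ (s • t) at h5
        rw [map_smul] at h5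
        rw [← h5]
        exact (LinearMap.congr_fun h32 _).symm
      · exact LinearMap.congr_fun h23 t
    · rintro ⟨u, hu, rfl⟩
      rw [Module.End.mem_eigenspace_iff] at hu
      change Ψ₂ (Ψ (Ψ₃ (Ψ₂ u))) = s • Ψ₂ u
      have h5 : Ψ₃ (Ψ₂ u) = u := LinearMap.congr_fun h32 u
      rw [h5, hu, map_smul]
  rw [h1]
  exact LinearEquiv.finrank_map_eq e _

/-- The data of the multiplicity function. -/
theorem IsCentreMult.cg {n : ℂ → ℕ} (k : IsCentreMult X n) :
    ∃ M : Matrix (Fin G ⊕ Fin G) (Fin G ⊕ Fin G) ℚ, CG Z M ∧ ∀ s, pd Z (VE M s) = n s := by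
  obtain ⟨φ, Ψ, k, hΨ, hn⟩ := k
  refine ⟨_, k.cg hC, fun s => ?_⟩
  rw [pd_eig hZ hC k.1 hΨ, hn]

end cen

end

end Pool.Agent.N183.U5
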