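import Mathlib
import Pool.Agent.N183.U5.Zer

/-!
# Separated centres: there are no twists
-/

set_option linter.unusedSectionVars false

namespace Pool.Agent.N183.U5

open Matrix Module Pool.Agent.W437.HC Pool.Agent.W437.HD Pool.Agent.W548.Odd Pool.Agent.W522.U
open Pool.Agent.H204R3.SP Pool.Agent.H204R3.GP Pool.Agent.Y90 Pool.Agent.Y224.TS
open Pool.Agent.W437.HP (cK cK_mul cK_one)
open Pool.Agent.R915 (CentM commL_of VE mem_VE VE_cj VE_stab aeval_eig exists_S exists_projU)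
open Pool.Agent.N183.TS
open Polynomial

noncomputable section

/-- Separation for a multiplicity function. -/
def SepN (n : ℂ → ℕ) : Prop :=
  ∀ s s' : ℂ, (∃ τ : ℂ ≃+* ℂ, n (τ s) ≠ 0 ∧ n (cc (τ s)) ≠ 0) →
    (∃ τ : ℂ ≃+* ℂ, n (τ s) * n (cc (τ s')) ≠ n (τ s') * n (cc (τ s))) →
      ∃ τ : ℂ ≃+* ℂ, n (τ s) * n (cc (τ s')) ≠ n (τ s') * n (cc (τ s)) ∧
        ¬((n (τ s) = 0 ∨ n (cc (τ s)) = 0) ∧ (n (τ s') = 0 ∨ n (cc (τ s')) = 0))

variable {G : ℕ} {Z : Matrix (Fin G) (Fin G) ℂ}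
  {S : Set (Matrix (Fin G ⊕ Fin G) (Fin G ⊕ Fin G) ℂ)}

/-- Commutation with the generators. -/
theorem eqv_gen (h : TD Z S) (hZ : PM Z) {U U' : Submodule ℂ (Fin G ⊕ Fin G → ℂ)}
    (hU : IrS (LZ Z) U) {T : (Fin G ⊕ Fin G → ℂ) →ₗ[ℂ] (Fin G ⊕ Fin G → ℂ)}
    (hT1 : ∀ u ∈ U, T u ∈ U') (hT0 : ∃ u ∈ U, T u ≠ 0)
    (hD : ∀ D ∈ S, ∀ u ∈ U, T (D *ᵥ u) = D *ᵥ T u) :
    Tw (RG (GG (Y224.TS.LT S))) (fun _ => 1) U U' := by
  have hU' : IrS (Y224.TS.LT S) U := (h.irS hZ).2 hU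
  let C : Submodule ℂ (Matrix (Fin G ⊕ Fin G) (Fin G ⊕ Fin G) ℂ) :=
    { carrier := {X | ∀ u ∈ U, X *ᵥ u ∈ U ∧ T (X *ᵥ u) = X *ᵥ T u}
      add_mem' := by
        intro X Y hX hY u hu
        obtain ⟨x1, x2⟩ := hX u hu
        obtain ⟨y1, y2⟩ := hY u hu
        rw [add_mulVec, add_mulVec, map_add, x2, y2]
        exact ⟨U.add_mem x1 y1, rfl⟩
      zero_mem' := by
        intro u hu
        rw [zero_mulVec, zero_mulVec, map_zero]
        exact ⟨U.zero_mem, rfl⟩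
      smul_mem' := by
        intro c X hX u hu
        obtain ⟨x1, x2⟩ := hX u hu
        rw [smul_mulVec, smul_mulVec, map_smul, x2]
        exact ⟨U.smul_mem c x1, rfl⟩ }
  have hC : Y224.TS.LT S ≤ C := by
    refine LT_le (fun D hDS u hu => ⟨hU'.2.1 _ (LT_gen hDS) u hu, hD D hDS u hu⟩)
      (fun A hA B hB u hu => ?_)
    obtain ⟨a1, a2⟩ := hA u hu
    obtain ⟨b1, b2⟩ := hB u hu
    obtain ⟨c1, c2⟩ := hA _ b1
    obtain ⟨d1, d2⟩ := hB _ a1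
    rw [sub_mulVec, sub_mulVec, ← mulVec_mulVec, ← mulVec_mulVec, ← mulVec_mulVec,
      ← mulVec_mulVec, map_sub, c2, d2, a2, b2]
    exact ⟨U.sub_mem c1 d1, rfl⟩
  refine ⟨⊤, inferInstance, T, hT1, hT0, fun g _ u hu => ?_⟩
  rw [one_smul]
  exact (gz_equiv h.genI hU'.2.1 T).2 (fun X hX u hu => (hC hX u hu).2) g u hu

/-- A twisted isomorphism and one involution. -/
theorem twist_dich {V : Type} [AddCommGroup V] [Module ℂ V] {U : Submodule ℂ V} {T : V →ₗ[ℂ] V}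
    (hTi : ∀ u ∈ U, T u = 0 → u = 0) {D : End ℂ V} (hD : D * D = 1) (hDU : ∀ u ∈ U, D u ∈ U)
    (ψ : ℂ) (hT : ∀ u ∈ U, T (torE D two u) = ψ • torE D two (T u)) (hψ : ψ ≠ 0) :
    (∀ u ∈ U, T (D u) = D (T u)) ∨
      ∃ ε : ℂ, (ε = 1 ∨ ε = -1) ∧ (∀ u ∈ U, D u = ε • u) ∧ ∀ u ∈ U, D (T u) = -(ε • T u) := by
  by_cases hns : ∀ c : ℂ, ∃ u ∈ U, D u ≠ c • u
  · exact Or.inl (twist_free hTi hD hDU hns ψ hT hψ)
  push Not at hns
  obtain ⟨c, hc⟩ := hns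
  have hDD : ∀ v, D (D v) = v := fun v => by
    rw [← Module.End.mul_apply, hD, Module.End.one_apply]
  by_cases hU0 : ∀ u ∈ U, u = 0
  · left
    intro u hu
    rw [hU0 u hu, map_zero, map_zero, map_zero]
  push Not at hU0
  obtain ⟨u0, hu0, hu00⟩ := hU0
  have hcc : c * c = 1 := by
    have h1 := hDD u0
    rw [hc u0 hu0, map_smul, hc u0 hu0, smul_smul] at h1
    have h2 : (c * c - 1) • u0 = 0 := by rw [sub_smul, h1, one_smul, sub_self]
    exact sub_eq_zero.1 ((smul_eq_zero.1 h2).resolve_right hu00)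
  have hc1 : c = 1 ∨ c = -1 := mul_self_eq_one_iff.1 hcc
  have key : ∀ u ∈ U, ∃ e : ℂ, D (T u) = e • T u ∧
      e = (4 * ((5 / 4 + 3 / 4 * c) * ψ⁻¹) - 5) / 3 := by
    intro u hu
    refine ⟨_, ?_, rfl⟩
    have h1 := hT u hu
    rw [torE_two, torE_two, map_add, map_smul, map_smul, hc u hu, map_smul] at h1
    have h2 : ((5 / 4 : ℂ) • T u + (3 / 4 : ℂ) • D (T u)) = ((5 / 4 + 3 / 4 * c) * ψ⁻¹) • T u := by
      have h3 : ψ⁻¹ • (ψ • ((5 / 4 : ℂ) • T u + (3 / 4 : ℂ) • D (T u))) =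
          ψ⁻¹ • ((5 / 4 : ℂ) • T u + (3 / 4 : ℂ) • c • T u) := by rw [h1]
      rw [smul_smul, inv_mul_cancel₀ hψ, one_smul] at h3
      rw [h3]
      module
    have h4 : D (T u) = (4 / 3 : ℂ) • (((5 / 4 : ℂ) • T u + (3 / 4 : ℂ) • D (T u)) -
        (5 / 4 : ℂ) • T u) := by module
    rw [h4, h2]
    module
  obtain ⟨e, he, hee⟩ := key u0 hu0
  have he2 : e * e = 1 := by
    have h1 := hDD (T u0)
    rw [he, map_smul, he, smul_smul] at h1
    have h2 : (e * e - 1) • T u0 = 0 := by rw [sub_smul, h1, one_smul, sub_self]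
    refine sub_eq_zero.1 ((smul_eq_zero.1 h2).resolve_right fun h3 => hu00 (hTi u0 hu0 h3))
  have he1 : e = 1 ∨ e = -1 := mul_self_eq_one_iff.1 he2
  have hall : ∀ u ∈ U, D (T u) = e • T u := by
    intro u hu
    obtain ⟨e', h1, h2⟩ := key u hu
    rw [h1, h2, ← hee]
  by_cases hec : e = c
  · left
    intro u hu
    rw [hall u hu, hc u hu, map_smul, hec]
  · right
    refine ⟨c, hc1, hc, fun u hu => ?_⟩
    have h1 : e = -c := by
      rcases hc1 with rfl | rfl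
      · exact he1.resolve_left hec
      · rw [neg_neg]
        exact he1.resolve_right hec
    rw [hall u hu, h1, neg_smul]

section main

variable (h : TD Z S) (hZ : PM Z) {M : Matrix (Fin G ⊕ Fin G) (Fin G ⊕ Fin G) ℚ} (k : CG Z M)
  (hsep : SepN fun s => pd Z (VE M s))
include h hZ k hsep

omit h hsep in
/-- The multiplicities of an irreducible submodule in terms of its label. -/
theorem lab_mult {U : Submodule ℂ (Fin G ⊕ Fin G → ℂ)} (hU : IrS (LZ Z) U) {θ : ℂ}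
    (h1 : U ≤ VE M θ) (τ : ℂ ≃+* ℂ) :
    pd Z (VE M (τ θ)) * finrank ℂ U = pd Z (cjS τ U) * finrank ℂ (VE M θ) ∧
      pd Z (VE M (cc (τ θ))) * finrank ℂ U = qd Z (cjS τ U) * finrank ℂ (VE M θ) := by
  have e1 : IrS (LZ Z) (cjS τ U) := hU.cj gal_LZ τ
  have e2 : cjS τ U ≤ VE M (τ θ) := by
    rw [← VE_cj]
    exact cjS_mono h1
  have e3 := k.prop hZ e1 e2 _ (VE M (τ θ)) rfl le_rfl (VE_stab k.cent.1 _)
  have e5 : finrank ℂ (VE M (τ θ)) = finrank ℂ (VE M θ) := by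
    rw [← VE_cj, finrank_cjS]
  rw [finrank_cjS, e5] at e3
  refine ⟨e3, ?_⟩
  have e4 := pd_add_qd hZ e1.2.1
  have e6 := pd_add_qd hZ (VE_stab k.cent.1 (τ θ))
  rw [finrank_cjS] at e4
  rw [e5] at e6
  have e7 : pd Z (VE M (cc (τ θ))) = qd Z (VE M (τ θ)) := by
    rw [← VE_cj M (τ θ) cc, pd_cc]
  rw [e7]
  have e8 : (pd Z (VE M (τ θ)) + qd Z (VE M (τ θ))) * finrank ℂ U =
      (pd Z (cjS τ U) + qd Z (cjS τ U)) * finrank ℂ (VE M θ) := by
    rw [e4, e6, mul_comm]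
  rw [add_mul, add_mul, e3] at e8
  exact Nat.add_left_cancel e8

/-- There are no twists. -/
theorem tw_sep {U U' : Submodule ℂ (Fin G ⊕ Fin G → ℂ)} (hU : IrS (LZ Z) U)
    (hU' : IrS (LZ Z) U') (hn : 2 ≤ finrank ℂ U) (ψ : Gam (GG (Y224.TS.LT S)) → ℂ)
    (hT : Tw (RG (GG (Y224.TS.LT S))) ψ U U') :
    Tw (RG (GG (Y224.TS.LT S))) (fun _ => 1) U U' := by
  obtain ⟨Δ, hΔ, T, hT1, hT0, hT2⟩ := hT
  obtain rfl := fi_top Δ hΔ
  have hSI := (h.si hZ).2 hU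
  have hSI' := (h.si hZ).2 hU'
  have hinj := tw_inj hSI hΔ hT0 hT2
  have hmap : U.map T = U' := tw_map hSI hSI' hΔ hT1 hT0 hT2
  have hdim : finrank ℂ U' = finrank ℂ U := by
    rw [← hmap]
    exact finrank_map_of_inj hinj
  obtain ⟨θ, hθ⟩ := k.label hZ hU
  obtain ⟨θ', hθ'⟩ := k.label hZ hU'
  have hstab : ∀ D ∈ S, (∀ u ∈ U, ph (Fin G ⊕ Fin G) D u ∈ U) := fun D hDS u hu =>
    (h.stab hZ).2 hU.2.1 D (LT_gen hDS) u hu
  have hstab' : ∀ D ∈ S, (∀ u ∈ U', ph (Fin G ⊕ Fin G) D u ∈ U') := fun D hDS u hu =>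
    (h.stab hZ).2 hU'.2.1 D (LT_gen hDS) u hu
  have hDDs : ∀ D ∈ S, ph (Fin G ⊕ Fin G) D * ph (Fin G ⊕ Fin G) D = 1 := by
    intro D hDS
    rw [← map_mul, h.sq D hDS, map_one]
  have dich : ∀ D ∈ S, (∀ u ∈ U, T (D *ᵥ u) = D *ᵥ T u) ∨
      ∃ ε : ℂ, (ε = 1 ∨ ε = -1) ∧ (∀ u ∈ U, D *ᵥ u = ε • u) ∧
        ∀ u ∈ U, D *ᵥ T u = -(ε • T u) := by
    intro D hDS
    have hDm : ph (Fin G ⊕ Fin G) D ∈ GG (Y224.TS.LT S) := mem_GG.2 (LT_gen hDS)
    have h1 : ∀ u ∈ U, T (torE (ph _ D) two u) =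
        ψ (gt (hDDs D hDS) hDm two) • torE (ph _ D) two (T u) := fun u hu =>
      hT2 (gt (hDDs D hDS) hDm two) (Subgroup.mem_top _) u hu
    have h2 : ψ (gt (hDDs D hDS) hDm two) ≠ 0 := tw_ne hSI hΔ hT0 hT2 (Subgroup.mem_top _)
      (gz_stable h.genI ((h.stab hZ).2 hU.2.1) (gt (hDDs D hDS) hDm two))
    exact twist_dich hinj (hDDs D hDS) (hstab D hDS) _ h1 h2
  refine eqv_gen h hZ hU hT1 hT0 fun D0 hD0 => ?_
  rcases dich D0 hD0 with h0 | ⟨ε, hε, h1, h2⟩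
  · exact h0
  exfalso
  -- the numbers for a pair of an involution and an automorphism
  have hTU' : ∀ v ∈ U', ∃ u ∈ U, T u = v := by
    intro v hv
    rw [← hmap] at hv
    obtain ⟨u, hu, rfl⟩ := hv
    exact ⟨u, hu, rfl⟩
  have fr_top : ∀ (V : Submodule ℂ (Fin G ⊕ Fin G → ℂ)) (D : Matrix _ _ ℂ) (c : ℂ),
      (∀ v ∈ V, D *ᵥ v = c • v) → finrank ℂ (es (ph (Fin G ⊕ Fin G) D) V c) = finrank ℂ V := by
    intro V D c hV
    have h3 : es (ph (Fin G ⊕ Fin G) D) V c = V := by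
      apply le_antisymm inf_le_left
      intro u hu
      exact mem_es.2 ⟨hu, hV u hu⟩
    rw [h3]
  have definite : ∀ (D : Matrix (Fin G ⊕ Fin G) (Fin G ⊕ Fin G) ℂ) (hDS : D ∈ S)
      (σ : ℂ ≃+* ℂ) (hσ : ∀ P : Matrix (Fin G ⊕ Fin G) (Fin G ⊕ Fin G) ℂ,
        (∀ X ∈ LZ Z, P * X = X * P) → (P * D).trace = (P * DS Z σ).trace) (ε : ℂ),
      (ε = 1 ∨ ε = -1) → (∀ u ∈ U, D *ᵥ u = ε • u) → (∀ u ∈ U, D *ᵥ T u = -(ε • T u)) →
      (pd Z (cjS σ.symm U) = 0 ∧ qd Z (cjS σ.symm U') = 0) ∨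
        (qd Z (cjS σ.symm U) = 0 ∧ pd Z (cjS σ.symm U') = 0) := by
    intro D hDS σ hσ ε hε h1 h2
    obtain ⟨d1, d2⟩ := h.dims hZ hDS hσ hU.2.1
    obtain ⟨d3, d4⟩ := h.dims hZ hDS hσ hU'.2.1
    have e4 := es_add (hDDs D hDS) (hstab D hDS)
    have e5 := es_add (hDDs D hDS) (hstab' D hDS)
    have h2' : ∀ v ∈ U', D *ᵥ v = (-ε) • v := by
      intro v hv
      obtain ⟨u, hu, rfl⟩ := hTU' v hv
      rw [h2 u hu, neg_smul]
    rcases hε with rfl | rfl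
    · right
      have e6 := fr_top U D 1 h1
      have e7 := fr_top U' D (-1) h2'
      omega
    · left
      have e6 := fr_top U D (-1) h1
      have e7 := fr_top U' D 1 (by simpa using h2')
      omega
  have commute : ∀ (D : Matrix (Fin G ⊕ Fin G) (Fin G ⊕ Fin G) ℂ) (hDS : D ∈ S)
      (σ : ℂ ≃+* ℂ) (hσ : ∀ P : Matrix (Fin G ⊕ Fin G) (Fin G ⊕ Fin G) ℂ,
        (∀ X ∈ LZ Z, P * X = X * P) → (P * D).trace = (P * DS Z σ).trace),
      (∀ u ∈ U, T (D *ᵥ u) = D *ᵥ T u) → pd Z (cjS σ.symm U) = pd Z (cjS σ.symm U') := by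
    intro D hDS σ hσ hc
    obtain ⟨d1, d2⟩ := h.dims hZ hDS hσ hU.2.1
    obtain ⟨d3, d4⟩ := h.dims hZ hDS hσ hU'.2.1
    rw [← d1, ← d3]
    have e1 : (es (ph (Fin G ⊕ Fin G) D) U 1).map T = es (ph (Fin G ⊕ Fin G) D) U' 1 := by
      ext v
      rw [Submodule.mem_map, mem_es]
      constructor
      · rintro ⟨u, hu, rfl⟩
        obtain ⟨hu1, hu2⟩ := mem_es.1 hu
        refine ⟨hT1 u hu1, ?_⟩
        have e2 : D *ᵥ u = (1 : ℂ) • u := hu2
        change D *ᵥ T u = (1 : ℂ) • T u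
        rw [← hc u hu1, e2, map_smul]
      · rintro ⟨hv1, hv2⟩
        obtain ⟨u, hu, rfl⟩ := hTU' v hv1
        refine ⟨u, mem_es.2 ⟨hu, ?_⟩, rfl⟩
        have e2 : D *ᵥ T u = (1 : ℂ) • T u := hv2
        change D *ᵥ u = (1 : ℂ) • u
        rw [← hc u hu, ← map_smul, ← sub_eq_zero, ← map_sub] at e2
        have e3 := hinj _ (U.sub_mem (hstab D hDS u hu) (U.smul_mem 1 hu)) e2
        exact sub_eq_zero.1 e3
    rw [← e1]
    exact (finrank_map_of_inj fun u hu => hinj u (mem_es.1 hu).1).symm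
  -- a mixed place for `U`
  have hmix : ∃ τ : ℂ ≃+* ℂ, pd Z (cjS τ U) ≠ 0 ∧ qd Z (cjS τ U) ≠ 0 := by
    by_contra hcon
    push Not at hcon
    have hsc : ∀ σ : ℂ ≃+* ℂ, ∃ c : ℂ, ∀ u ∈ U, DS Z σ *ᵥ u = c • u := by
      intro σ
      obtain ⟨e6, e7⟩ := fr_DS (Z := Z) σ U
      have hUS : ∀ u ∈ U, ph (Fin G ⊕ Fin G) (DS Z σ) u ∈ U := fun u hu =>
        hU.2.1 _ (DS_mem σ) u hu
      have e8 := es_add (phDS_sq hZ σ) hUS
      by_cases h3 : pd Z (cjS σ.symm U) = 0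
      · refine ⟨-1, fun u hu => ?_⟩
        have h4 : es (ph (Fin G ⊕ Fin G) (DS Z σ)) U (-1) = U :=
          Submodule.eq_of_le_of_finrank_eq inf_le_left (by omega)
        rw [← h4] at hu
        exact (mem_es.1 hu).2
      · have h5 := hcon σ.symm h3
        refine ⟨1, fun u hu => ?_⟩
        have h4 : es (ph (Fin G ⊕ Fin G) (DS Z σ)) U 1 = U :=
          Submodule.eq_of_le_of_finrank_eq inf_le_left (by omega)
        rw [← h4] at hu
        exact (mem_es.1 hu).2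
    let C : Submodule ℂ (Matrix (Fin G ⊕ Fin G) (Fin G ⊕ Fin G) ℂ) :=
      { carrier := {X | ∃ c : ℂ, ∀ u ∈ U, X *ᵥ u = c • u}
        add_mem' := by
          rintro X Y ⟨c, hX⟩ ⟨d, hY⟩
          exact ⟨c + d, fun u hu => by rw [add_mulVec, hX u hu, hY u hu, add_smul]⟩
        zero_mem' := ⟨0, fun u _ => by rw [zero_mulVec, zero_smul]⟩
        smul_mem' := by
          rintro a X ⟨c, hX⟩
          exact ⟨a * c, fun u hu => by rw [smul_mulVec, hX u hu, smul_smul]⟩ }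
    have hC : LZ Z ≤ C := by
      refine LZ_le (fun σ => hsc σ) ?_
      rintro A ⟨c, hA⟩ B ⟨d, hB⟩
      refine ⟨0, fun u hu => ?_⟩
      rw [sub_mulVec, ← mulVec_mulVec, ← mulVec_mulVec, hA u hu, hB u hu, mulVec_smul, mulVec_smul,
        hA u hu, hB u hu, smul_comm, sub_self, zero_smul]
    obtain ⟨u0, hu0, hu00⟩ := Submodule.exists_mem_ne_zero_of_ne_bot hU.1
    have h3 : Stab (LZ Z) (Submodule.span ℂ {u0}) := by
      intro X hX v hv
      obtain ⟨c, hc⟩ := hC hX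
      have h4 : Submodule.span ℂ {u0} ≤ U := by
        rw [Submodule.span_le, Set.singleton_subset_iff]
        exact hu0
      rw [hc v (h4 hv)]
      exact Submodule.smul_mem _ _ hv
    rcases hU.2.2 _ (by rw [Submodule.span_le, Set.singleton_subset_iff]; exact hu0) h3 with h4 | h4
    · rw [Submodule.span_singleton_eq_bot] at h4
      exact hu00 h4
    · have h5 : finrank ℂ (Submodule.span ℂ {u0}) = 1 := finrank_span_singleton hu00
      rw [h4] at h5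
      omega
  -- conclusion
  have hUp : 0 < finrank ℂ U := by omega
  have hVp : 0 < finrank ℂ (VE M θ) := by
    have h3 := Submodule.finrank_mono hθ
    omega
  have hVp' : 0 < finrank ℂ (VE M θ') := by
    have h3 := Submodule.finrank_mono hθ'
    omega
  have tr1 : ∀ τ : ℂ ≃+* ℂ, (pd Z (VE M (τ θ)) = 0 ↔ pd Z (cjS τ U) = 0) ∧
      (pd Z (VE M (cc (τ θ))) = 0 ↔ qd Z (cjS τ U) = 0) := by
    intro τ
    obtain ⟨h3, h4⟩ := lab_mult hZ k hU hθ τ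
    constructor
    · constructor
      · intro h5
        rw [h5, zero_mul] at h3
        exact (mul_eq_zero.1 h3.symm).resolve_right hVp.ne'
      · intro h5
        rw [h5, zero_mul] at h3
        exact (mul_eq_zero.1 h3).resolve_right hUp.ne'
    · constructor
      · intro h5
        rw [h5, zero_mul] at h4
        exact (mul_eq_zero.1 h4.symm).resolve_right hVp.ne'
      · intro h5
        rw [h5, zero_mul] at h4
        exact (mul_eq_zero.1 h4).resolve_right hUp.ne'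
  have tr2 : ∀ τ : ℂ ≃+* ℂ, (pd Z (VE M (τ θ')) = 0 ↔ pd Z (cjS τ U') = 0) ∧
      (pd Z (VE M (cc (τ θ'))) = 0 ↔ qd Z (cjS τ U') = 0) := by
    intro τ
    obtain ⟨h3, h4⟩ := lab_mult hZ k hU' hθ' τ
    rw [hdim] at h3 h4
    constructor
    · constructor
      · intro h5
        rw [h5, zero_mul] at h3
        exact (mul_eq_zero.1 h3.symm).resolve_right hVp'.ne'
      · intro h5
        rw [h5, zero_mul] at h3
        exact (mul_eq_zero.1 h3).resolve_right hUp.ne'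
    · constructor
      · intro h5
        rw [h5, zero_mul] at h4
        exact (mul_eq_zero.1 h4.symm).resolve_right hVp'.ne'
      · intro h5
        rw [h5, zero_mul] at h4
        exact (mul_eq_zero.1 h4).resolve_right hUp.ne'
  have tr3 : ∀ τ : ℂ ≃+* ℂ, pd Z (cjS τ U) = pd Z (cjS τ U') →
      pd Z (VE M (τ θ)) * pd Z (VE M (cc (τ θ'))) =
        pd Z (VE M (τ θ')) * pd Z (VE M (cc (τ θ))) := by
    intro τ h3
    obtain ⟨h4, h5⟩ := lab_mult hZ k hU hθ τ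
    obtain ⟨h6, h7⟩ := lab_mult hZ k hU' hθ' τ
    rw [hdim] at h6 h7
    have e1 := pd_add_qd hZ (hU.cj gal_LZ τ).2.1
    have e2 := pd_add_qd hZ (hU'.cj gal_LZ τ).2.1
    rw [finrank_cjS] at e1 e2
    have h8 : qd Z (cjS τ U) = qd Z (cjS τ U') := by omega
    have h9 : (finrank ℂ U * finrank ℂ U) * (pd Z (VE M (τ θ)) * pd Z (VE M (cc (τ θ')))) =
        (finrank ℂ U * finrank ℂ U) * (pd Z (VE M (τ θ')) * pd Z (VE M (cc (τ θ)))) := by
      calc (finrank ℂ U * finrank ℂ U) * (pd Z (VE M (τ θ)) * pd Z (VE M (cc (τ θ')))) =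
          (pd Z (VE M (τ θ)) * finrank ℂ U) * (pd Z (VE M (cc (τ θ'))) * finrank ℂ U) := by ring
        _ = (pd Z (VE M (τ θ')) * finrank ℂ U) * (pd Z (VE M (cc (τ θ))) * finrank ℂ U) := by
          rw [h4, h7, h6, h5, h3, h8]
          ring
        _ = _ := by ring
    exact Nat.eq_of_mul_eq_mul_left (Nat.mul_pos hUp hUp) h9
  obtain ⟨τm, hm1, hm2⟩ := hmix
  obtain ⟨σ0, hσ0⟩ := h.tr D0 hD0
  have hdef0 := definite D0 hD0 σ0 hσ0 ε hε h1 h2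
  have e1 := pd_add_qd hZ (hU.cj gal_LZ σ0.symm).2.1
  have e2 := pd_add_qd hZ (hU'.cj gal_LZ σ0.symm).2.1
  rw [finrank_cjS] at e1 e2
  obtain ⟨τ1, hτ1, hτ1'⟩ := hsep θ θ' ⟨τm, fun h3 => hm1 ((tr1 τm).1.1 h3),
    fun h3 => hm2 ((tr1 τm).2.1 h3)⟩ ⟨σ0.symm, fun h3 => by
      change pd Z (VE M (σ0.symm θ)) * pd Z (VE M (cc (σ0.symm θ'))) =
        pd Z (VE M (σ0.symm θ')) * pd Z (VE M (cc (σ0.symm θ))) at h3
      rcases hdef0 with ⟨h4, h5⟩ | ⟨h4, h5⟩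
      · rw [(tr1 σ0.symm).1.2 h4, zero_mul] at h3
        rcases mul_eq_zero.1 h3.symm with h6 | h6
        · have h7 := (tr2 σ0.symm).1.1 h6
          omega
        · have h7 := (tr1 σ0.symm).2.1 h6
          omega
      · rw [(tr1 σ0.symm).2.2 h4, mul_zero] at h3
        rcases mul_eq_zero.1 h3 with h6 | h6
        · have h7 := (tr1 σ0.symm).1.1 h6
          omega
        · have h7 := (tr2 σ0.symm).2.1 h6
          omega⟩
  obtain ⟨D1, hD1, hσ1⟩ := h.ex τ1.symm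
  have hss : τ1.symm.symm = τ1 := rfl
  rcases dich D1 hD1 with h3 | ⟨ε1, hε1, h3, h4⟩
  · have h5 := commute D1 hD1 τ1.symm hσ1 h3
    rw [hss] at h5
    exact hτ1 (tr3 τ1 h5)
  · have h5 := definite D1 hD1 τ1.symm hσ1 ε1 hε1 h3 h4
    rw [hss] at h5
    apply hτ1'
    rcases h5 with ⟨h6, h7⟩ | ⟨h6, h7⟩
    · exact ⟨Or.inl ((tr1 τ1).1.2 h6), Or.inr ((tr2 τ1).2.2 h7)⟩
    · exact ⟨Or.inr ((tr1 τ1).2.2 h6), Or.inl ((tr2 τ1).1.2 h7)⟩

end main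

end

end Pool.Agent.N183.U5
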