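import Mathlib
import Pool.Agent.N183.TS.Glob
import Pool.Agent.N183.U5.Sep

/-!
# Elements of rank one and absence of twists suffice
-/

set_option linter.unusedSectionVars false

namespace Pool.Agent.N183.U5

open Matrix Module Pool.Agent.W437.HC Pool.Agent.W437.HD Pool.Agent.W548.Odd Pool.Agent.W522.U
open Pool.Agent.H204R3.SP Pool.Agent.H204R3.GP Pool.Agent.Y90 Pool.Agent.Y224.TS
open Pool.Agent.W437.HP (cK cK_mul cK_one)
open Pool.Agent.R915 (CentM commL_of VE mem_VE VE_cj VE_stab)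
open Pool.Agent.N183.TS

noncomputable section

variable {G : ℕ} {Z : Matrix (Fin G) (Fin G) ℂ}
  {S : Set (Matrix (Fin G ⊕ Fin G) (Fin G ⊕ Fin G) ℂ)}

/-- The conditions on the simple factors. -/
def LTR (Z : Matrix (Fin G) (Fin G) ℂ)
    (S : Set (Matrix (Fin G ⊕ Fin G) (Fin G ⊕ Fin G) ℂ)) : Prop :=
  ∀ (a : ℕ) (Z' : Matrix (Fin a) (Fin a) ℂ) (E : Matrix (Fin G ⊕ Fin G) (Fin a ⊕ Fin a) ℚ)
    (F : Matrix (Fin a ⊕ Fin a) (Fin G ⊕ Fin G) ℚ), Fac Z Z' E F → PM Z' → IsSimpleAV Z' →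
    0 < a → ∀ U, IrS (LZ Z') U → 2 ≤ finrank ℂ U → Rk1T (SF E F S) U

/-- The conditions on the irreducible submodules. -/
theorem locR (h : TD Z S) (hZ : PM Z) (hs : LTR Z S) {U : Submodule ℂ (Fin G ⊕ Fin G → ℂ)}
    (hU : IrS (LZ Z) U) (hn : 2 ≤ finrank ℂ U) : Rk1T S U := by
  obtain ⟨a, Z', E, F, hf, h', hs', ha, h0⟩ := exists_fac hZ hU.1
  have hinj := hf.inj hU h0
  have hU' := hf.irr hU h0
  exact (hs a Z' E F hf h' hs' ha _ hU' (by rw [finrank_ml hinj]; exact hn)).of_fac h hf hZ hU h0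

/-- Elements of rank one and no twists. -/
structure Gd (Z : Matrix (Fin G) (Fin G) ℂ)
    (S : Set (Matrix (Fin G ⊕ Fin G) (Fin G ⊕ Fin G) ℂ)) : Prop where
  /-- elements of rank one -/
  r : ∀ U, IrS (LZ Z) U → 2 ≤ finrank ℂ U → Rk1T S U
  /-- no twists -/
  t : ∀ U U', IrS (LZ Z) U → IrS (LZ Z) U' → 2 ≤ finrank ℂ U →
    ∀ ψ : Gam (GG (Y224.TS.LT S)) → ℂ, Tw (RG (GG (Y224.TS.LT S))) ψ U U' →
      Tw (RG (GG (Y224.TS.LT S))) (fun _ => 1) U U'

/-- Separated centres. -/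
theorem gd_of (h : TD Z S) (hZ : PM Z) (hs : LTR Z S) {M : Matrix (Fin G ⊕ Fin G) (Fin G ⊕ Fin G) ℚ}
    (k : CG Z M) (hsep : SepN fun s => pd Z (VE M s)) : Gd Z S :=
  ⟨fun _ hU hn => locR h hZ hs hU hn,
    fun _ _ hU hU' hn ψ hT => tw_sep h hZ k hsep hU hU' hn ψ hT⟩

section main

variable (h : TD Z S) (hZ : PM Z) (hs : Gd Z S)
include h hZ hs

/-- Invariant forms. -/
theorem inv_NK' {m : ℕ}
    (φ : MultilinearMap ℂ (fun _ : Fin m × Fin 2 => Fin G ⊕ Fin G → ℂ) ℂ)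
    (hφ : ∀ (g : Gam (GG (Y224.TS.LT S))) v, φ (fun k => RG (GG (Y224.TS.LT S)) g (v k)) = φ v) :
    φ ∈ NK hZ (Fin m × Fin 2) := by
  have hSI : ∀ {U}, W522.U.SI (RG (GG (Y224.TS.LT S))) U ↔ IrS (LZ Z) U := fun {U} => h.si hZ
  have hp := gz_proj h.genI h.cr
  obtain ⟨s, W, hW, hWW, hall⟩ := exists_reps hp
  obtain ⟨st, hst, hDu, hDu'⟩ := exists_st (χ := 1) hp (om G) om_nd (h.om' hZ) W hW hWW hall
  refine R915.forms_mem' (χ := 1) (fun Δ hΔ => fi_top Δ hΔ) (om G) om_nd (h.om' hZ) ?_ ?_ ?_ hp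
    W hW hWW hall st hst hDu hDu' (NK hZ) (clo_NK hZ) ?_ ?_ φ ?_
  · intro U hU hn
    exact (hs.r _ (hSI.1 hU) hn).unip h
  · intro U hU hn
    exact h.line hZ (hSI.1 hU) hn
  · intro U U' hU hU' hn _ ψ hT
    exact hs.t U U' (hSI.1 hU) (hSI.1 hU') hn ψ hT
  · intro b hb σ v
    have h1 := (rz_bil hZ stab_top stab_top b).2 (fun X hX u _ v _ => by
      refine (h.bil b (fun X hX => hZ.om_sp hX)).1 (fun X hX u v => ?_) X hX u v
      exact (gz_bil h.genI stab_top stab_top b).1 (fun g u _ v _ => by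
        rw [hb, MonoidHom.one_apply, one_mul]) X hX u trivial v trivial) (gs hZ σ)
    exact h1 (v 0) trivial (v 1) trivial
  · intro a ha hag ι _ _ f p hp ψ hψ
    have hW' : ∀ i, IrS (LZ Z) (W i) := fun i => hSI.1 (hW i)
    have key : ∀ (U : Submodule ℂ (Fin G ⊕ Fin G → ℂ)) (q : (Fin G ⊕ Fin G → ℂ) →ₗ[ℂ] U),
        (∀ g x, (q (RG (GG (Y224.TS.LT S)) g x) : Fin G ⊕ Fin G → ℂ) =
          RG (GG (Y224.TS.LT S)) g (q x)) →
        ∀ g x, (q (RZ Z g x) : Fin G ⊕ Fin G → ℂ) = RZ Z g (q x) := by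
      intro U q hq g x
      have h1 := (gz_equiv h.genI stab_top (U.subtype.comp q)).1 (fun g u _ => hq g u)
      have h2 := (h.eqv (U.subtype.comp q)).1 fun X hX w => h1 X hX w trivial
      exact (rz_equiv hZ stab_top (U.subtype.comp q)).2 (fun X hX u _ => h2 X hX u) g x trivial
    refine det_NK hZ (fun q : (Σ i, Fin (a i).toNat) => W q.1) (fun q => (hW' q.1).2.1) ?_ ι f p
      (fun q y => key _ _ (hp q y)) ψ hψ
    exact balT h hZ W hW' st hst (fun i => (h.du hZ (hW' i).2.1 (hW' _).2.1).1 (hDu i)) a ha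
      (h.tr_of_det hZ W hW' a hag)
  · refine ⟨⊤, inferInstance, fun g _ v => ?_⟩
    rw [MonoidHom.one_apply, one_pow, one_mul]
    exact hφ g v

/-- Forms killed by the involutions are killed by the Lie algebra of the period matrix. -/
theorem kill_LZ' {κ : Type} [Fintype κ] [DecidableEq κ]
    (φ : MultilinearMap ℂ (fun _ : κ => Fin G ⊕ Fin G → ℂ) ℂ)
    (hφ : ∀ D ∈ S, Kills (ph (Fin G ⊕ Fin G) D) φ) :
    ∀ X ∈ LZ Z, Kills (ph (Fin G ⊕ Fin G) X) φ := by
  classical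
  have hinv : ∀ (g : Gam (GG (Y224.TS.LT S))) v,
      φ (fun k => RG (GG (Y224.TS.LT S)) g (v k)) = φ v := by
    intro g v
    refine inv_gam φ (fun D hD _ => ?_) g v
    obtain ⟨X, hX, rfl⟩ := exists_GG hD
    exact kills_LT hφ hX
  have hN : φ ∈ NK hZ κ := by
    rcases Nat.even_or_odd (Fintype.card κ) with he | ho
    · obtain ⟨m, hm⟩ := he
      have e : κ ≃ Fin m × Fin 2 := Fintype.equivOfCardEq (by
        rw [Fintype.card_prod, Fintype.card_fin, Fintype.card_fin, hm]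
        ring)
      have h1 := inv_NK' h hZ hs (φ.domDomCongr e) (fun g v => by
        rw [MultilinearMap.domDomCongr_apply, MultilinearMap.domDomCongr_apply]
        exact hinv g _)
      exact (clo_NK hZ).reindex e.symm h1 φ fun v => by
        rw [MultilinearMap.domDomCongr_apply]
        congr 1
        funext k
        simp
    · have h0 : φ = 0 := by
        refine MultilinearMap.ext fun v => ?_
        obtain ⟨D, hDS, -⟩ := h.ex (RingEquiv.refl ℂ)
        have hDD : ph (Fin G ⊕ Fin G) D * ph (Fin G ⊕ Fin G) D = 1 := by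
          rw [← map_mul, h.sq D hDS, map_one]
        have hDm : ph (Fin G ⊕ Fin G) D ∈ GG (Y224.TS.LT S) := mem_GG.2 (LT_gen hDS)
        have h1 := hinv (gt hDD hDm (-1)) v
        have h2 : (fun k => RG (GG (Y224.TS.LT S)) (gt hDD hDm (-1)) (v k)) =
            fun k => (-1 : ℂ) • v k := by
          funext k
          change torE (ph _ D) (-1) (v k) = _
          rw [torE_apply]
          simp only [Units.val_neg, Units.val_one, inv_neg, inv_one]
          module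
        rw [h2, MultilinearMap.map_smul_univ, Finset.prod_const, Finset.card_univ,
          Odd.neg_one_pow ho, neg_one_smul] at h1
        have h3 : φ v = 0 := by linear_combination (-1 / 2 : ℂ) * h1
        rw [h3]
        rfl
      rw [h0]
      exact Submodule.zero_mem _
  have hDS : ∀ σ, act (DS Z σ) (CF φ) = 0 := fun σ =>
    kill_of_inv (DS_sq hZ.det σ) fun v => hN σ v
  have h1 : LZ Z ≤ killL φ := LZ_le hDS (fun A hA C hC => act_bracket hA hC)
  exact fun X hX => kills_of_act (h1 hX)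

end main

end

end Pool.Agent.N183.U5
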