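import Mathlib
import Pool.Agent.N183.U5.Glb
import Pool.Agent.N183.U5.Ten

/-!
# Forms which are combinations of products of bilinear forms
-/

set_option linter.unusedSectionVars false

namespace Pool.Agent.N183.U5

open Matrix Module Pool.Agent.W437.HC Pool.Agent.W437.HD Pool.Agent.W548.Odd Pool.Agent.W522.U
open Pool.Agent.H204R3.SP Pool.Agent.H204R3.GP Pool.Agent.Y90 Pool.Agent.Y224.TS TensorProduct
open Pool.Agent.Y224.TS.St (IsHodgeTate IsTateModule)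
open Pool.Agent.W437.HP (cK cK_mul cK_one)
open Pool.Agent.R915 (VE mem_VE VE_cj VE_stab)
open Pool.Agent.N183.TS

noncomputable section

section clo

variable {G : ℕ}

/-- Products of bilinear Hodge tensors. -/
def PH (Z : Matrix (Fin G) (Fin G) ℂ) (κ : Type) (f : (κ → Fin G ⊕ Fin G → ℚ) → ℚ) : Prop :=
  ∃ (M : Type) (_ : Fintype M) (e : M × Fin 2 ≃ κ)
    (r : M → MultilinearMap ℚ (fun _ : Fin 2 => Fin G ⊕ Fin G → ℚ) ℚ),
    (∀ i, IsHodgeTensor (perOne Z) (r i)) ∧ ∀ v, f v = ∏ i, r i (fun k => v (e (i, k)))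

/-- The functions attached to them. -/
def PS (Z : Matrix (Fin G) (Fin G) ℂ) (κ : Type) : Set ((κ → Fin G ⊕ Fin G → ℚ) → ℂ) :=
  {g | ∃ f, PH Z κ f ∧ g = fun v => ((f v : ℚ) : ℂ)}

theorem PS_mul {Z : Matrix (Fin G) (Fin G) ℂ} {κ κ' κ'' : Type} (e : κ ⊕ κ' ≃ κ'')
    {f : (κ → Fin G ⊕ Fin G → ℚ) → ℂ} {f' : (κ' → Fin G ⊕ Fin G → ℚ) → ℂ}
    (hf : f ∈ Submodule.span ℂ (PS Z κ)) (hf' : f' ∈ Submodule.span ℂ (PS Z κ')) :
    (fun v : κ'' → Fin G ⊕ Fin G → ℚ => f (fun k => v (e (Sum.inl k))) *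
      f' (fun k => v (e (Sum.inr k)))) ∈ Submodule.span ℂ (PS Z κ'') := by
  induction hf using Submodule.span_induction with
  | mem f hf =>
    induction hf' using Submodule.span_induction with
    | mem f' hf' =>
      obtain ⟨r, ⟨M, iM, eM, R, hR, hr⟩, rfl⟩ := hf
      obtain ⟨r', ⟨M', iM', eM', R', hR', hr'⟩, rfl⟩ := hf'
      refine Submodule.subset_span ⟨fun v => r (fun k => v (e (Sum.inl k))) *
        r' (fun k => v (e (Sum.inr k))), ⟨M ⊕ M', inferInstance,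
          ((Equiv.sumProdDistrib M M' (Fin 2)).trans (Equiv.sumCongr eM eM')).trans e,
          Sum.elim R R', ?_, fun v => ?_⟩, ?_⟩
      · rintro (i | i)
        · exact hR i
        · exact hR' i
      · beta_reduce
        rw [hr, hr', Fintype.prod_sum_type]
        rfl
      · funext v
        push_cast
        rfl
    | zero =>
      have h1 : (fun v : κ'' → Fin G ⊕ Fin G → ℚ => f (fun k => v (e (Sum.inl k))) *
        (0 : (κ' → Fin G ⊕ Fin G → ℚ) → ℂ) (fun k => v (e (Sum.inr k)))) = 0 := by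
        funext v
        simp
      rw [h1]
      exact Submodule.zero_mem _
    | add x y _ _ hx hy =>
      have h1 := Submodule.add_mem _ hx hy
      refine Eq.mp ?_ h1
      congr 1
      funext v
      simp only [Pi.add_apply]
      ring
    | smul c x _ hx =>
      have h1 := Submodule.smul_mem _ c hx
      refine Eq.mp ?_ h1
      congr 1
      funext v
      simp only [Pi.smul_apply, smul_eq_mul]
      ring
  | zero =>
    have h1 : (fun v : κ'' → Fin G ⊕ Fin G → ℚ =>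
      (0 : (κ → Fin G ⊕ Fin G → ℚ) → ℂ) (fun k => v (e (Sum.inl k))) *
        f' (fun k => v (e (Sum.inr k)))) = 0 := by
      funext v
      simp
    rw [h1]
    exact Submodule.zero_mem _
  | add x y _ _ hx hy =>
    have h1 := Submodule.add_mem _ hx hy
    refine Eq.mp ?_ h1
    congr 1
    funext v
    simp only [Pi.add_apply]
    ring
  | smul c x _ hx =>
    have h1 := Submodule.smul_mem _ c hx
    refine Eq.mp ?_ h1
    congr 1
    funext v
    simp only [Pi.smul_apply, smul_eq_mul]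
    ring

/-- Restriction of a form to the rational vectors. -/
def rst (κ : Type) : MultilinearMap ℂ (fun _ : κ => Fin G ⊕ Fin G → ℂ) ℂ →ₗ[ℂ]
    ((κ → Fin G ⊕ Fin G → ℚ) → ℂ) where
  toFun F := fun v => F (fun k => Pool.Agent.Y90.cv (v k))
  map_add' _ _ := rfl
  map_smul' _ _ := rfl

theorem rst_apply {κ : Type} (F : MultilinearMap ℂ (fun _ : κ => Fin G ⊕ Fin G → ℂ) ℂ)
    (v : κ → Fin G ⊕ Fin G → ℚ) : rst κ F v = F (fun k => Pool.Agent.Y90.cv (v k)) := rfl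

/-- The combinations of products of bilinear Hodge tensors. -/
def RR (Z : Matrix (Fin G) (Fin G) ℂ) (κ : Type) [Finite κ] :
    Submodule ℂ (MultilinearMap ℂ (fun _ : κ => Fin G ⊕ Fin G → ℂ) ℂ) :=
  (Submodule.span ℂ (PS Z κ)).comap (rst κ)

theorem clo_RR (Z : Matrix (Fin G) (Fin G) ℂ) : Clo (RR Z) := by
  constructor
  · intro κ _ _ φ
    change rst κ φ ∈ Submodule.span ℂ (PS Z κ)
    have h1 : rst κ φ = φ (fun _ => 0) • (fun _ : κ → Fin G ⊕ Fin G → ℚ => (((1 : ℚ) : ℚ) : ℂ)) := by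
      funext v
      rw [rst_apply, Pi.smul_apply, smul_eq_mul, Rat.cast_one, mul_one]
      congr 1
      exact Subsingleton.elim _ _
    rw [h1]
    refine Submodule.smul_mem _ _ (Submodule.subset_span ⟨fun _ => 1, ⟨Empty, inferInstance,
      Equiv.equivOfIsEmpty _ _, fun i => i.elim, fun i => i.elim, fun v => ?_⟩, rfl⟩)
    simp
  · intro κ κ' κ'' _ _ _ e φ φ' ψ hφ hφ' hψ
    have h1 := PS_mul (Z := Z) e (f := rst κ φ) (f' := rst κ' φ') hφ hφ'
    change rst κ'' ψ ∈ Submodule.span ℂ (PS Z κ'')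
    refine Eq.mp ?_ h1
    congr 1
    funext v
    rw [rst_apply, rst_apply, rst_apply, hψ]

/-- Invariant bilinear forms. -/
theorem pair_RR {Z : Matrix (Fin G) (Fin G) ℂ} (hZ : PM Z)
    (b : (Fin G ⊕ Fin G → ℂ) →ₗ[ℂ] (Fin G ⊕ Fin G → ℂ) →ₗ[ℂ] ℂ)
    (hb : ∀ X ∈ LZ Z, Kills (ph (Fin G ⊕ Fin G) X) (bil2 b)) : bil2 b ∈ RR Z (Fin 2) := by
  have h1 := expand_ten (F := bil2 b) hZ.cht gal_LZ (DJ_JR ▸ DZ_mem)
    (fun X hX => act_of_kills (hb X hX))
  change rst (Fin 2) (bil2 b) ∈ Submodule.span ℂ (PS Z (Fin 2))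
  refine Submodule.span_mono ?_ h1
  rintro g ⟨r, hr, rfl⟩
  refine ⟨fun v => r v, ⟨Unit, inferInstance, Equiv.punitProd (Fin 2), fun _ => r, fun _ => hr,
    fun v => ?_⟩, rfl⟩
  rw [Fintype.prod_unique]
  rfl

end clo

section main

variable {G : ℕ} {Z : Matrix (Fin G) (Fin G) ℂ}
  {S : Set (Matrix (Fin G ⊕ Fin G) (Fin G ⊕ Fin G) ℂ)}
variable (h : TD Z S) (hZ : PM Z) (hs : Gd Z S) {M : Matrix (Fin G ⊕ Fin G) (Fin G ⊕ Fin G) ℚ}
  (k : CG Z M)
  (nd : ∀ c : ℂ → ℚ, (∀ s, c (cc s) = -c s) →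
      (∀ τ : ℂ ≃+* ℂ, ∑ᶠ s, c s * (pd Z (VE M (τ s)) : ℚ) = 0) →
        ∀ s, pd Z (VE M s) ≠ 0 → c s = 0)
include h hZ hs k nd

/-- Invariant forms. -/
theorem inv_RR {m : ℕ}
    (φ : MultilinearMap ℂ (fun _ : Fin m × Fin 2 => Fin G ⊕ Fin G → ℂ) ℂ)
    (hφ : ∀ (g : Gam (GG (Y224.TS.LT S))) v, φ (fun k => RG (GG (Y224.TS.LT S)) g (v k)) = φ v) :
    φ ∈ RR Z (Fin m × Fin 2) := by
  have hSI : ∀ {U}, W522.U.SI (RG (GG (Y224.TS.LT S))) U ↔ IrS (LZ Z) U := fun {U} => h.si hZ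
  have hp := gz_proj h.genI h.cr
  obtain ⟨s, W, hW, hWW, hall⟩ := exists_reps hp
  obtain ⟨st, hst, hDu, hDu'⟩ := exists_st (χ := 1) hp (om G) om_nd (h.om' hZ) W hW hWW hall
  refine R915.forms_mem' (χ := 1) (fun Δ hΔ => fi_top Δ hΔ) (om G) om_nd (h.om' hZ) ?_ ?_ ?_ hp
    W hW hWW hall st hst hDu hDu' (RR Z) (clo_RR Z) ?_ ?_ φ ?_
  · intro U hU hn
    exact (hs.r _ (hSI.1 hU) hn).unip h
  · intro U hU hn
    exact h.line hZ (hSI.1 hU) hn
  · intro U U' hU hU' hn _ ψ hT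
    exact hs.t U U' (hSI.1 hU) (hSI.1 hU') hn ψ hT
  · intro b hb
    refine pair_RR hZ b fun X hX v => ?_
    have h1 := (h.bil b (fun X hX => hZ.om_sp hX)).1 (fun X hX u v => by
      exact (gz_bil h.genI stab_top stab_top b).1 (fun g u _ v _ => by
        rw [hb, MonoidHom.one_apply, one_mul]) X hX u trivial v trivial) X hX (v 0) (v 1)
    rw [Fin.sum_univ_two]
    exact h1
  · intro a ha hag ι _ _ f p hp ψ hψ
    have hW' : ∀ i, IrS (LZ Z) (W i) := fun i => hSI.1 (hW i)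
    have ha0 : ∀ i, a i = 0 := k.zero hZ nd W hW' (fun i j hij =>
      hWW i j ((h.tw hZ (hW' i).2.1).2 hij)) st hst
      (fun i => (h.du hZ (hW' i).2.1 (hW' _).2.1).1 (hDu i)) a ha (h.tr_of_det hZ W hW' a hag)
    have hE : IsEmpty (Σ q : (Σ i, Fin (a i).toNat), ι q) := by
      refine ⟨fun x => ?_⟩
      obtain ⟨⟨i, q⟩, _⟩ := x
      have h1 : (a i).toNat = 0 := by rw [ha0 i]; rfl
      exact (Fin.cast h1 q).elim0
    exact (clo_RR Z).unit _ ψ
  · refine ⟨⊤, inferInstance, fun g _ v => ?_⟩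
    rw [MonoidHom.one_apply, one_pow, one_mul]
    exact hφ g v

/-- Forms killed by the involutions. -/
theorem kill_RR {m : ℕ} (φ : MultilinearMap ℂ (fun _ : Fin m × Fin 2 => Fin G ⊕ Fin G → ℂ) ℂ)
    (hφ : ∀ D ∈ S, Kills (ph (Fin G ⊕ Fin G) D) φ) : φ ∈ RR Z (Fin m × Fin 2) := by
  refine inv_RR h hZ hs k nd φ fun g v => ?_
  refine inv_gam φ (fun D hD _ => ?_) g v
  obtain ⟨X, hX, rfl⟩ := exists_GG hD
  exact kills_LT hφ hX

end main

end

end Pool.Agent.N183.U5
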